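import Pool.Agent.Y143.Divisors

/-!
# Access to the axioms
-/

namespace Pool.Agent.Y143

universe u v

open Module

namespace SpecialFibre

variable {Ω : Type u} [Field Ω] [CharZero Ω] {Γ : Type} {n q : ℕ}
  (X : SpecialFibre.{u, v} Ω Γ n q)

instance finite (a : ℕ) : Module.Finite Ω (X.H a) := (X.duality a).1.finite

lemma isInternal (a : ℕ) : DirectSum.IsInternal (X.gr a) := (X.duality a).1.isInternal

lemma gr_eq_bot (a : ℕ) (m : ℤ) (h : m < 0 ∨ 2 * ((n : ℤ) - a) < m) : X.gr a m = ⊥ :=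
  (X.duality a).1.gr_eq_bot m h

lemma pair_gr (a : ℕ) (m m' : ℤ) (x y : X.H a) (hx : x ∈ X.gr a m) (hy : y ∈ X.gr a m')
    (h : m + m' ≠ 2 * ((n : ℤ) - a)) : X.pair a x y = 0 := (X.duality a).2.1.pair_gr m m' x y hx hy h

lemma pair_nondeg (a : ℕ) (x : X.H a) (h : ∀ y, X.pair a x y = 0) : x = 0 :=
  (X.duality a).2.1.pair_nondeg x h

lemma pair_symm (a : ℕ) (m : ℤ) (x y : X.H a) (h : x ∈ X.gr a m) :
    X.pair a y x = (-1 : Ω) ^ m * X.pair a x y := (X.duality a).2.1.pair_symm m x y h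

lemma lef_gr (a : ℕ) (m : ℤ) (x : X.H a) (h : x ∈ X.gr a m) : X.lef a x ∈ X.gr a (m + 2) :=
  (X.duality a).2.2.lef_gr m x h

lemma lef_pair (a : ℕ) (x y : X.H a) : X.pair a (X.lef a x) y = X.pair a x (X.lef a y) :=
  (X.duality a).2.2.lef_pair x y

lemma lef_inj (a s : ℕ) (x : X.H a) (hx : x ∈ X.gr a ((n : ℤ) - a - s))
    (h : (X.lef a ^ s) x = 0) : x = 0 := (X.duality a).2.2.lef_inj s x hx h

lemma lef_surj (a s : ℕ) (y : X.H a) (h : y ∈ X.gr a ((n : ℤ) - a + s)) :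
    ∃ x ∈ X.gr a ((n : ℤ) - a - s), (X.lef a ^ s) x = y := (X.duality a).2.2.lef_surj s y h

lemma tr_tr (g : Γ) : X.tr (X.tr g) = g := X.operators.2.1 g

lemma cyc_tr (g : Γ) : X.cyc (X.tr g) = (X.cyc g)⁻¹ := X.operators.2.2 g

lemma act_comm (a : ℕ) (g h : Γ) (x : X.H a) :
    X.act a g (X.act a h x) = X.act a h (X.act a g x) := (X.operators.1 a).act_comm g h x

lemma act_gr (a : ℕ) (m : ℤ) (g : Γ) (x : X.H a) (h : x ∈ X.gr a m) : X.act a g x ∈ X.gr a m :=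
  (X.operators.1 a).act_gr m g x h

lemma act_pair (a : ℕ) (g : Γ) (x y : X.H a) : X.pair a (X.act a g x) y =
    ((X.cyc g ^ ((n : ℤ) - a) : Ωˣ) : Ω) * X.pair a x (X.act a (X.tr g) y) :=
  (X.operators.1 a).act_pair g x y

lemma lef_act (a : ℕ) (g : Γ) (x : X.H a) :
    X.act a g (X.lef a x) = (X.cyc g : Ω) • X.lef a (X.act a g x) := (X.operators.1 a).lef_act g x

lemma cyc_frob : ((X.cyc X.frob : Ωˣ) : Ω) = q := X.frobenius.2

lemma frob_inv (a : ℕ) (x : X.H a) : X.act a (X.tr X.frob) (X.act a X.frob x) = x :=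
  (X.frobenius.1 a).frob_inv x

lemma weil (a : ℕ) (m : ℤ) (α : Ω) (x : X.H a) (hx : x ∈ X.gr a m) (hx0 : x ≠ 0)
    (h : X.act a X.frob x = α • x) : IsWeilNumber q m α := (X.frobenius.1 a).weil m α x hx hx0 h

lemma res_gr (a : ℕ) (m : ℤ) (x : X.H a) (h : x ∈ X.gr a m) : X.res a x ∈ X.gr (a + 1) m :=
  (X.restriction.restriction a).res_gr m x h

lemma res_act (a : ℕ) (g : Γ) (x : X.H a) :
    X.act (a + 1) g (X.res a x) = X.res a (X.act a g x) :=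
  (X.restriction.restriction a).res_act g x

lemma res_lef (a : ℕ) (x : X.H a) : X.res a (X.lef a x) = X.lef (a + 1) (X.res a x) :=
  (X.restriction.restriction a).res_lef x

lemma pair_res (a : ℕ) (x : X.H a) (y : X.H (a + 1)) :
    X.pair (a + 1) (X.res a x) y = X.pair a x (X.gys a y) := X.restriction.transpose a x y

lemma res_res (a : ℕ) (x : X.H a) : X.res (a + 1) (X.res a x) = 0 := X.restriction.res_res a x

lemma res_gys (a : ℕ) (x : X.H (a + 1)) :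
    X.res a (X.gys a x) + X.gys (a + 1) (X.res (a + 1) x) = 0 := X.restriction.res_gys a x

end SpecialFibre

namespace SemistableModel

variable {Ω : Type u} [Field Ω] [CharZero Ω] {Γ : Type} {n q : ℕ}
  (X : SemistableModel.{u, v} Ω Γ n q)

lemma W_mono (i : ℕ) : Monotone (X.W i) := (X.weightSequence i).W_mono

lemma W_bot (i : ℕ) : ∃ w, X.W i w = ⊥ := (X.weightSequence i).W_bot

lemma W_top (i : ℕ) : ∃ w, X.W i w = ⊤ := (X.weightSequence i).W_top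

lemma sp_mem (i : ℕ) (w : ℤ) (v : X.V i) (x : X.C) (h : (v, x) ∈ X.sp i w) :
    v ∈ X.W i w ∧ x ∈ X.cocycles (i - w) w := (X.weightSequence i).sp_mem w v x h

lemma sp_left (i : ℕ) (w : ℤ) (v : X.V i) (h : v ∈ X.W i w) : ∃ x, (v, x) ∈ X.sp i w :=
  (X.weightSequence i).sp_left w v h

lemma sp_right (i : ℕ) (w : ℤ) (x : X.C) (h : x ∈ X.cocycles (i - w) w) :
    ∃ v, (v, x) ∈ X.sp i w := (X.weightSequence i).sp_right w x h

lemma sp_ker (i : ℕ) (w : ℤ) (v : X.V i) (x : X.C) (h : (v, x) ∈ X.sp i w) :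
    v ∈ X.W i (w - 1) ↔ x ∈ X.coboundaries (i - w) w := (X.weightSequence i).sp_ker w v x h

lemma sp_act (i : ℕ) (w : ℤ) (v : X.V i) (x : X.C) (g : Γ) (h : (v, x) ∈ X.sp i w) :
    (X.actV i g v, X.actC (i - w) g x) ∈ X.sp i w := (X.monodromy i).sp_act w v x g h

lemma sp_N (i : ℕ) (w : ℤ) (v : X.V i) (x : X.C) (h : (v, x) ∈ X.sp i w) :
    (X.N i v, X.cut (i - w + 2) x) ∈ X.sp i (w - 2) := (X.monodromy i).sp_N w v x h

end SemistableModel

namespace Degeneration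

variable {Ω : Type u} [Field Ω] [CharZero Ω] {Γ : Type} {n q : ℕ}
  (X : Degeneration.{u, v} Ω Γ n q)

lemma lefschetz_inj (r : ℤ) (s : ℕ) (x : X.C) (hx : x ∈ X.cocycles r (n - s - r))
    (h : (X.lefC ^ s) x ∈ X.coboundaries r (n + s - r)) : x ∈ X.coboundaries r (n - s - r) :=
  (X.hardLefschetz r s).1 x hx h

lemma lefschetz_surj (r : ℤ) (s : ℕ) (y : X.C) (hy : y ∈ X.cocycles r (n + s - r)) :
    ∃ x ∈ X.cocycles r (n - s - r), y - (X.lefC ^ s) x ∈ X.coboundaries r (n + s - r) :=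
  (X.hardLefschetz r s).2 y hy

end Degeneration

variable {Ω : Type u} [Field Ω] [CharZero Ω] {Γ : Type} {n q : ℕ}

namespace DivisorClasses

variable {X : SpecialFibre.{u, v} Ω Γ n q} (A : DivisorClasses X)

lemma fg0 (a : ℕ) : (A.A0 a).FG := (A.components a).fg
lemma fg1 (a : ℕ) : (A.A1 a).FG := (A.divisors a).fg
lemma A0_le (a : ℕ) : ∀ x ∈ A.A0 a, x ∈ X.gr a 0 := (A.components a).le
lemma A1_le (a : ℕ) : ∀ x ∈ A.A1 a, x ∈ X.gr a 2 := (A.divisors a).le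
lemma span_A0 (a : ℕ) : X.gr a 0 ≤ Submodule.span Ω (A.A0 a : Set (X.H a)) :=
  (A.components a).span
lemma res_A0 (a : ℕ) : ∀ x ∈ A.A0 a, X.res a x ∈ A.A0 (a + 1) := (A.preserves a).res_A0
lemma res_A1 (a : ℕ) : ∀ x ∈ A.A1 a, X.res a x ∈ A.A1 (a + 1) := (A.preserves a).res_A1
lemma gys_A0 (a : ℕ) : ∀ x ∈ A.A0 (a + 1), X.gys a x ∈ A.A1 a := (A.preserves a).gys_A0
lemma lef_A0 (a : ℕ) : ∀ x ∈ A.A0 a, X.lef a x ∈ A.A1 a := (A.preserves a).lef_A0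
lemma int0 (a : ℕ) : ∀ x ∈ A.A0 a, ∀ y ∈ A.A0 a, ∃ k : ℤ,
    X.pair a x ((X.lef a ^ (n - a)) y) = k := (A.components a).int
lemma int1 (a : ℕ) : ∀ x ∈ A.A1 a, ∀ y ∈ A.A1 a, ∃ k : ℤ,
    X.pair a x ((X.lef a ^ (n - a - 2)) y) = k := (A.divisors a).int
lemma pos0 (a : ℕ) : ∀ x ∈ A.A0 a, x ≠ 0 → ∃ k : ℤ, 0 < k ∧
    X.pair a x ((X.lef a ^ (n - a)) x) = k := (A.components a).pos
lemma hodge_index (a : ℕ) : ∀ x ∈ A.A1 a, (X.lef a ^ (n - a - 1)) x = 0 → x ≠ 0 →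
    ∃ k : ℤ, k < 0 ∧ X.pair a x ((X.lef a ^ (n - a - 2)) x) = k := (A.divisors a).hodge_index
include A in
lemma weil_one (a : ℕ) : ∀ x ∈ X.gr a 1,
    (∀ y ∈ X.gr a 1, X.pair (a + 1) (X.res a x) ((X.lef (a + 1) ^ (n - a - 2)) (X.res a y)) = 0) →
      X.res a x = 0 := A.weil_one' a

end DivisorClasses

end Pool.Agent.Y143
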