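import Pool.Agent.Y143.Master

/-!
# Self-dual complexes without the hard Lefschetz theorem
-/

namespace Pool.Agent.Y143

open Module Submodule

variable {Ω : Type*} [Field Ω] {C : Type*} [AddCommGroup C] [Module Ω C]

/-- The axioms of a self-dual complex, without Lefschetz operator on the cohomology. -/
structure BaseComplex (ψ : C →ₗ[Ω] C →ₗ[Ω] Ω) (d : ℤ → Module.End Ω C)
    (G : ℤ → ℤ → Submodule Ω C) : Prop where
  neg : ∀ i j, G (-i) j = G i j
  d_mem : ∀ i j x, x ∈ G i j → d i x ∈ G (i + 1) (j + 1)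
  dd : ∀ i j x, x ∈ G i j → d (i + 1) (d i x) = 0
  out : ∀ i, 1 ≤ i → ∀ j x, x ∈ G i j → d (-i) x = 0 → d i x = 0
  incl : ∀ i, 1 ≤ i → ∀ j z, z ∈ G (i + 1) j → z ∈ G (i - 1) j
  dneg : ∀ i, d (-i - 1) = d (i - 1)
  perf : ∀ i j, Perf ψ (G i j) (G (-i) (-j))
  adj_d : ∀ i j x y, x ∈ G i j → y ∈ G (-i - 1) (-j - 1) → ψ (d i x) y = ψ x (d (-i - 1) y)

namespace BaseComplex

variable {ψ : C →ₗ[Ω] C →ₗ[Ω] Ω} {d : ℤ → Module.End Ω C} {G : ℤ → ℤ → Submodule Ω C}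

lemma bd_le (h : BaseComplex ψ d G) (i j : ℤ) : Bd d G i j ≤ Zc d G i j := by
  rintro _ ⟨x, hx, rfl⟩
  refine ⟨LefComplex.mem_cast _ _ _ _ (by ring) (by ring) (h.d_mem _ _ _ hx), ?_⟩
  have := h.dd _ _ _ hx
  rw [SetLike.mem_coe, LinearMap.mem_ker]
  rwa [show i - 1 + 1 = i by ring] at this

lemma zc_neg_le (h : BaseComplex ψ d G) (i : ℤ) (hi : 1 ≤ i) (j : ℤ) :
    Zc d G (-i) j ≤ Zc d G i j := by
  rintro x ⟨h1, h2⟩
  rw [h.neg] at h1
  exact ⟨h1, h.out i hi j x h1 h2⟩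

lemma bd_neg_le (h : BaseComplex ψ d G) (i : ℤ) (hi : 1 ≤ i) (j : ℤ) :
    Bd d G (-i) j ≤ Bd d G i j := by
  rintro _ ⟨x, hx, rfl⟩
  refine ⟨x, ?_, by rw [h.dneg]⟩
  apply h.incl i hi
  rw [← h.neg]
  exact LefComplex.mem_cast _ _ _ _ (by ring) rfl hx

variable [FiniteDimensional Ω C]

lemma annR_zc (h : BaseComplex ψ d G) (i j : ℤ) :
    annR ψ (Zc d G i j) (G (-i) (-j)) = Bd d G (-i) (-j) := by
  have h1 := h.perf (i + 1) (j + 1)
  have h2 : Perf ψ (G (i + 1) (j + 1)) (G (-i - 1) (-j - 1)) := by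
    rwa [show -(i + 1) = -i - 1 by ring, show -(j + 1) = -j - 1 by ring] at h1
  exact annR_ker (h.perf i j) h2 (fun x hx => h.d_mem _ _ _ hx)
    (fun y hy => LefComplex.mem_cast _ _ _ _ (by ring) (by ring) (h.d_mem _ _ _ hy))
    (fun x hx y hy => h.adj_d _ _ _ _ hx hy)

omit [FiniteDimensional Ω C] in
lemma annR_bd (h : BaseComplex ψ d G) (i j : ℤ) :
    annR ψ (Bd d G i j) (G (-i) (-j)) = Zc d G (-i) (-j) := by
  have h1 := h.perf (i - 1) (j - 1)
  refine annR_map h1 (fun y hy => ?_) (fun x hx y hy => ?_)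
  · exact LefComplex.mem_cast _ _ _ _ (by ring) (by ring) (h.d_mem _ _ _ hy)
  · have := h.adj_d (i - 1) (j - 1) x y hx
      (LefComplex.mem_cast _ _ _ _ (by ring) (by ring) hy)
    rwa [show -(i - 1) - 1 = -i by ring] at this

lemma hh_dual (h : BaseComplex ψ d G) (i j : ℤ) : hh d G i j = hh d G (-i) (-j) := by
  have h1 := (h.perf i j).finrank_annR (show Zc d G i j ≤ G i j from inf_le_left)
  have h2 := (h.perf i j).finrank_annR ((h.bd_le i j).trans inf_le_left)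
  rw [h.annR_zc] at h1
  rw [h.annR_bd] at h2
  unfold hh
  omega

lemma nSurj_of_hh (h : BaseComplex ψ d G) (i : ℤ) (hi : 1 ≤ i) (j : ℤ) (hI : NInj d G i j)
    (he : hh d G (-i) j = hh d G i j) : NSurj d G i j := by
  have h1 := Submodule.finrank_sup_add_finrank_inf_eq (Zc d G (-i) j) (Bd d G i j)
  have h2 : Zc d G (-i) j ⊔ Bd d G i j ≤ Zc d G i j :=
    sup_le (h.zc_neg_le i hi j) (h.bd_le i j)
  have h4 := Submodule.finrank_mono hI
  unfold hh at he
  have h5 : Zc d G (-i) j ⊔ Bd d G i j = Zc d G i j :=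
    Submodule.eq_of_le_of_finrank_le h2 (by omega)
  exact h5.ge

lemma hh_eq_of_good (h : BaseComplex ψ d G) (i : ℤ) (hi : 1 ≤ i) (j : ℤ) (hI : NInj d G i j)
    (hS : NSurj d G i j) : hh d G (-i) j = hh d G i j := by
  have h1 := Submodule.finrank_sup_add_finrank_inf_eq (Zc d G (-i) j) (Bd d G i j)
  have h2 : Zc d G (-i) j ⊔ Bd d G i j = Zc d G i j :=
    le_antisymm (sup_le (h.zc_neg_le i hi j) (h.bd_le i j)) hS
  have h3 : Zc d G (-i) j ⊓ Bd d G i j = Bd d G (-i) j :=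
    le_antisymm hI (le_inf (h.bd_le _ _) (h.bd_neg_le i hi j))
  rw [h2, h3] at h1
  unfold hh
  omega

lemma nInj_of_nSurj (h : BaseComplex ψ d G) (i j : ℤ) (hS : NSurj d G i (-j)) :
    NInj d G i j := by
  have e0 := h.perf i (-j)
  have key : ∀ x y, x ∈ Zc d G (-i) j ⊓ Bd d G i j → y ∈ Zc d G i (-j) → ψ y x = 0 := by
    intro x y hx hy
    obtain ⟨u, hu, v, hv, rfl⟩ := Submodule.mem_sup.1 (hS hy)
    have h1 : x ∈ annR ψ (Bd d G i (-j)) (G (-i) j) := by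
      have := h.annR_bd i (-j)
      rw [neg_neg] at this
      rw [this]
      exact hx.1
    have h2 : x ∈ annR ψ (Zc d G (-i) (-j)) (G i j) := by
      have := h.annR_zc (-i) (-j)
      rw [neg_neg, neg_neg] at this
      rw [this]
      exact hx.2
    rw [map_add, LinearMap.add_apply, h1.2 v hv, h2.2 u hu, add_zero]
  intro x hx
  have := h.annR_zc i (-j)
  rw [neg_neg] at this
  rw [← this]
  exact ⟨hx.1.1, fun y hy => key x y hx hy⟩

/-- In the middle degree injectivity implies surjectivity. -/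
theorem good_mid (h : BaseComplex ψ d G) (i : ℤ) (hi : 1 ≤ i) (hI : NInj d G i 0) :
    NSurj d G i 0 := by
  apply h.nSurj_of_hh i hi 0 hI
  have := h.hh_dual (-i) 0
  rwa [neg_neg, neg_zero] at this

/-- Transfer to the dual degree. -/
theorem good_flip (h : BaseComplex ψ d G) (i : ℤ) (hi : 1 ≤ i) (j : ℤ) (hI : NInj d G i (-j))
    (hS : NSurj d G i (-j)) : NInj d G i j ∧ NSurj d G i j := by
  have hI' := h.nInj_of_nSurj i j hS
  refine ⟨hI', h.nSurj_of_hh i hi j hI' ?_⟩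
  have h1 := h.hh_eq_of_good i hi (-j) hI hS
  have h2 := h.hh_dual (-i) j
  have h3 := h.hh_dual i j
  rw [neg_neg] at h2
  omega

end BaseComplex

end Pool.Agent.Y143
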