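import Pool.Agent.Y143.Master

/-!
# The main theorem on pairs of Lefschetz complexes
-/

namespace Pool.Agent.Y143

open Module Submodule

variable {Ω : Type*} [Field Ω] {C : Type*} [AddCommGroup C] [Module Ω C] [FiniteDimensional Ω C]
variable {ψ : C →ₗ[Ω] C →ₗ[Ω] Ω} {d : ℤ → Module.End Ω C} {L : Module.End Ω C}
  {G G' : ℤ → ℤ → Submodule Ω C}

/-- Bijectivity of `N ^ i` on cohomology in bidegree `(-i, j)`, for `G` and `G'`, and equality of
the dimensions. -/
structure Good2 (d : ℤ → Module.End Ω C) (G G' : ℤ → ℤ → Submodule Ω C) (i j : ℤ) : Prop where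
  inj : NInj d G i j
  surj : NSurj d G i j
  inj' : NInj d G' i j
  surj' : NSurj d G' i j
  hh : hh d G i j = hh d G' i j

lemma Good2.flip {i j : ℤ} (h : Good2 d G G' i j) : Good2 d G' G i j :=
  ⟨h.inj', h.surj', h.inj, h.surj, h.hh.symm⟩

/-- The critical part is trivial: zero, or everything. -/
def Trivial (d : ℤ → Module.End Ω C) (L : Module.End Ω C) (G : ℤ → ℤ → Submodule Ω C) (i : ℤ)
    (m : ℕ) : Prop := Zp d L G i m = ⊥ ∨ Pr L G i m ≤ Zp d L G i m

namespace LefDual

lemma good_of_inj (h : LefDual ψ d L G G') (hG : LefComplex d L G) (hG' : LefComplex d L G')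
    (i : ℤ) (hi : 1 ≤ i) (j : ℤ) (h1 : NInj d G i j) (h2 : NInj d G' i j) :
    Good2 d G G' i j := by
  have a1 := hG.hh_le_of_nInj i hi j h1
  have a2 := hG'.hh_le_of_nInj i hi j h2
  have a3 := h.hh_neg hG hG' i j
  have a4 := h.flip.hh_neg hG' hG i j
  refine ⟨h1, hG.nSurj_of_hh i hi j h1 (by omega), h2, hG'.nSurj_of_hh i hi j h2 (by omega),
    by omega⟩

lemma core (h : LefDual ψ d L G G') (hG : LefComplex d L G) (hG' : LefComplex d L G')
    (i : ℤ) (hi : 1 ≤ i) (m : ℕ) (hI' : NInj d G' i ((m : ℤ) + 2))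
    (hr : rk d G (i - 1) (-m - 1) = rk d G' (i - 1) (-m - 1))
    (hr2 : rk d G i (-m - 2) = rk d G' i (-m - 2))
    (hP : Pr L G i m ≤ Zp d L G i m) : Good2 d G G' i (-m) := by
  have hZ' : Zp d L G' i m = ⊥ := h.zp_eq_bot hG hG' i m hP
  have hinj' : NInj d G' i (-m) := hG'.nInj_of_Zp i hi m hI' hZ'
  have a1 := hG'.hh_le_of_nInj i hi _ hinj'
  have a3 := h.hh_neg hG hG' i (-m)
  have a4 := h.flip.hh_neg hG' hG i (-m)
  have hd : ∀ p ∈ Pr L G i m, d i p = 0 := by
    intro p hp
    have hp' := (hP hp).1.1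
    exact (hG.zc_neg_le i hi _ hp').2
  have b1 := hG.rk_of_prim i m hd
  have b2 := hG'.rk_ge i m
  have b3 := h.kk_eq hG' i (-m)
  have b4 := hh_eq d G i (-m)
  have b5 := hh_eq d G' i (-m)
  have e : hh d G i (-m) = hh d G' i (-m) := by omega
  have hsurj' : NSurj d G' i (-m) := hG'.nSurj_of_hh i hi _ hinj' (by omega)
  have hsurjpos : NSurj d G' i m := hG'.nSurj_pos i hi m hsurj'
  have hinj : NInj d G i (-m) := by
    apply h.nInj_of_nSurj hG hG'
    rwa [neg_neg]
  exact ⟨hinj, hG.nSurj_of_hh i hi _ hinj (by omega), hinj', hsurj', e⟩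

lemma core2 (h : LefDual ψ d L G G') (hG : LefComplex d L G) (hG' : LefComplex d L G')
    (i : ℤ) (hi : 1 ≤ i) (m : ℕ) (hI : NInj d G i ((m : ℤ) + 2))
    (hI' : NInj d G' i ((m : ℤ) + 2))
    (hr : rk d G (i - 1) (-m - 1) = rk d G' (i - 1) (-m - 1))
    (hr2 : rk d G i (-m - 2) = rk d G' i (-m - 2))
    (hT : Trivial d L G i m) (hT' : Trivial d L G' i m) : Good2 d G G' i (-m) := by
  rcases hT with hT | hT
  · rcases hT' with hT' | hT'
    · exact h.good_of_inj hG hG' i hi _ (hG.nInj_of_Zp i hi m hI hT)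
        (hG'.nInj_of_Zp i hi m hI' hT')
    · exact (h.flip.core hG' hG i hi m hI hr.symm hr2.symm hT').flip
  · exact h.core hG hG' i hi m hI' hr hr2 hT

/-- Transfer from `-m` to `m`. -/
lemma good_pos (h : LefDual ψ d L G G') (hG : LefComplex d L G) (hG' : LefComplex d L G')
    (i : ℤ) (hi : 1 ≤ i) (m : ℕ) (hg : Good2 d G G' i (-m)) : Good2 d G G' i m :=
  h.good_of_inj hG hG' i hi _ (hG.nInj_pos i hi m hg.inj) (hG'.nInj_pos i hi m hg.inj')

/-- The statement proved by induction on the diagonals. -/
structure Diag (d : ℤ → Module.End Ω C) (G G' : ℤ → ℤ → Submodule Ω C) (i j : ℤ) : Prop where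
  rk : rk d G i j = rk d G' i j
  good : 1 ≤ i → Good2 d G G' i j

lemma rk_bot {i j : ℤ} (hz : G i j = ⊥) : Pool.Agent.Y143.rk d G i j = 0 := by
  unfold Pool.Agent.Y143.rk
  rw [hz, Submodule.map_bot, finrank_bot]
  rfl

lemma step (h : LefDual ψ d L G G') (hG : LefComplex d L G) (hG' : LefComplex d L G')
    (hT : ∀ i : ℤ, 1 ≤ i → ∀ m : ℕ, Trivial d L G i m ∧ Trivial d L G' i m)
    (i j : ℤ) (ih : ∀ i' j' : ℤ, j' - i' < j - i → Diag d G G' i' j')
    (ih2 : Diag d G G' (i - 1) (j - 1)) : Diag d G G' i j := by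
  have k1 := h.kk_eq hG' i j
  have k2 := hh_eq d G i j
  have k3 := hh_eq d G' i j
  have k4 := ih2.rk
  rcases lt_trichotomy i 0 with hi | hi | hi
  · -- negative column
    have a1 := ih (-i) j (by omega)
    have a2 := ih (-i - 1) (j - 1) (by omega)
    have b1 := h.kk_eq hG' (-i) j
    have b2 := hh_eq d G (-i) j
    have b3 := hh_eq d G' (-i) j
    have c1 := h.hh_neg hG hG' (-i) j
    have c2 := h.flip.hh_neg hG' hG (-i) j
    rw [neg_neg] at c1 c2
    have d1 := a1.rk
    have d2 := a2.rk
    exact ⟨by omega, fun h => by omega⟩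
  · subst hi
    have c1 := h.hh_neg hG hG' 0 j
    rw [neg_zero] at c1
    exact ⟨by omega, fun h => by omega⟩
  · have hg : Good2 d G G' i j := by
      rcases lt_or_ge 0 j with hj | hj
      · obtain ⟨m, rfl⟩ := Int.eq_ofNat_of_zero_le hj.le
        exact h.good_pos hG hG' i hi m ((ih i (-m) (by omega)).good hi)
      · obtain ⟨m, hm⟩ := Int.eq_ofNat_of_zero_le (show 0 ≤ -j by omega)
        obtain rfl : j = -m := by omega
        have g2 := (ih i (-((m + 2 : ℕ) : ℤ)) (by push_cast; omega)).good hi
        have g3 := h.good_pos hG hG' i hi _ g2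
        have g4 := (ih i (-m - 2) (by omega)).rk
        have hm2 : ((m + 2 : ℕ) : ℤ) = (m : ℤ) + 2 := by push_cast; ring
        have hI : NInj d G i ((m : ℤ) + 2) := by rw [← hm2]; exact g3.inj
        have hI' : NInj d G' i ((m : ℤ) + 2) := by rw [← hm2]; exact g3.inj'
        exact h.core2 hG hG' i hi m hI hI' k4 g4 (hT i hi m).1 (hT i hi m).2
    exact ⟨by have := hg.hh; omega, fun _ => hg⟩

/-- **Main theorem.** If for all `i ≥ 1` and `m ≥ 0` the critical part of the primitive part in
bidegree `(-i, -m)` is zero or everything, for `G` and for the dual complex `G'`, then `N ^ i` is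
an isomorphism on cohomology for all `i`. -/
theorem main (h : LefDual ψ d L G G') (hG : LefComplex d L G) (hG' : LefComplex d L G')
    (hT : ∀ i : ℤ, 1 ≤ i → ∀ m : ℕ, Trivial d L G i m ∧ Trivial d L G' i m)
    (i j : ℤ) : Diag d G G' i j := by
  obtain ⟨B, hB0, hB⟩ := hG.bdd
  obtain ⟨B', hB0', hB'⟩ := hG'.bdd
  have key : ∀ N : ℕ, ∀ i j : ℤ, j - i < -2 * (B + B') + N → Diag d G G' i j := by
    intro N
    induction N with
    | zero =>
      intro i j hij
      have hb : ∀ i j : ℤ, j - i < -2 * (B + B') → G i j = ⊥ ∧ G' i j = ⊥ := by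
        intro i j hij
        have habs : B + B' < |i| ∨ B + B' < |j| := by
          by_contra hcon
          push Not at hcon
          obtain ⟨h1, h2⟩ := hcon
          have h3 := abs_le.1 h1
          have h4 := abs_le.1 h2
          omega
        constructor
        · apply hB
          rcases habs with h1 | h1
          · left; omega
          · right; omega
        · apply hB'
          rcases habs with h1 | h1
          · left; omega
          · right; omega
      have hij' : j - i < -2 * (B + B') := by simpa using hij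
      obtain ⟨g1, g2⟩ := hb i j hij'
      obtain ⟨g3, g4⟩ := hb (i - 1) (j - 1) (by omega)
      have z1 : Zc d G i j = ⊥ := by unfold Zc; rw [g1]; simp
      have z2 : Zc d G' i j = ⊥ := by unfold Zc; rw [g2]; simp
      have z3 : Bd d G i j = ⊥ := by unfold Bd; rw [g3]; simp
      have z4 : Bd d G' i j = ⊥ := by unfold Bd; rw [g4]; simp
      refine ⟨by rw [rk_bot g1, rk_bot g2], fun hi => ?_⟩
      refine h.good_of_inj hG hG' i hi j ?_ ?_
      · unfold NInj; rw [z3]; simp
      · unfold NInj; rw [z4]; simp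
    | succ N ihN =>
      intro i j hij
      -- inner induction on the column
      have inner : ∀ M : ℕ, ∀ i' j' : ℤ, j' - i' = j - i → i' < -(B + B') + M →
          Diag d G G' i' j' := by
        intro M
        induction M with
        | zero =>
          intro i' j' hd hi'
          have hlt : i' < -(B + B') := by simpa using hi'
          have habs : B + B' < |i'| := by
            rw [abs_of_nonpos (by omega)]
            omega
          have habs2 : B + B' < |i' - 1| := by
            rw [abs_of_nonpos (by omega)]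
            omega
          have g1 : G i' j' = ⊥ := hB _ _ (Or.inl (by omega))
          have g2 : G' i' j' = ⊥ := hB' _ _ (Or.inl (by omega))
          exact ⟨by rw [rk_bot g1, rk_bot g2], fun h => by omega⟩
        | succ M ihM =>
          intro i' j' hd hi'
          apply h.step hG hG' hT i' j'
          · intro i'' j'' hlt
            apply ihN
            push_cast at hij
            omega
          · apply ihM
            · omega
            · push_cast at hi'
              omega
      exact inner (i + (B + B') + 1).toNat i j rfl (by omega)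
  exact key (j - i + 2 * (B + B') + 1).toNat i j (by omega)

end LefDual

end Pool.Agent.Y143
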