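import Pool.Agent.Y143.SimpleDefs

/-!
# Generalized weight spaces of a commuting family and the projections to them
-/

namespace Pool.Agent.Y143

open Module

variable {Ω : Type*} [Field Ω] {C : Type*} [AddCommGroup C] [Module Ω C] {ι : Type*}

lemma mem_Wt {T : ι → Module.End Ω C} {χ : ι → Ω} {x : C} :
    x ∈ Wt T χ ↔ ∀ g, ∃ k : ℕ, ((T g - χ g • (1 : Module.End Ω C)) ^ k) x = 0 :=
  Module.End.mem_iInf_maxGenEigenspace_iff T χ x

variable [IsAlgClosed Ω] [FiniteDimensional Ω C]

lemma iSup_Wt (T : ι → Module.End Ω C) (hT : ∀ g h, Commute (T g) (T h)) :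
    ⨆ χ, Wt T χ = ⊤ :=
  Module.End.iSup_iInf_maxGenEigenspace_eq_top_of_iSup_maxGenEigenspace_eq_top_of_commute T
    (fun g h _ => hT g h) (fun g => Module.End.iSup_maxGenEigenspace_eq_top _)

omit [IsAlgClosed Ω] [FiniteDimensional Ω C] in
lemma indep_Wt (T : ι → Module.End Ω C) (hT : ∀ g h, Commute (T g) (T h)) :
    iSupIndep (Wt T) :=
  Module.End.independent_iInf_maxGenEigenspace_of_forall_mapsTo T
    (fun g h φ => Module.End.mapsTo_maxGenEigenspace_of_comm (hT h g) φ)

/-- A stable subspace is the sum of its intersections with the weight spaces. -/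
lemma stable_eq_iSup (T : ι → Module.End Ω C) (hT : ∀ g h, Commute (T g) (T h))
    (p : Submodule Ω C) (hp : ∀ g x, x ∈ p → T g x ∈ p) :
    ⨆ χ, p ⊓ Wt T χ = p := by
  have hp' : ∀ g, Set.MapsTo (T g) p p := fun g x hx => hp g x hx
  have h1 := iSup_Wt (fun g => (T g).restrict (hp' g)) (fun g h => by
    ext x
    have := LinearMap.congr_fun (hT g h) (x : C)
    exact this)
  have h2 : ∀ χ : ι → Ω, p ⊓ Wt T χ =
      (Wt (fun g => (T g).restrict (hp' g)) χ).map p.subtype := fun χ =>
    Submodule.inf_iInf_maxGenEigenspace_of_forall_mapsTo (μ := χ) T p hp'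
  simp_rw [h2]
  rw [← Submodule.map_iSup, h1, Submodule.map_top, Submodule.range_subtype]

/-- The projection to the weight space. -/
lemma exists_proj (T : ι → Module.End Ω C) (hT : ∀ g h, Commute (T g) (T h)) (χ : ι → Ω) :
    ∃ π : Module.End Ω C, (∀ x, π x ∈ Wt T χ) ∧ (∀ x ∈ Wt T χ, π x = x) ∧
      ∀ χ', χ' ≠ χ → ∀ x ∈ Wt T χ', π x = 0 := by
  have hc : IsCompl (Wt T χ) (⨆ χ' ≠ χ, Wt T χ') := by
    constructor
    · exact indep_Wt T hT χ
    · rw [codisjoint_iff, eq_top_iff, ← iSup_Wt T hT]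
      apply iSup_le
      intro χ'
      by_cases h : χ' = χ
      · subst h
        exact le_sup_left
      · exact le_trans (le_iSup₂_of_le χ' h le_rfl) le_sup_right
  refine ⟨(Wt T χ).subtype ∘ₗ (Wt T χ).projectionOnto _ hc, fun x => ?_, fun x hx => ?_,
    fun χ' hχ' x hx => ?_⟩
  · exact Subtype.coe_prop _
  · have := Submodule.projectionOnto_apply_left hc ⟨x, hx⟩
    rw [LinearMap.comp_apply]
    exact congrArg Subtype.val this
  · rw [LinearMap.comp_apply]
    have hx' : x ∈ ⨆ χ' ≠ χ, Wt T χ' := by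
      exact Submodule.mem_iSup_of_mem χ' (Submodule.mem_iSup_of_mem hχ' hx)
    have : (Wt T χ).projectionOnto _ hc x = 0 :=
      (Submodule.projectionOnto_apply_eq_zero_iff hc).2 hx'
    rw [this]
    rfl

/-- The projection to the weight space of `χ`. -/
noncomputable def prj (T : ι → Module.End Ω C) (hT : ∀ g h, Commute (T g) (T h)) (χ : ι → Ω) :
    Module.End Ω C := (exists_proj T hT χ).choose

section

variable {T : ι → Module.End Ω C} (hT : ∀ g h, Commute (T g) (T h))

lemma prj_mem (χ : ι → Ω) (x : C) : prj T hT χ x ∈ Wt T χ :=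
  (exists_proj T hT χ).choose_spec.1 x

lemma prj_of_mem {χ : ι → Ω} {x : C} (hx : x ∈ Wt T χ) : prj T hT χ x = x :=
  (exists_proj T hT χ).choose_spec.2.1 x hx

lemma prj_of_mem_ne {χ χ' : ι → Ω} (h : χ' ≠ χ) {x : C} (hx : x ∈ Wt T χ') :
    prj T hT χ x = 0 :=
  (exists_proj T hT χ).choose_spec.2.2 χ' h x hx

/-- The projections preserve the stable subspaces. -/
lemma prj_stable {p : Submodule Ω C} (hp : ∀ g x, x ∈ p → T g x ∈ p) (χ : ι → Ω) {x : C}
    (hx : x ∈ p) : prj T hT χ x ∈ p := by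
  classical
  rw [← stable_eq_iSup T hT p hp] at hx
  refine Submodule.iSup_induction (fun χ' => p ⊓ Wt T χ')
    (motive := fun x => prj T hT χ x ∈ p) hx ?_ ?_ ?_
  · intro χ' y hy
    by_cases h : χ' = χ
    · subst h
      rw [prj_of_mem hT hy.2]
      exact hy.1
    · rw [prj_of_mem_ne hT h hy.2]
      exact p.zero_mem
  · rw [map_zero]
    exact p.zero_mem
  · intro y z hy hz
    rw [map_add]
    exact p.add_mem hy hz

/-- An element lies in a subspace if all its components do. -/
lemma mem_of_prj_mem (p : Submodule Ω C) {x : C} (hx : ∀ χ, prj T hT χ x ∈ p) : x ∈ p := by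
  classical
  have h1 : x ∈ ⨆ χ, Wt T χ := by rw [iSup_Wt T hT]; exact Submodule.mem_top
  obtain ⟨f, hf, hfx⟩ := (Submodule.mem_iSup_iff_exists_finsupp _ _).1 h1
  have h2 : ∀ χ ∈ f.support, prj T hT χ x = f χ := by
    intro χ hχ
    rw [← hfx, Finsupp.sum, map_sum, Finset.sum_eq_single χ]
    · exact prj_of_mem hT (hf χ)
    · intro χ' _ hne
      exact prj_of_mem_ne hT hne (hf χ')
    · intro hn
      exact absurd hχ hn
  rw [← hfx, Finsupp.sum]
  apply Submodule.sum_mem
  intro χ hχ
  rw [← h2 χ hχ]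
  exact hx χ

lemma eq_zero_of_prj {x : C} (hx : ∀ χ, prj T hT χ x = 0) : x = 0 := by
  have := mem_of_prj_mem hT ⊥ (x := x) (fun χ => by rw [hx χ]; exact Submodule.zero_mem _)
  exact this

variable {T' : ι → Module.End Ω C} (hT' : ∀ g h, Commute (T' g) (T' h))

omit [IsAlgClosed Ω] [FiniteDimensional Ω C] in
/-- An equivariant map up to nonzero factors maps weight spaces to weight spaces. -/
lemma map_Wt {c : ι → Ω} (f : Module.End Ω C)
    (hf : ∀ g x, T' g (f x) = c g • f (T g x)) {χ : ι → Ω} {x : C} (hx : x ∈ Wt T χ) :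
    f x ∈ Wt T' (fun g => c g * χ g) := by
  rw [mem_Wt] at hx ⊢
  intro g
  obtain ⟨k, hk⟩ := hx g
  refine ⟨k, ?_⟩
  have h1 : ∀ (k : ℕ) (y : C), ((T' g - (c g * χ g) • (1 : Module.End Ω C)) ^ k) (f y) =
      (c g) ^ k • f (((T g - χ g • (1 : Module.End Ω C)) ^ k) y) := by
    intro k
    induction k with
    | zero => intro y; simp
    | succ k ih =>
      intro y
      have e : (T' g - (c g * χ g) • (1 : Module.End Ω C)) (f y) =
          c g • f ((T g - χ g • (1 : Module.End Ω C)) y) := by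
        simp only [LinearMap.sub_apply, LinearMap.smul_apply, Module.End.one_apply, hf, map_sub,
          map_smul, smul_sub, mul_smul]
      rw [pow_succ, Module.End.mul_apply, e, map_smul, ih, smul_smul, pow_succ (c g),
        pow_succ (T g - χ g • (1 : Module.End Ω C)), Module.End.mul_apply, mul_comm (c g)]
  rw [h1, hk, map_zero, smul_zero]

/-- Equivariant maps commute with the projections. -/
lemma prj_equiv {c : ι → Ω} (hc : ∀ g, c g ≠ 0) (f : Module.End Ω C)
    (hf : ∀ g x, T' g (f x) = c g • f (T g x)) (χ : ι → Ω) (x : C) :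
    prj T' hT' (fun g => c g * χ g) (f x) = f (prj T hT χ x) := by
  have h1 : x ∈ ⨆ χ, Wt T χ := by rw [iSup_Wt T hT]; exact Submodule.mem_top
  refine Submodule.iSup_induction (fun χ' => Wt T χ')
    (motive := fun x => prj T' hT' (fun g => c g * χ g) (f x) = f (prj T hT χ x)) h1 ?_ ?_ ?_
  · intro χ' y hy
    have h2 := map_Wt f hf hy
    by_cases h : χ' = χ
    · subst h
      rw [prj_of_mem hT hy, prj_of_mem hT' h2]
    · rw [prj_of_mem_ne hT h hy, map_zero]
      apply prj_of_mem_ne hT' _ h2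
      intro he
      apply h
      funext g
      have := congrFun he g
      exact mul_left_cancel₀ (hc g) this
  · simp
  · intro y z hy hz
    rw [map_add, map_add, map_add, map_add, hy, hz]

end

end Pool.Agent.Y143
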