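import Pool.Agent.Y143.Access
import Pool.Agent.Y143.Induct
import Pool.Agent.Y143.Wt

/-!
# Basic properties of the weight spectral sequence
-/

namespace Pool.Agent.Y143

universe u v

open Module

namespace SpecialFibre

variable {Ω : Type u} [Field Ω] [CharZero Ω] {Γ : Type} {n q : ℕ}
  (X : SpecialFibre.{u, v} Ω Γ n q)

/-! ### The graded pieces -/

lemma iSup_gr (a : ℕ) : ⨆ m, X.gr a m = ⊤ := (X.isInternal a).submodule_iSup_eq_top

lemma gr_induction {a : ℕ} {P : X.H a → Prop} (h0 : P 0) (hadd : ∀ x y, P x → P y → P (x + y))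
    (h : ∀ m x, x ∈ X.gr a m → P x) (x : X.H a) : P x := by
  have hx : x ∈ ⨆ m, X.gr a m := by rw [X.iSup_gr]; exact Submodule.mem_top
  exact Submodule.iSup_induction (fun m => X.gr a m) (motive := P) hx (fun m y hy => h m y hy) h0
    (fun y z hy hz => hadd y z hy hz)

lemma subsingleton_H {a : ℕ} (ha : n < a) : Subsingleton (X.H a) := by
  have h : ∀ x : X.H a, x = 0 := by
    intro x
    refine X.gr_induction (P := fun x => x = 0) rfl (fun x y hx hy => by rw [hx, hy, add_zero])
      (fun m x hx => ?_) x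
    have : X.gr a m = ⊥ := X.gr_eq_bot a m (by omega)
    rw [this] at hx
    exact hx
  exact ⟨fun x y => by rw [h x, h y]⟩

lemma eq_zero_of_lt {a : ℕ} (ha : n < a) (x : X.H a) : x = 0 := by
  have := X.subsingleton_H ha
  exact Subsingleton.elim _ _

instance : FiniteDimensional Ω X.C := by
  let f : X.C →ₗ[Ω] (∀ a : Fin (n + 1), X.H a) :=
    { toFun := fun x a => x a
      map_add' := fun x y => rfl
      map_smul' := fun c x => rfl }
  apply Module.Finite.of_injective f
  intro x y hxy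
  funext a
  by_cases ha : a < n + 1
  · exact congrFun hxy ⟨a, ha⟩
  · have := X.subsingleton_H (a := a) (by omega)
    exact Subsingleton.elim _ _

/-- Two elements which agree in the pairing with the complementary pieces: an element lies in
`gr a k` if it is orthogonal to the other pieces. -/
lemma mem_gr_of_pair {a : ℕ} {k : ℤ} {z : X.H a}
    (h : ∀ m' y, y ∈ X.gr a m' → m' + k ≠ 2 * ((n : ℤ) - a) → X.pair a z y = 0) :
    z ∈ X.gr a k := by
  classical
  have hz : z ∈ ⨆ m, X.gr a m := by rw [X.iSup_gr]; exact Submodule.mem_top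
  obtain ⟨f, hf, hfz⟩ := (Submodule.mem_iSup_iff_exists_finsupp _ _).1 hz
  have key : ∀ m ∈ f.support, m ≠ k → f m = 0 := by
    intro m hm hmk
    apply X.pair_nondeg
    intro y
    refine X.gr_induction (P := fun y => X.pair a (f m) y = 0) (by simp)
      (fun x y hx hy => by rw [map_add, hx, hy, add_zero]) (fun m' y hy => ?_) y
    by_cases hmm : m + m' = 2 * ((n : ℤ) - a)
    · have h1 : X.pair a z y = 0 := h m' y hy (by omega)
      rw [← hfz, Finsupp.sum, map_sum, LinearMap.sum_apply, Finset.sum_eq_single m] at h1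
      · exact h1
      · intro m'' _ hne
        exact X.pair_gr a m'' m' _ _ (hf m'') hy (by omega)
      · intro hn
        exact absurd hm hn
    · exact X.pair_gr a m m' _ _ (hf m) hy hmm
  rw [← hfz, Finsupp.sum]
  apply Submodule.sum_mem
  intro m hm
  by_cases hmk : m = k
  · subst hmk
    exact hf m
  · rw [key m hm hmk]
    exact Submodule.zero_mem _

lemma pair_nondeg' (a : ℕ) (y : X.H a) (h : ∀ x, X.pair a x y = 0) : y = 0 := by
  apply X.pair_nondeg
  intro x
  refine X.gr_induction (P := fun x => X.pair a y x = 0) (by simp)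
      (fun x y hx hy => by rw [map_add, hx, hy, add_zero]) (fun m x hx => ?_) x
  rw [X.pair_symm a m x y hx, h, mul_zero]

/-- The Gysin map is also the right transpose of the restriction. -/
lemma pair_gys (a : ℕ) (x : X.H (a + 1)) (y : X.H a) :
    X.pair a (X.gys a x) y = X.pair (a + 1) x (X.res a y) := by
  refine X.gr_induction (P := fun y => X.pair a (X.gys a x) y = X.pair (a + 1) x (X.res a y))
    (by simp) (fun y z hy hz => by rw [map_add, map_add, map_add, hy, hz]) (fun m y hy => ?_) y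
  rw [X.pair_symm a m y _ hy, X.pair_symm (a + 1) m _ _ (X.res_gr a m y hy), X.pair_res]

lemma gys_gr (a : ℕ) (m : ℤ) (x : X.H (a + 1)) (hx : x ∈ X.gr (a + 1) m) :
    X.gys a x ∈ X.gr a (m + 2) := by
  apply X.mem_gr_of_pair
  intro m' y hy hne
  rw [X.pair_gys]
  apply X.pair_gr (a + 1) m m' _ _ hx (X.res_gr a m' y hy)
  push_cast
  omega

lemma gys_lef (a : ℕ) (x : X.H (a + 1)) :
    X.gys a (X.lef (a + 1) x) = X.lef a (X.gys a x) := by
  rw [← sub_eq_zero]
  apply X.pair_nondeg
  intro y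
  rw [map_sub, LinearMap.sub_apply, X.pair_gys, X.lef_pair, X.lef_pair, X.pair_gys, X.res_lef,
    sub_self]

lemma gys_gys (a : ℕ) (x : X.H (a + 2)) : X.gys a (X.gys (a + 1) x) = 0 := by
  apply X.pair_nondeg
  intro y
  rw [X.pair_gys, X.pair_gys, X.res_res, map_zero]

lemma gys_act (a : ℕ) (g : Γ) (x : X.H (a + 1)) :
    X.act a g (X.gys a x) = (X.cyc g : Ω) • X.gys a (X.act (a + 1) g x) := by
  rw [← sub_eq_zero]
  apply X.pair_nondeg
  intro y
  have e1 := X.act_pair a g (X.gys a x) y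
  have e2 := X.act_pair (a + 1) g x (X.res a y)
  rw [map_sub, LinearMap.sub_apply, map_smul, LinearMap.smul_apply, e1, X.pair_gys a x,
    X.pair_gys a _ y, e2, X.res_act]
  have h3 : ((X.cyc g ^ ((n : ℤ) - a) : Ωˣ) : Ω) =
      (X.cyc g : Ω) * ((X.cyc g ^ ((n : ℤ) - ((a + 1 : ℕ) : ℤ)) : Ωˣ) : Ω) := by
    rw [← Units.val_mul]
    congr 1
    rw [mul_comm, ← zpow_add_one]
    congr 1
    push_cast
    ring
  rw [h3, smul_eq_mul]
  ring

/-! ### Families -/

@[simp] lemma resC_zero (x : X.C) : X.resC x 0 = 0 := rfl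
@[simp] lemma resC_succ (x : X.C) (a : ℕ) : X.resC x (a + 1) = X.res a (x a) := rfl
@[simp] lemma gysC_apply (x : X.C) (a : ℕ) : X.gysC x a = X.gys a (x (a + 1)) := rfl
@[simp] lemma lefC_apply (x : X.C) (a : ℕ) : X.lefC x a = X.lef a (x a) := rfl
lemma actC_apply (r : ℤ) (g : Γ) (x : X.C) (a : ℕ) : X.actC r g x a =
  ((X.cyc g ^ (((a : ℤ) - r) / 2) : Ωˣ) : Ω) • X.act a g (x a) := rfl

lemma cut_of {r : ℤ} {a : ℕ} (h : InColumn r a) (x : X.C) : X.cut r x a = x a := by
  classical
  exact if_pos h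

lemma cut_of_not {r : ℤ} {a : ℕ} (h : ¬ InColumn r a) (x : X.C) : X.cut r x a = 0 := by
  classical
  exact if_neg h

lemma mem_E₁ {r w : ℤ} {x : X.C} : x ∈ X.E₁ r w ↔
    ∀ a, x a ∈ X.gr a (w + r - a) ∧ (¬ InColumn r a → x a = 0) := Iff.rfl

lemma inColumn_neg (r : ℤ) (a : ℕ) : InColumn (-r) a ↔ InColumn r a := by
  unfold InColumn
  rw [abs_neg]
  constructor
  · rintro ⟨h1, h2⟩
    exact ⟨h1, by omega⟩
  · rintro ⟨h1, h2⟩
    exact ⟨h1, by omega⟩

lemma E₁_neg (r w : ℤ) : X.E₁ (-r) (w + 2 * r) = X.E₁ r w := by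
  ext x
  rw [mem_E₁, mem_E₁]
  apply forall_congr'
  intro a
  rw [inColumn_neg, show w + 2 * r + -r - a = w + r - a by ring]

lemma cut_neg (r : ℤ) : X.cut (-r) = X.cut r := by
  classical
  ext x a
  by_cases h : InColumn r a
  · rw [X.cut_of h, X.cut_of ((inColumn_neg r a).2 h)]
  · rw [X.cut_of_not h, X.cut_of_not (fun h' => h ((inColumn_neg r a).1 h'))]

lemma diff_apply (r : ℤ) (x : X.C) : X.diff r x = X.cut (r + 1) (X.resC x + X.gysC x) := rfl

lemma diff_neg (r : ℤ) : X.diff (-r - 1) = X.diff (r - 1) := by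
  unfold StrataData.diff
  rw [show -r - 1 + 1 = -r by ring, show r - 1 + 1 = r by ring, cut_neg]

lemma resC_gysC_mem {r w : ℤ} {x : X.C} (hx : x ∈ X.E₁ r w) (a : ℕ) :
    (X.resC x + X.gysC x) a ∈ X.gr a (w + (r + 1) - a) := by
  rw [Pi.add_apply]
  apply Submodule.add_mem
  · cases a with
    | zero => simp
    | succ b =>
      rw [resC_succ]
      have := X.res_gr b _ _ (hx b).1
      rwa [show w + (r + 1) - ((b + 1 : ℕ) : ℤ) = w + r - b by push_cast; ring]
  · rw [gysC_apply]
    have := X.gys_gr a _ _ (hx (a + 1)).1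
    rwa [show w + (r + 1) - (a : ℤ) = w + r - ((a + 1 : ℕ) : ℤ) + 2 by push_cast; ring]

lemma diff_mem {r w : ℤ} {x : X.C} (hx : x ∈ X.E₁ r w) : X.diff r x ∈ X.E₁ (r + 1) w := by
  intro a
  rw [diff_apply]
  constructor
  · by_cases h : InColumn (r + 1) a
    · rw [X.cut_of h]
      exact X.resC_gysC_mem hx a
    · rw [X.cut_of_not h]
      exact Submodule.zero_mem _
  · intro h
    exact X.cut_of_not h _

/-- The square of `res + gys` vanishes except in the components `0`. -/
lemma sq_apply (x : X.C) (a : ℕ) :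
    (X.resC (X.resC x + X.gysC x) + X.gysC (X.resC x + X.gysC x)) (a + 1) = 0 := by
  rw [Pi.add_apply, resC_succ, gysC_apply, Pi.add_apply, Pi.add_apply, resC_succ, gysC_apply,
    gysC_apply, map_add, map_add, gys_gys]
  have h1 := X.res_gys a (x (a + 1))
  have h2 : X.res a (X.resC x a) = 0 := by
    cases a with
    | zero => simp
    | succ b => rw [resC_succ, X.res_res]
  rw [h2]
  rw [zero_add, add_zero]
  exact h1

end SpecialFibre

end Pool.Agent.Y143
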