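import Pool.Agent.Y143.Basic

/-!
# The weight spectral sequence: complex, duality, symmetries
-/

namespace Pool.Agent.Y143

universe u v

open Module

namespace SpecialFibre

variable {Ω : Type u} [Field Ω] [CharZero Ω] {Γ : Type} {n q : ℕ}
  (X : SpecialFibre.{u, v} Ω Γ n q)

lemma eq_zero_of_not_col {r w : ℤ} {x : X.C} (hx : x ∈ X.E₁ r w) {a : ℕ} (h : ¬ InColumn r a) :
    x a = 0 := (hx a).2 h

lemma cut_diff_apply {r w : ℤ} {x : X.C} (hx : x ∈ X.E₁ r w) {b : ℕ} (hpar : 2 ∣ (b : ℤ) - (r + 1))
    (hb : |r + 1| ≤ b ∨ (r ≤ -1)) : X.diff r x b = (X.resC x + X.gysC x) b := by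
  rw [diff_apply]
  by_cases hc : InColumn (r + 1) b
  · exact X.cut_of hc _
  · rw [X.cut_of_not hc]
    have h1 : ¬ |r + 1| ≤ (b : ℤ) := fun h => hc ⟨h, hpar⟩
    have h2 : r ≤ -1 := by tauto
    have h3 : |r + 1| = -(r + 1) := abs_of_nonpos (by omega)
    have h4 : |r| = -r := abs_of_nonpos (by omega)
    symm
    rw [Pi.add_apply, gysC_apply]
    have hg : x (b + 1) = 0 := by
      apply X.eq_zero_of_not_col hx
      rintro ⟨h5, -⟩
      rw [h4] at h5
      rw [h3] at h1
      push_cast at h5
      omega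
    have hr : X.resC x b = 0 := by
      cases b with
      | zero => rfl
      | succ b =>
        rw [resC_succ]
        have : x b = 0 := by
          apply X.eq_zero_of_not_col hx
          rintro ⟨h5, -⟩
          rw [h4] at h5
          rw [h3] at h1
          push_cast at h1
          omega
        rw [this, map_zero]
    rw [hg, hr, map_zero, add_zero]

lemma diff_diff {r w : ℤ} {x : X.C} (hx : x ∈ X.E₁ r w) : X.diff (r + 1) (X.diff r x) = 0 := by
  funext a
  rw [diff_apply]
  by_cases hc : InColumn (r + 1 + 1) a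
  · rw [X.cut_of hc]
    obtain ⟨hc1, hc2⟩ := hc
    have e1 : X.diff r x (a + 1) = (X.resC x + X.gysC x) (a + 1) := by
      apply X.cut_diff_apply hx
      · push_cast; omega
      · left
        have h1 : |r + 1| ≤ |r + 1 + 1| + 1 := by
          have := abs_add_le (r + 1 + 1) (-1)
          rw [show r + 1 + 1 + -1 = r + 1 by ring] at this
          simpa using this
        push_cast
        omega
    cases a with
    | zero =>
      rw [Pi.add_apply, gysC_apply, e1]
      simp only [resC_zero, zero_add, Pi.add_apply, resC_succ, gysC_apply, map_add, gys_gys,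
        add_zero]
      have h0 : x 0 = 0 := by
        apply X.eq_zero_of_not_col hx
        rintro ⟨h5, -⟩
        have h6 : |r + 1 + 1| ≤ 0 := by exact_mod_cast hc1
        have h7 := abs_le.1 h6
        have h8 : |r| ≤ 0 := by exact_mod_cast h5
        have h9 := abs_le.1 h8
        omega
      rw [h0, map_zero, map_zero]
      rfl
    | succ b =>
      have e2 : X.diff r x b = (X.resC x + X.gysC x) b := by
        apply X.cut_diff_apply hx
        · push_cast at hc2; omega
        · by_cases hr : r ≤ -1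
          · exact Or.inr hr
          · left
            have h1 : |r + 1| = r + 1 := abs_of_nonneg (by omega)
            have h2 : |r + 1 + 1| = r + 1 + 1 := abs_of_nonneg (by omega)
            rw [h2] at hc1
            rw [h1]
            push_cast at hc1
            omega
      have h := X.sq_apply x b
      rw [Pi.add_apply, resC_succ, gysC_apply] at h ⊢
      rw [e1, e2]
      exact h
  · rw [X.cut_of_not hc]
    rfl

lemma diff_out {i w : ℤ} (hi : 1 ≤ i) {x : X.C} (h : X.diff (-i) x = 0) :
    X.diff i x = 0 := by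
  funext a
  have ha := congrFun h a
  rw [diff_apply] at ha ⊢
  by_cases hc : InColumn (i + 1) a
  · have hc' : InColumn (-i + 1) a := by
      obtain ⟨h1, h2⟩ := hc
      refine ⟨?_, by omega⟩
      rw [abs_of_nonneg (show (0 : ℤ) ≤ i + 1 by omega)] at h1
      rw [abs_of_nonpos (show -i + 1 ≤ (0 : ℤ) by omega)]
      omega
    rw [X.cut_of hc'] at ha
    rw [X.cut_of hc]
    exact ha
  · rw [X.cut_of_not hc]
    rfl

lemma E₁_incl {i w : ℤ} (hi : 1 ≤ i) {x : X.C} (hx : x ∈ X.E₁ (i + 1) w) :
    x ∈ X.E₁ (i - 1) (w + 2) := by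
  intro a
  refine ⟨?_, fun h => ?_⟩
  · have := (hx a).1
    rwa [show w + 2 + (i - 1) - a = w + (i + 1) - a by ring]
  · apply (hx a).2
    rintro ⟨h1, h2⟩
    apply h
    refine ⟨?_, by omega⟩
    rw [abs_of_nonneg (show (0 : ℤ) ≤ i + 1 by omega)] at h1
    rw [abs_of_nonneg (show (0 : ℤ) ≤ i - 1 by omega)]
    omega

/-! ### The Lefschetz operator -/

lemma lefC_mem {r w : ℤ} {x : X.C} (hx : x ∈ X.E₁ r w) : X.lefC x ∈ X.E₁ r (w + 2) := by
  intro a
  rw [lefC_apply]
  refine ⟨?_, fun h => by rw [(hx a).2 h, map_zero]⟩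
  have := X.lef_gr a _ _ (hx a).1
  rwa [show w + 2 + r - a = w + r - a + 2 by ring]

lemma lefC_pow_apply (s : ℕ) (x : X.C) (a : ℕ) : (X.lefC ^ s) x a = (X.lef a ^ s) (x a) := by
  induction s generalizing x with
  | zero => rfl
  | succ s ih =>
    rw [pow_succ, Module.End.mul_apply, ih, lefC_apply, pow_succ, Module.End.mul_apply]

lemma resC_lefC (x : X.C) : X.resC (X.lefC x) = X.lefC (X.resC x) := by
  funext a
  cases a with
  | zero => simp
  | succ b => simp [X.res_lef]

lemma gysC_lefC (x : X.C) : X.gysC (X.lefC x) = X.lefC (X.gysC x) := by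
  funext a
  simp [X.gys_lef]

lemma cut_lefC (r : ℤ) (x : X.C) : X.cut r (X.lefC x) = X.lefC (X.cut r x) := by
  funext a
  by_cases h : InColumn r a
  · rw [X.cut_of h, lefC_apply, lefC_apply, X.cut_of h]
  · rw [X.cut_of_not h, lefC_apply, X.cut_of_not h, map_zero]

lemma diff_lefC (r : ℤ) (x : X.C) : X.diff r (X.lefC x) = X.lefC (X.diff r x) := by
  rw [diff_apply, diff_apply, resC_lefC, gysC_lefC, ← map_add, cut_lefC]

lemma lefC_inj {r : ℤ} (s : ℕ) {x : X.C} (hx : x ∈ X.E₁ r (n - s - r))
    (h : (X.lefC ^ s) x = 0) : x = 0 := by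
  funext a
  by_cases hc : InColumn r a
  · have h1 := (hx a).1
    have h2 := congrFun h a
    rw [lefC_pow_apply] at h2
    apply X.lef_inj a s
    · rwa [show (n : ℤ) - s - r + r - a = n - a - s by ring] at h1
    · exact h2
  · rw [(hx a).2 hc]
    rfl

lemma lefC_surj {r : ℤ} (s : ℕ) {y : X.C} (hy : y ∈ X.E₁ r (n + s - r)) :
    ∃ x ∈ X.E₁ r (n - s - r), (X.lefC ^ s) x = y := by
  classical
  have h1 : ∀ a, ∃ x ∈ X.gr a ((n : ℤ) - a - s), (X.lef a ^ s) x = y a := by
    intro a
    apply X.lef_surj
    have := (hy a).1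
    rwa [show (n : ℤ) + s - r + r - a = n - a + s by ring] at this
  choose f hf hf' using h1
  refine ⟨fun a => if InColumn r a then f a else 0, fun a => ?_, ?_⟩
  · by_cases hc : InColumn r a
    · simp only [hc, if_true, not_true_eq_false, IsEmpty.forall_iff, and_true]
      rw [show (n : ℤ) - s - r + r - a = n - a - s by ring]
      exact hf a
    · simp only [hc, if_false, not_false_eq_true, forall_true_left, and_true]
      exact Submodule.zero_mem _
  · funext a
    rw [lefC_pow_apply]
    by_cases hc : InColumn r a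
    · simp only [hc, if_true]
      exact hf' a
    · simp only [hc, if_false, map_zero]
      rw [(hy a).2 hc]

/-! ### The duality -/

/-- The sum of the Poincare pairings. -/
noncomputable def psi : X.C →ₗ[Ω] X.C →ₗ[Ω] Ω :=
  ∑ a ∈ Finset.range (n + 1),
    (X.pair a).compl₁₂ (LinearMap.proj a) (LinearMap.proj a)

lemma psi_apply (x y : X.C) : X.psi x y = ∑ a ∈ Finset.range (n + 1), X.pair a (x a) (y a) := by
  unfold psi
  simp [LinearMap.sum_apply]

lemma psi_cut (r : ℤ) (x y : X.C) (hy : ∀ a, ¬ InColumn r a → y a = 0) :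
    X.psi (X.cut r x) y = X.psi x y := by
  rw [psi_apply, psi_apply]
  apply Finset.sum_congr rfl
  intro a _
  by_cases h : InColumn r a
  · rw [X.cut_of h]
  · rw [hy a h, map_zero, map_zero]

lemma psi_cut' (r : ℤ) (x y : X.C) (hx : ∀ a, ¬ InColumn r a → x a = 0) :
    X.psi x (X.cut r y) = X.psi x y := by
  rw [psi_apply, psi_apply]
  apply Finset.sum_congr rfl
  intro a _
  by_cases h : InColumn r a
  · rw [X.cut_of h]
  · rw [hx a h, map_zero, LinearMap.zero_apply, LinearMap.zero_apply]

lemma psi_resC (x y : X.C) : X.psi (X.resC x) y = X.psi x (X.gysC y) := by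
  rw [psi_apply, psi_apply, Finset.sum_range_succ', Finset.sum_range_succ]
  simp only [resC_succ, resC_zero, map_zero, LinearMap.zero_apply, add_zero, gysC_apply]
  have h : X.gys n (y (n + 1)) = 0 := by
    rw [X.eq_zero_of_lt (Nat.lt_succ_self n) (y (n + 1)), map_zero]
  rw [h, map_zero, add_zero]
  apply Finset.sum_congr rfl
  intro a _
  exact X.pair_res _ _ _

lemma psi_gysC (x y : X.C) : X.psi (X.gysC x) y = X.psi x (X.resC y) := by
  rw [psi_apply, psi_apply, Finset.sum_range_succ, Finset.sum_range_succ' (fun a =>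
    X.pair a (x a) (X.resC y a))]
  simp only [resC_succ, resC_zero, map_zero, add_zero, gysC_apply]
  have h : X.gys n (x (n + 1)) = 0 := by
    rw [X.eq_zero_of_lt (Nat.lt_succ_self n) (x (n + 1)), map_zero]
  rw [h, map_zero, LinearMap.zero_apply, add_zero]
  apply Finset.sum_congr rfl
  intro a _
  exact X.pair_gys _ _ _

lemma psi_diff {r w w' : ℤ} {x y : X.C} (hx : x ∈ X.E₁ r w) (hy : y ∈ X.E₁ (-r - 1) w') :
    X.psi (X.diff r x) y = X.psi x (X.diff (-r - 1) y) := by
  rw [diff_apply, diff_apply, show -r - 1 + 1 = -r by ring, cut_neg, X.psi_cut, X.psi_cut',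
    map_add, LinearMap.add_apply, map_add, psi_resC, psi_gysC, add_comm]
  · exact fun a h => (hx a).2 h
  · intro a h
    apply (hy a).2
    intro h'
    apply h
    rw [show -r - 1 = -(r + 1) by ring] at h'
    exact (inColumn_neg _ _).1 h'

lemma psi_lefC (x y : X.C) : X.psi (X.lefC x) y = X.psi x (X.lefC y) := by
  rw [psi_apply, psi_apply]
  apply Finset.sum_congr rfl
  intro a _
  exact X.lef_pair _ _ _

lemma single_mem {r w : ℤ} {a : ℕ} (hc : InColumn r a) {z : X.H a} (hz : z ∈ X.gr a (w + r - a)) :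
    (Pi.single a z : X.C) ∈ X.E₁ r w := by
  intro b
  by_cases h : b = a
  · subst h
    rw [Pi.single_eq_same]
    exact ⟨hz, fun h => absurd hc h⟩
  · rw [Pi.single_eq_of_ne h]
    exact ⟨Submodule.zero_mem _, fun _ => rfl⟩

lemma psi_single (x : X.C) {a : ℕ} (ha : a ≤ n) (z : X.H a) :
    X.psi x (Pi.single a z) = X.pair a (x a) z := by
  rw [psi_apply, Finset.sum_eq_single a]
  · rw [Pi.single_eq_same]
  · intro b _ hb
    rw [Pi.single_eq_of_ne hb, map_zero]
  · intro h
    exact absurd (Finset.mem_range.2 (Nat.lt_succ_of_le ha)) h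

lemma single_psi (x : X.C) {a : ℕ} (ha : a ≤ n) (z : X.H a) :
    X.psi (Pi.single a z) x = X.pair a z (x a) := by
  rw [psi_apply, Finset.sum_eq_single a]
  · rw [Pi.single_eq_same]
  · intro b _ hb
    rw [Pi.single_eq_of_ne hb, map_zero, LinearMap.zero_apply]
  · intro h
    exact absurd (Finset.mem_range.2 (Nat.lt_succ_of_le ha)) h

/-- Poincare duality on the `E_1` term. -/
lemma psi_perf (r w : ℤ) : Perf X.psi (X.E₁ r w) (X.E₁ (-r) (2 * n - w)) := by
  constructor
  · intro x hx h
    funext a
    by_cases ha : a ≤ n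
    · by_cases hc : InColumn r a
      · apply X.pair_nondeg
        intro y
        refine X.gr_induction (P := fun y => X.pair a (x a) y = 0) (by simp)
          (fun x y hx hy => by rw [map_add, hx, hy, add_zero]) (fun m y hy => ?_) y
        by_cases hm : w + r - a + m = 2 * ((n : ℤ) - a)
        · rw [← X.psi_single x ha]
          apply h
          apply X.single_mem ((inColumn_neg _ _).2 hc)
          rwa [show 2 * (n : ℤ) - w + -r - a = m by omega]
        · exact X.pair_gr a _ _ _ _ (hx a).1 hy hm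
      · exact (hx a).2 hc
    · exact X.eq_zero_of_lt (by omega) _
  · intro y hy h
    funext a
    by_cases ha : a ≤ n
    · by_cases hc : InColumn (-r) a
      · apply X.pair_nondeg'
        intro x
        refine X.gr_induction (P := fun x => X.pair a x (y a) = 0) (by simp)
          (fun x y hx hy => by rw [map_add, LinearMap.add_apply, hx, hy, add_zero])
          (fun m x hx => ?_) x
        by_cases hm : m + (2 * n - w + -r - a) = 2 * ((n : ℤ) - a)
        · rw [← X.single_psi y ha]
          apply h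
          apply X.single_mem ((inColumn_neg _ _).1 hc)
          rwa [show w + r - (a : ℤ) = m by omega]
        · exact X.pair_gr a _ _ _ _ hx (hy a).1 hm
      · exact (hy a).2 hc
    · exact X.eq_zero_of_lt (by omega) _

/-! ### The symmetries -/

lemma actC_comm (r : ℤ) (g h : Γ) : Commute (X.actC r g) (X.actC r h) := by
  apply LinearMap.ext
  intro x
  funext a
  rw [Module.End.mul_apply, Module.End.mul_apply, actC_apply, actC_apply, actC_apply, actC_apply,
    map_smul, map_smul, X.act_comm, smul_comm]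

lemma actC_mem {r w : ℤ} (g : Γ) {x : X.C} (hx : x ∈ X.E₁ r w) : X.actC r g x ∈ X.E₁ r w := by
  intro a
  rw [actC_apply]
  exact ⟨Submodule.smul_mem _ _ (X.act_gr _ _ _ _ (hx a).1),
    fun h => by rw [(hx a).2 h, map_zero, smul_zero]⟩

lemma actC_shift (r k : ℤ) (g : Γ) (x : X.C) :
    X.actC (r - 2 * k) g x = ((X.cyc g ^ k : Ωˣ) : Ω) • X.actC r g x := by
  funext a
  rw [Pi.smul_apply, actC_apply, actC_apply, smul_smul, ← Units.val_mul, ← zpow_add]
  congr 3
  omega

lemma cut_actC (r s : ℤ) (g : Γ) (x : X.C) : X.cut s (X.actC r g x) = X.actC r g (X.cut s x) := by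
  funext a
  by_cases h : InColumn s a
  · rw [X.cut_of h, actC_apply, actC_apply, X.cut_of h]
  · rw [X.cut_of_not h, actC_apply, X.cut_of_not h, map_zero, smul_zero]

lemma resC_actC (r : ℤ) (g : Γ) (x : X.C) :
    X.actC (r + 1) g (X.resC x) = X.resC (X.actC r g x) := by
  funext a
  cases a with
  | zero => simp [actC_apply]
  | succ b =>
    rw [actC_apply, resC_succ, resC_succ, actC_apply, map_smul, X.res_act]
    congr 3
    push_cast
    congr 1
    ring

lemma gysC_actC (r : ℤ) (g : Γ) (x : X.C) :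
    X.actC (r + 1) g (X.gysC x) = X.gysC (X.actC r g x) := by
  funext a
  rw [actC_apply, gysC_apply, gysC_apply, actC_apply, map_smul, X.gys_act, smul_smul,
    ← Units.val_mul, ← zpow_add_one]
  congr 3
  push_cast
  omega

lemma diff_actC (r : ℤ) (g : Γ) (x : X.C) :
    X.actC (r + 1) g (X.diff r x) = X.diff r (X.actC r g x) := by
  rw [diff_apply, diff_apply, ← cut_actC, map_add, resC_actC, gysC_actC]

lemma lefC_actC (r : ℤ) (g : Γ) (x : X.C) :
    X.actC r g (X.lefC x) = (X.cyc g : Ω) • X.lefC (X.actC r g x) := by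
  funext a
  rw [actC_apply, lefC_apply, X.lef_act, Pi.smul_apply, lefC_apply, actC_apply, map_smul,
    smul_comm]

lemma psi_actC {r : ℤ} (g : Γ) (x y : X.C) (hx : ∀ a, ¬ InColumn r a → x a = 0) :
    X.psi (X.actC r g x) y =
      ((X.cyc g ^ (n : ℤ) : Ωˣ) : Ω) * X.psi x (X.actC (-r) (X.tr g) y) := by
  rw [psi_apply, psi_apply, Finset.mul_sum]
  apply Finset.sum_congr rfl
  intro a _
  by_cases h : InColumn r a
  · rw [actC_apply, actC_apply, map_smul, map_smul, LinearMap.smul_apply, smul_eq_mul, smul_eq_mul,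
      X.act_pair, ← mul_assoc, ← mul_assoc, ← Units.val_mul, ← Units.val_mul, ← zpow_add,
      X.cyc_tr, inv_zpow', ← zpow_add]
    congr 3
    obtain ⟨-, h2⟩ := h
    omega
  · rw [actC_apply, hx a h, map_zero, smul_zero, map_zero, LinearMap.zero_apply,
      LinearMap.zero_apply, mul_zero]

end SpecialFibre

end Pool.Agent.Y143
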