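import Pool.Agent.Y143.Induct

/-!
# The main theorem on pairs of Lefschetz complexes, in a range of degrees
-/

namespace Pool.Agent.Y143

open Module Submodule

variable {Ω : Type*} [Field Ω] {C : Type*} [AddCommGroup C] [Module Ω C]
variable {ψ : C →ₗ[Ω] C →ₗ[Ω] Ω} {d : ℤ → Module.End Ω C} {L : Module.End Ω C}
  {G G' : ℤ → ℤ → Submodule Ω C}

/-- The three ways in which the primitive part can be rigid. -/
def Triv (d : ℤ → Module.End Ω C) (L : Module.End Ω C) (G : ℤ → ℤ → Submodule Ω C) (i : ℤ)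
    (m : ℕ) : Prop :=
  Zp d L G i m = ⊥ ∨ Pr L G i m ≤ Zc d G (-i) (-m) ∨ Pr L G i m ≤ Bd d G i (-m)

/-- The condition at a critical place: both primitive parts are rigid, or injectivity is known. -/
def Crit (d : ℤ → Module.End Ω C) (L : Module.End Ω C) (G G' : ℤ → ℤ → Submodule Ω C) (i : ℤ)
    (m : ℕ) : Prop :=
  (Triv d L G i m ∧ Triv d L G' i m) ∨ (NInj d G i (-m) ∧ NInj d G' i (-m))

lemma zp_le_pr (d : ℤ → Module.End Ω C) (L : Module.End Ω C) {G : ℤ → ℤ → Submodule Ω C}
    (hG : LefComplex d L G) (i : ℤ) (m : ℕ) : Zp d L G i m ≤ Pr L G i m := by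
  rintro x ⟨hx1, hx2⟩
  refine ⟨?_, hx2⟩
  have := hx1.1.1
  rwa [hG.neg] at this

variable [FiniteDimensional Ω C]

/-- Multiplicity one gives rigidity. -/
lemma triv_of_finrank (hG : LefComplex d L G) (i : ℤ) (m : ℕ)
    (h : finrank Ω (Pr L G i m) ≤ 1) : Triv d L G i m := by
  by_cases h0 : Zp d L G i m = ⊥
  · exact Or.inl h0
  · right; left
    have h1 : 0 < finrank Ω (Zp d L G i m) := by
      rw [Module.finrank_pos_iff]
      exact Submodule.nontrivial_iff_ne_bot.2 h0
    have h2 : Zp d L G i m = Pr L G i m :=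
      Submodule.eq_of_le_of_finrank_le (zp_le_pr d L hG i m) (by omega)
    rw [← h2]
    exact fun x hx => hx.1.1

omit [FiniteDimensional Ω C] in
lemma triv_of_bd (i : ℤ) (m : ℕ)
    (h : Bd d G i (-m) = ⊥) : Triv d L G i m := by
  left
  unfold Zp
  rw [h]
  simp

namespace LefDual

/-- The critical part of `G'` is zero if the primitive part of `G` consists of cocycles in the
column `-i`, or of coboundaries in the column `i`. -/
lemma zp_eq_bot' (h : LefDual ψ d L G G') (hG : LefComplex d L G) (hG' : LefComplex d L G')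
    (i : ℤ) (m : ℕ) (hP : Pr L G i m ≤ Zc d G (-i) (-m) ∨ Pr L G i m ≤ Bd d G i (-m)) :
    Zp d L G' i m = ⊥ := by
  rw [eq_bot_iff]
  intro x' hx'
  have hx1 : x' ∈ G' (-i) (-m) := hx'.1.1.1
  have hx2 : (L ^ m) x' ∈ G' (-i) (-(-(m : ℤ))) :=
    LefComplex.mem_cast _ _ _ _ rfl (by ring) (hG'.Lpow_mem m hx1)
  have key : (L ^ m) x' = 0 := by
    apply (h.perf i (-m)).right _ hx2
    intro x hx
    obtain ⟨p, hp, w, hw, rfl⟩ := hG.prim_decomp i m hx
    rw [map_add, LinearMap.add_apply]
    have e1 : ψ p ((L ^ m) x') = 0 := by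
      rcases hP with hP | hP
      · exact h.isotropy hG hG' i m (hP hp) hx'.1.2
      · -- `p` is a coboundary in the column `i`, `x'` a cocycle in the column `-i`
        obtain ⟨y, hy, rfl⟩ := hP hp
        have hy2 : (L ^ m) x' ∈ G' (-(i - 1) - 1) (-(-(m : ℤ) - 1) - 1) :=
          LefComplex.mem_cast _ _ _ _ (by ring) (by ring) (hG'.Lpow_mem m hx1)
        rw [h.adj_d _ _ y _ hy hy2, show -(i - 1) - 1 = -i by ring, hG'.dLpow,
          show d (-i) x' = 0 from hx'.1.1.2, map_zero, map_zero]
    have e2 : ψ (L w) ((L ^ m) x') = 0 := by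
      rw [h.adj_L i (-m - 2) w _ hw (LefComplex.mem_cast _ _ _ _ rfl (by ring) hx2),
        ← Module.End.mul_apply L (L ^ m) x', ← pow_succ', show (L ^ (m + 1)) x' = 0 from hx'.2,
        map_zero]
    rw [e1, e2, add_zero]
  exact hG'.lefInj (-i) m x' hx1 key

lemma core' (h : LefDual ψ d L G G') (hG : LefComplex d L G) (hG' : LefComplex d L G')
    (i : ℤ) (hi : 1 ≤ i) (m : ℕ) (hI' : NInj d G' i ((m : ℤ) + 2))
    (hr : rk d G (i - 1) (-m - 1) = rk d G' (i - 1) (-m - 1))
    (hr2 : rk d G i (-m - 2) = rk d G' i (-m - 2))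
    (hP : Pr L G i m ≤ Zc d G (-i) (-m) ∨ Pr L G i m ≤ Bd d G i (-m)) :
    Good2 d G G' i (-m) := by
  have hZ' : Zp d L G' i m = ⊥ := h.zp_eq_bot' hG hG' i m hP
  have hinj' : NInj d G' i (-m) := hG'.nInj_of_Zp i hi m hI' hZ'
  have a1 := hG'.hh_le_of_nInj i hi _ hinj'
  have a3 := h.hh_neg hG hG' i (-m)
  have a4 := h.flip.hh_neg hG' hG i (-m)
  have hd : ∀ p ∈ Pr L G i m, d i p = 0 := by
    intro p hp
    rcases hP with hP | hP
    · exact (hG.zc_neg_le i hi _ (hP hp)).2
    · exact (hG.bd_le _ _ (hP hp)).2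
  have b1 := hG.rk_of_prim i m hd
  have b2 := hG'.rk_ge i m
  have b3 := h.kk_eq hG' i (-m)
  have b4 := hh_eq d G i (-m)
  have b5 := hh_eq d G' i (-m)
  have e : hh d G i (-m) = hh d G' i (-m) := by omega
  have hsurj' : NSurj d G' i (-m) := hG'.nSurj_of_hh i hi _ hinj' (by omega)
  have hsurjpos : NSurj d G' i m := hG'.nSurj_pos i hi m hsurj'
  have hinj : NInj d G i (-m) := by
    apply h.nInj_of_nSurj hG hG'
    rwa [neg_neg]
  exact ⟨hinj, hG.nSurj_of_hh i hi _ hinj (by omega), hinj', hsurj', e⟩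

lemma core2' (h : LefDual ψ d L G G') (hG : LefComplex d L G) (hG' : LefComplex d L G')
    (i : ℤ) (hi : 1 ≤ i) (m : ℕ) (hI : NInj d G i ((m : ℤ) + 2))
    (hI' : NInj d G' i ((m : ℤ) + 2))
    (hr : rk d G (i - 1) (-m - 1) = rk d G' (i - 1) (-m - 1))
    (hr2 : rk d G i (-m - 2) = rk d G' i (-m - 2))
    (hT : Crit d L G G' i m) : Good2 d G G' i (-m) := by
  rcases hT with ⟨hT, hT'⟩ | ⟨hN, hN'⟩
  · rcases hT with hT | hT
    · rcases hT' with hT' | hT'
      · exact h.good_of_inj hG hG' i hi _ (hG.nInj_of_Zp i hi m hI hT)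
          (hG'.nInj_of_Zp i hi m hI' hT')
      · exact (h.flip.core' hG' hG i hi m hI hr.symm hr2.symm hT').flip
    · exact h.core' hG hG' i hi m hI' hr hr2 hT
  · exact h.good_of_inj hG hG' i hi _ hN hN'

lemma step' (h : LefDual ψ d L G G') (hG : LefComplex d L G) (hG' : LefComplex d L G')
    (j0 : ℤ) (hj0 : j0 ≤ 0)
    (hT : ∀ i : ℤ, 1 ≤ i → ∀ m : ℕ, -(m : ℤ) ≤ j0 → Crit d L G G' i m)
    (i j : ℤ) (hj : j ≤ j0) (ih : ∀ i' j' : ℤ, j' ≤ j0 → j' - i' < j - i → Diag d G G' i' j')
    (ih2 : Diag d G G' (i - 1) (j - 1)) : Diag d G G' i j := by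
  have k1 := h.kk_eq hG' i j
  have k2 := hh_eq d G i j
  have k3 := hh_eq d G' i j
  have k4 := ih2.rk
  rcases lt_trichotomy i 0 with hi | hi | hi
  · -- negative column
    have a1 := ih (-i) j hj (by omega)
    have a2 := ih (-i - 1) (j - 1) (by omega) (by omega)
    have b1 := h.kk_eq hG' (-i) j
    have b2 := hh_eq d G (-i) j
    have b3 := hh_eq d G' (-i) j
    have c1 := h.hh_neg hG hG' (-i) j
    have c2 := h.flip.hh_neg hG' hG (-i) j
    rw [neg_neg] at c1 c2
    have d1 := a1.rk
    have d2 := a2.rk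
    exact ⟨by omega, fun h => by omega⟩
  · subst hi
    have c1 := h.hh_neg hG hG' 0 j
    rw [neg_zero] at c1
    exact ⟨by omega, fun h => by omega⟩
  · have hg : Good2 d G G' i j := by
      obtain ⟨m, hm⟩ := Int.eq_ofNat_of_zero_le (show 0 ≤ -j by omega)
      obtain rfl : j = -m := by omega
      have g2 := (ih i (-((m + 2 : ℕ) : ℤ)) (by push_cast; omega) (by push_cast; omega)).good hi
      have g3 := h.good_pos hG hG' i hi _ g2
      have g4 := (ih i (-m - 2) (by omega) (by omega)).rk
      have hm2 : ((m + 2 : ℕ) : ℤ) = (m : ℤ) + 2 := by push_cast; ring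
      have hI : NInj d G i ((m : ℤ) + 2) := by rw [← hm2]; exact g3.inj
      have hI' : NInj d G' i ((m : ℤ) + 2) := by rw [← hm2]; exact g3.inj'
      exact h.core2' hG hG' i hi m hI hI' k4 g4 (hT i hi m hj)
    exact ⟨by have := hg.hh; omega, fun _ => hg⟩

/-- **Main theorem**, in the range `j ≤ j0`. -/
theorem main_le (h : LefDual ψ d L G G') (hG : LefComplex d L G) (hG' : LefComplex d L G')
    (j0 : ℤ) (hj0 : j0 ≤ 0)
    (hT : ∀ i : ℤ, 1 ≤ i → ∀ m : ℕ, -(m : ℤ) ≤ j0 → Crit d L G G' i m)
    (i j : ℤ) (hj : j ≤ j0) : Diag d G G' i j := by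
  obtain ⟨B, hB0, hB⟩ := hG.bdd
  obtain ⟨B', hB0', hB'⟩ := hG'.bdd
  have key : ∀ N : ℕ, ∀ i j : ℤ, j ≤ j0 → j - i < -2 * (B + B') + N → Diag d G G' i j := by
    intro N
    induction N with
    | zero =>
      intro i j _ hij
      have hb : ∀ i j : ℤ, j - i < -2 * (B + B') → G i j = ⊥ ∧ G' i j = ⊥ := by
        intro i j hij
        have habs : B + B' < |i| ∨ B + B' < |j| := by
          by_contra hcon
          push Not at hcon
          obtain ⟨h1, h2⟩ := hcon
          have h3 := abs_le.1 h1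
          have h4 := abs_le.1 h2
          omega
        constructor
        · apply hB
          rcases habs with h1 | h1
          · left; omega
          · right; omega
        · apply hB'
          rcases habs with h1 | h1
          · left; omega
          · right; omega
      have hij' : j - i < -2 * (B + B') := by simpa using hij
      obtain ⟨g1, g2⟩ := hb i j hij'
      obtain ⟨g3, g4⟩ := hb (i - 1) (j - 1) (by omega)
      have z1 : Zc d G i j = ⊥ := by unfold Zc; rw [g1]; simp
      have z2 : Zc d G' i j = ⊥ := by unfold Zc; rw [g2]; simp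
      have z3 : Bd d G i j = ⊥ := by unfold Bd; rw [g3]; simp
      have z4 : Bd d G' i j = ⊥ := by unfold Bd; rw [g4]; simp
      refine ⟨by rw [rk_bot g1, rk_bot g2], fun hi => ?_⟩
      refine h.good_of_inj hG hG' i hi j ?_ ?_
      · unfold NInj; rw [z3]; simp
      · unfold NInj; rw [z4]; simp
    | succ N ihN =>
      intro i j hj hij
      -- inner induction on the column
      have inner : ∀ M : ℕ, ∀ i' j' : ℤ, j' ≤ j0 → j' - i' = j - i → i' < -(B + B') + M →
          Diag d G G' i' j' := by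
        intro M
        induction M with
        | zero =>
          intro i' j' _ hd hi'
          have hlt : i' < -(B + B') := by simpa using hi'
          have habs : B + B' < |i'| := by
            rw [abs_of_nonpos (by omega)]
            omega
          have habs2 : B + B' < |i' - 1| := by
            rw [abs_of_nonpos (by omega)]
            omega
          have g1 : G i' j' = ⊥ := hB _ _ (Or.inl (by omega))
          have g2 : G' i' j' = ⊥ := hB' _ _ (Or.inl (by omega))
          exact ⟨by rw [rk_bot g1, rk_bot g2], fun h => by omega⟩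
        | succ M ihM =>
          intro i' j' hj' hd hi'
          apply h.step' hG hG' j0 hj0 hT i' j' hj'
          · intro i'' j'' hj'' hlt
            apply ihN _ _ hj''
            push_cast at hij
            omega
          · apply ihM
            · omega
            · omega
            · push_cast at hi'
              omega
      exact inner (i + (B + B') + 1).toNat i j hj rfl (by omega)
  exact key (j - i + 2 * (B + B') + 1).toNat i j hj (by omega)

end LefDual

end Pool.Agent.Y143
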