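import Pool.Agent.Y143.SymDual
import Pool.Agent.Y143.Induct2

/-!
# Injectivity of the monodromy, class by class
-/

namespace Pool.Agent.Y143

open Module Submodule

variable {Ω : Type*} [Field Ω] {C : Type*} [AddCommGroup C] [Module Ω C] {Γ : Type*}
  {d : ℤ → Module.End Ω C} {L : Module.End Ω C} {G : ℤ → ℤ → Submodule Ω C}
  {T : ℤ → Γ → Module.End Ω C} {c : Γ → Ω}

namespace Sym

variable [IsAlgClosed Ω] [FiniteDimensional Ω C]

lemma prj_neg (h : Sym d L G T c) (i : ℤ) (μ : Γ → Ω) (x : C) :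
    prj (T (-i)) (h.comm (-i)) (fun g => c g ^ i * μ g) x = prj (T i) (h.comm i) μ x := by
  have := prj_equiv (h.comm i) (h.comm (-i)) (c := fun g => c g ^ i)
    (fun g => zpow_ne_zero _ (h.cne g)) (1 : Module.End Ω C)
    (fun g x => by
      have := h.shift i i g x
      rw [show i - 2 * i = -i by ring] at this
      simpa using this) μ x
  simpa using this

lemma exists_chr (h : Sym d L G T c) (n p i j : ℤ) (μ : Γ → Ω) :
    ∃ χ : Γ → Ω, chr c χ n p i j = μ := by
  refine ⟨fun g => c g ^ (-(ex n p i j)) * μ g, ?_⟩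
  funext g
  unfold chr
  rw [← mul_assoc, ← zpow_add₀ (h.cne g), add_neg_cancel, zpow_zero, one_mul]

/-- Injectivity for all classes implies injectivity. -/
theorem nInj_of_classes (h : Sym d L G T c) (n p i j : ℤ)
    (hcl : ∀ χ : Γ → Ω, (∃ x ∈ Wt (T i) (chr c χ n p i j), x ≠ 0) →
      NInj d (Cl G T c χ n p) i j) : NInj d G i j := by
  intro x hx
  apply mem_of_prj_mem (h.comm i)
  intro μ
  by_cases hμ : prj (T i) (h.comm i) μ x = 0
  · rw [hμ]
    exact Submodule.zero_mem _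
  · obtain ⟨χ, rfl⟩ := h.exists_chr n p i j μ
    have h1 : prj (T i) (h.comm i) (chr c χ n p i j) x ∈ Bd d (Cl G T c χ n p) i j :=
      h.prj_bd χ n p hx.2
    have h2 : prj (T i) (h.comm i) (chr c χ n p i j) x ∈ Zc d (Cl G T c χ n p) (-i) j := by
      have h3 := h.prj_zc χ n p hx.1
      rw [chr_neg h.cne, h.prj_neg] at h3
      exact h3
    exact bd_cl_le (T := T) (c := c) χ n p (-i) j
      (hcl χ ⟨_, prj_mem _ _ _, hμ⟩ ⟨h2, h1⟩)

/-- Membership in the coboundaries is inherited by the classes. -/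
theorem bd_cl_of_bd (h : Sym d L G T c) (n p i j : ℤ) (χ : Γ → Ω) {x : C}
    (hx : x ∈ Cl G T c χ n p i j) (hb : x ∈ Bd d G i j) : x ∈ Bd d (Cl G T c χ n p) i j := by
  have h1 := h.prj_bd χ n p hb
  rwa [prj_of_mem (h.comm i) hx.2] at h1

/-- Injectivity is inherited by the classes. -/
theorem nInj_cl (h : Sym d L G T c) (n p i j : ℤ) (χ : Γ → Ω)
    (hN : NInj d G i j) : NInj d (Cl G T c χ n p) i j := by
  rintro x ⟨hx1, hx2⟩
  exact h.bd_cl_of_bd n p (-i) j χ hx1.1
    (hN ⟨zc_cl_le χ n p (-i) j hx1, bd_cl_le χ n p i j hx2⟩)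

end Sym

end Pool.Agent.Y143
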