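import Pool.Agent.Y143.Pairing

/-!
# Lefschetz complexes in duality: from rigidity of the primitive part to the Lefschetz property
-/

namespace Pool.Agent.Y143

open Module Submodule

variable {Ω : Type*} [Field Ω] {C : Type*} [AddCommGroup C] [Module Ω C]

/-- The cocycles. -/
def Zc (d : ℤ → Module.End Ω C) (G : ℤ → ℤ → Submodule Ω C) (i j : ℤ) : Submodule Ω C :=
  G i j ⊓ LinearMap.ker (d i)

/-- The coboundaries. -/
def Bd (d : ℤ → Module.End Ω C) (G : ℤ → ℤ → Submodule Ω C) (i j : ℤ) : Submodule Ω C :=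
  (G (i - 1) (j - 1)).map (d (i - 1))

/-- Axioms of a Lefschetz complex. -/
structure LefComplex (d : ℤ → Module.End Ω C) (L : Module.End Ω C)
    (G : ℤ → ℤ → Submodule Ω C) : Prop where
  neg : ∀ i j, G (-i) j = G i j
  d_mem : ∀ i j x, x ∈ G i j → d i x ∈ G (i + 1) (j + 1)
  dd : ∀ i j x, x ∈ G i j → d (i + 1) (d i x) = 0
  L_mem : ∀ i j x, x ∈ G i j → L x ∈ G i (j + 2)
  dL : ∀ i x, d i (L x) = L (d i x)
  bdd : ∃ B : ℤ, 0 ≤ B ∧ ∀ i j, (B < |i| ∨ B < |j|) → G i j = ⊥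
  lefInj : ∀ i (m : ℕ) x, x ∈ G i (-m) → (L ^ m) x = 0 → x = 0
  lefSurj : ∀ i (m : ℕ) y, y ∈ G i m → ∃ x ∈ G i (-m), (L ^ m) x = y
  out : ∀ i, 1 ≤ i → ∀ j x, x ∈ G i j → d (-i) x = 0 → d i x = 0
  incl : ∀ i, 1 ≤ i → ∀ j z, z ∈ G (i + 1) j → z ∈ G (i - 1) j
  dneg : ∀ i, d (-i - 1) = d (i - 1)
  hlInj : ∀ i (m : ℕ) x, x ∈ Zc d G i (-m) → (L ^ m) x ∈ Bd d G i m → x ∈ Bd d G i (-m)
  hlSurj : ∀ i (m : ℕ) y, y ∈ Zc d G i m → ∃ x ∈ Zc d G i (-m), y - (L ^ m) x ∈ Bd d G i m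

/-- `N ^ i` is injective on cohomology in bidegree `(-i, j)`. -/
def NInj (d : ℤ → Module.End Ω C) (G : ℤ → ℤ → Submodule Ω C) (i j : ℤ) : Prop :=
  Zc d G (-i) j ⊓ Bd d G i j ≤ Bd d G (-i) j

/-- `N ^ i` is surjective on cohomology in bidegree `(-i, j)`. -/
def NSurj (d : ℤ → Module.End Ω C) (G : ℤ → ℤ → Submodule Ω C) (i j : ℤ) : Prop :=
  Zc d G i j ≤ Zc d G (-i) j ⊔ Bd d G i j

/-- The primitive part. -/
def Pr (L : Module.End Ω C) (G : ℤ → ℤ → Submodule Ω C) (i : ℤ) (m : ℕ) : Submodule Ω C :=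
  G i (-m) ⊓ LinearMap.ker (L ^ (m + 1))

/-- The critical primitive part. -/
def Zp (d : ℤ → Module.End Ω C) (L : Module.End Ω C) (G : ℤ → ℤ → Submodule Ω C) (i : ℤ) (m : ℕ) :
    Submodule Ω C :=
  (Zc d G (-i) (-m) ⊓ Bd d G i (-m)) ⊓ LinearMap.ker (L ^ (m + 1))

namespace LefComplex

variable {d : ℤ → Module.End Ω C} {L : Module.End Ω C} {G : ℤ → ℤ → Submodule Ω C}

lemma mem_cast (i j i' j' : ℤ) (hi : i = i') (hj : j = j') {x : C} (hx : x ∈ G i j) :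
    x ∈ G i' j' := by
  subst hi; subst hj; exact hx

lemma bd_le (h : LefComplex d L G) (i j : ℤ) : Bd d G i j ≤ Zc d G i j := by
  rintro _ ⟨x, hx, rfl⟩
  refine ⟨mem_cast _ _ _ _ (by ring) (by ring) (h.d_mem _ _ _ hx), ?_⟩
  have := h.dd _ _ _ hx
  rw [SetLike.mem_coe, LinearMap.mem_ker]
  rwa [show i - 1 + 1 = i by ring] at this

lemma zc_neg_le (h : LefComplex d L G) (i : ℤ) (hi : 1 ≤ i) (j : ℤ) :
    Zc d G (-i) j ≤ Zc d G i j := by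
  rintro x ⟨h1, h2⟩
  rw [h.neg] at h1
  exact ⟨h1, h.out i hi j x h1 h2⟩

lemma bd_neg_le (h : LefComplex d L G) (i : ℤ) (hi : 1 ≤ i) (j : ℤ) :
    Bd d G (-i) j ≤ Bd d G i j := by
  rintro _ ⟨x, hx, rfl⟩
  refine ⟨x, ?_, by rw [h.dneg]⟩
  apply h.incl i hi
  rw [← h.neg]
  exact mem_cast _ _ _ _ (by ring) rfl hx

lemma bd_le_G (h : LefComplex d L G) (i j : ℤ) : Bd d G i j ≤ G i j :=
  (h.bd_le i j).trans inf_le_left

lemma dLpow (h : LefComplex d L G) (i : ℤ) (m : ℕ) (x : C) :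
    d i ((L ^ m) x) = (L ^ m) (d i x) := by
  induction m with
  | zero => rfl
  | succ m ih => rw [pow_succ', Module.End.mul_apply, h.dL, ih, Module.End.mul_apply]

lemma Lpow_mem (h : LefComplex d L G) {i j : ℤ} (m : ℕ) {x : C} (hx : x ∈ G i j) :
    (L ^ m) x ∈ G i (j + 2 * m) := by
  induction m with
  | zero => simpa using hx
  | succ m ih =>
    rw [pow_succ', Module.End.mul_apply]
    exact mem_cast _ _ _ _ rfl (by push_cast; ring) (h.L_mem _ _ _ ih)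

lemma Lpow_zc (h : LefComplex d L G) {i j : ℤ} (m : ℕ) {x : C} (hx : x ∈ Zc d G i j) :
    (L ^ m) x ∈ Zc d G i (j + 2 * m) := by
  refine ⟨h.Lpow_mem m hx.1, ?_⟩
  rw [SetLike.mem_coe, LinearMap.mem_ker, h.dLpow, show d i x = 0 from hx.2, map_zero]

lemma Lpow_bd (h : LefComplex d L G) {i j : ℤ} (m : ℕ) {x : C} (hx : x ∈ Bd d G i j) :
    (L ^ m) x ∈ Bd d G i (j + 2 * m) := by
  obtain ⟨y, hy, rfl⟩ := hx
  exact ⟨(L ^ m) y, mem_cast _ _ _ _ rfl (by ring) (h.Lpow_mem m hy), h.dLpow _ _ _⟩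

/-- If the injectivity holds in degree `-m`, it holds in degree `m`. -/
lemma nInj_pos (h : LefComplex d L G) (i : ℤ) (hi : 1 ≤ i) (m : ℕ) (hI : NInj d G i (-m)) :
    NInj d G i m := by
  rintro x ⟨hx1, hx2⟩
  obtain ⟨x0, hx0, hb⟩ := h.hlSurj (-i) m x hx1
  have hb' := h.bd_neg_le i hi m hb
  have h1 : (L ^ m) x0 ∈ Bd d G i m := by
    have := Submodule.sub_mem _ hx2 hb'
    simpa using this
  have h2 : x0 ∈ Bd d G i (-m) := h.hlInj i m x0 (h.zc_neg_le i hi _ hx0) h1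
  have h3 : x0 ∈ Bd d G (-i) (-m) := hI ⟨hx0, h2⟩
  have h4 := h.Lpow_bd m h3
  have h5 : (L ^ m) x0 ∈ Bd d G (-i) m := by
    rwa [show (-(m : ℤ) + 2 * m) = m by ring] at h4
  have := Submodule.add_mem _ hb h5
  simpa using this

/-- If the surjectivity holds in degree `-m`, it holds in degree `m`. -/
lemma nSurj_pos (h : LefComplex d L G) (i : ℤ) (hi : 1 ≤ i) (m : ℕ) (hS : NSurj d G i (-m)) :
    NSurj d G i m := by
  intro y hy
  obtain ⟨y0, hy0, hb⟩ := h.hlSurj i m y hy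
  obtain ⟨u, hu, v, hv, huv⟩ := Submodule.mem_sup.1 (hS hy0)
  have h1 := h.Lpow_zc m hu
  have h2 := h.Lpow_bd m hv
  rw [show (-(m : ℤ) + 2 * m) = m by ring] at h1 h2
  refine Submodule.mem_sup.2 ⟨(L ^ m) u, h1, (L ^ m) v + (y - (L ^ m) y0),
    Submodule.add_mem _ h2 hb, ?_⟩
  rw [← huv, map_add]
  abel

/-- Lefschetz reduction: the kernel of `N ^ i` on cohomology is represented by primitive
elements. -/
lemma lred (h : LefComplex d L G) (i : ℤ) (m : ℕ)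
    (hI : NInj d G i ((m : ℤ) + 2)) {x : C} (hx : x ∈ Zc d G (-i) (-m) ⊓ Bd d G i (-m)) :
    ∃ z ∈ Bd d G (-i) (-m), z ∈ Bd d G i (-m) → x - z ∈ Zp d L G i m := by
  have h1 : (L ^ (m + 1)) x ∈ Bd d G (-i) ((m : ℤ) + 2) := by
    apply hI
    refine ⟨?_, ?_⟩
    · have := h.Lpow_zc (m + 1) hx.1
      rwa [show (-(m : ℤ) + 2 * ((m + 1 : ℕ) : ℤ)) = m + 2 by push_cast; ring] at this
    · have := h.Lpow_bd (m + 1) hx.2
      rwa [show (-(m : ℤ) + 2 * ((m + 1 : ℕ) : ℤ)) = m + 2 by push_cast; ring] at this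
  obtain ⟨z, hz, hzx⟩ := h1
  obtain ⟨z', hz', hzz⟩ := h.lefSurj (-i - 1) (m + 1) z
    (mem_cast _ _ _ _ rfl (by push_cast; ring) hz)
  refine ⟨d (-i - 1) z', ⟨z', mem_cast _ _ _ _ rfl (by push_cast; ring) hz', rfl⟩, fun hzb => ?_⟩
  have hzb' : d (-i - 1) z' ∈ Bd d G (-i) (-m) :=
    ⟨z', mem_cast _ _ _ _ rfl (by push_cast; ring) hz', rfl⟩
  refine ⟨⟨Submodule.sub_mem _ hx.1 (h.bd_le _ _ hzb'), Submodule.sub_mem _ hx.2 hzb⟩, ?_⟩
  rw [SetLike.mem_coe, LinearMap.mem_ker, map_sub, ← h.dLpow, hzz, hzx, sub_self]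

lemma lred' (h : LefComplex d L G) (i : ℤ) (hi : 1 ≤ i) (m : ℕ)
    (hI : NInj d G i ((m : ℤ) + 2)) {x : C} (hx : x ∈ Zc d G (-i) (-m) ⊓ Bd d G i (-m)) :
    ∃ z ∈ Bd d G (-i) (-m), x - z ∈ Zp d L G i m := by
  obtain ⟨z, hz, hz'⟩ := h.lred i m hI hx
  exact ⟨z, hz, hz' (h.bd_neg_le i hi _ hz)⟩

lemma nInj_of_Zp (h : LefComplex d L G) (i : ℤ) (hi : 1 ≤ i) (m : ℕ)
    (hI : NInj d G i ((m : ℤ) + 2)) (hZ : Zp d L G i m = ⊥) : NInj d G i (-m) := by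
  intro x hx
  obtain ⟨z, hz, hz'⟩ := h.lred' i hi m hI hx
  rw [hZ, Submodule.mem_bot, sub_eq_zero] at hz'
  rw [hz']
  exact hz

/-- The primitive decomposition. -/
lemma prim_decomp (h : LefComplex d L G) (i : ℤ) (m : ℕ) {x : C} (hx : x ∈ G i (-m)) :
    ∃ p ∈ Pr L G i m, ∃ w ∈ G i (-m - 2), x = p + L w := by
  have h1 : (L ^ (m + 1)) x ∈ G i ((m + 2 : ℕ) : ℤ) :=
    mem_cast _ _ _ _ rfl (by push_cast; ring) (h.Lpow_mem (m + 1) hx)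
  obtain ⟨w, hw, hw'⟩ := h.lefSurj i (m + 2) _ h1
  have hw2 : w ∈ G i (-m - 2) := mem_cast _ _ _ _ rfl (by push_cast; ring) hw
  have hLw : L w ∈ G i (-m) := mem_cast _ _ _ _ rfl (by ring) (h.L_mem _ _ _ hw2)
  refine ⟨x - L w, ⟨Submodule.sub_mem _ hx hLw, ?_⟩, w, hw2, by abel⟩
  rw [SetLike.mem_coe, LinearMap.mem_ker, map_sub, ← Module.End.mul_apply (L ^ (m + 1)) L w, ← pow_succ, hw', sub_self]

end LefComplex

end Pool.Agent.Y143
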