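import Pool.Agent.Y143.Defs

/-!
# Divisor classes on the strata
-/

namespace Pool.Agent.Y143

universe u v

open Module

section Variety

variable {Ω : Type u} [Field Ω] {H : Type v} [AddCommGroup H] [Module Ω H] {H' : Type v}
  [AddCommGroup H'] [Module Ω H']

/-- `A` is the group generated by the classes of the irreducible components in `H^0` of a smooth
projective variety of pure dimension `d`: a finitely generated group spanning `H^0` on which the
degree pairing `B(x, L^d y)` is integral and positive. -/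
structure IsComponentGroup (gr : ℤ → Submodule Ω H) (d : ℕ) (B : H →ₗ[Ω] H →ₗ[Ω] Ω)
    (L : Module.End Ω H) (A : AddSubgroup H) : Prop where
  fg : A.FG
  le : ∀ x ∈ A, x ∈ gr 0
  span : gr 0 ≤ Submodule.span Ω (A : Set H)
  int : ∀ x ∈ A, ∀ y ∈ A, ∃ k : ℤ, ev B x (pw L d y) = k
  pos : ∀ x ∈ A, x ≠ 0 → ∃ k : ℤ, 0 < k ∧ ev B x (pw L d x) = k

/-- `A` is the group of the classes of divisors in `H^2` of a smooth projective variety of dimension
`d`: a finitely generated group on which the intersection pairing `B(x, L^(d - 2) y)` is integral and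
satisfies the Hodge index theorem. -/
structure IsDivisorGroup (gr : ℤ → Submodule Ω H) (d : ℕ) (B : H →ₗ[Ω] H →ₗ[Ω] Ω)
    (L : Module.End Ω H) (A : AddSubgroup H) : Prop where
  fg : A.FG
  le : ∀ x ∈ A, x ∈ gr 2
  int : ∀ x ∈ A, ∀ y ∈ A, ∃ k : ℤ, ev B x (pw L (d - 2) y) = k
  hodge_index : ∀ x ∈ A, pw L (d - 1) x = 0 → x ≠ 0 →
    ∃ k : ℤ, k < 0 ∧ ev B x (pw L (d - 2) x) = k

/-- The restriction `ρ` maps classes of components (divisors) to classes of components (divisors),
the Gysin map `τ` and the Lefschetz operator `L` map classes of components to divisor classes. -/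
structure PreservesClasses (A₀ A₁ : AddSubgroup H) (A₀' A₁' : AddSubgroup H')
    (L : Module.End Ω H) (ρ : H →ₗ[Ω] H') (τ : H' →ₗ[Ω] H) : Prop where
  res_A0 : ∀ x ∈ A₀, ρ x ∈ A₀'
  res_A1 : ∀ x ∈ A₁, ρ x ∈ A₁'
  gys_A0 : ∀ x ∈ A₀', τ x ∈ A₁
  lef_A0 : ∀ x ∈ A₀, L x ∈ A₁

/-- The form `B(x, L^s y)` is nondegenerate on the image of `H^1` under the restriction `ρ`. -/
def NondegOnImage (gr : ℤ → Submodule Ω H) (B : H' →ₗ[Ω] H' →ₗ[Ω] Ω) (L : Module.End Ω H') (s : ℕ)
    (ρ : H →ₗ[Ω] H') : Prop :=
  ∀ x ∈ gr 1, (∀ y ∈ gr 1, ev B (ρ x) (pw L s (ρ y)) = 0) → ρ x = 0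

end Variety

variable {Ω : Type u} [Field Ω] [CharZero Ω] {Γ : Type} {n q : ℕ}

/-- The classes of components and of divisors on the strata `Y^(a+1)`, of dimension `d = n - a`,
with their well-known positivity properties: `A0 a` is the group generated by the classes of the
irreducible components of `Y^(a+1)` in `H^0(Y^(a+1))` and `A1 a` is the group of the classes of
divisors in `H^2(Y^(a+1))`. The last axiom is Weil's theorem: the form on `H^1` given by the
polarization of the Picard variety is nondegenerate on the image of a homomorphism. -/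
structure DivisorClasses (X : SpecialFibre.{u, v} Ω Γ n q) where
  A0 : ∀ a, AddSubgroup (X.H a)
  A1 : ∀ a, AddSubgroup (X.H a)
  components : ∀ a, IsComponentGroup (X.gr a) (n - a) (X.pair a) (X.lef a) (A0 a)
  divisors : ∀ a, IsDivisorGroup (X.gr a) (n - a) (X.pair a) (X.lef a) (A1 a)
  preserves : ∀ a, PreservesClasses (A0 a) (A1 a) (A0 (a + 1)) (A1 (a + 1)) (X.lef a) (X.res a)
    (X.gys a)
  weil_one' : ∀ a, NondegOnImage (X.gr a) (X.pair (a + 1)) (X.lef (a + 1)) (n - a - 2) (X.res a)

end Pool.Agent.Y143
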