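import Pool.Agent.Y143.Sym

/-!
# Duality of the classes
-/

namespace Pool.Agent.Y143

open Module Submodule

variable {Ω : Type*} [Field Ω] {C : Type*} [AddCommGroup C] [Module Ω C] {Γ : Type*}

/-- Orthogonality of generalized eigenspaces. -/
lemma orth_genEigen {ψ : C →ₗ[Ω] C →ₗ[Ω] Ω} {A A' : Submodule Ω C} {S S' : Module.End Ω C}
    {κ μ ν : Ω} (hS : ∀ x ∈ A, S x ∈ A) (hS' : ∀ y ∈ A', S' y ∈ A')
    (hψ : ∀ x ∈ A, ∀ y ∈ A', ψ (S x) y = κ * ψ x (S' y)) (hne : μ ≠ κ * ν) :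
    ∀ k l : ℕ, ∀ x ∈ A, ∀ y ∈ A', ((S - μ • (1 : Module.End Ω C)) ^ k) x = 0 →
      ((S' - ν • (1 : Module.End Ω C)) ^ l) y = 0 → ψ x y = 0 := by
  have key : ∀ N k l : ℕ, k + l ≤ N → ∀ x ∈ A, ∀ y ∈ A',
      ((S - μ • (1 : Module.End Ω C)) ^ k) x = 0 →
      ((S' - ν • (1 : Module.End Ω C)) ^ l) y = 0 → ψ x y = 0 := by
    intro N
    induction N with
    | zero =>
      intro k l hkl x _ y _ hx _
      have hk : k = 0 := by omega
      subst hk
      have : x = 0 := by simpa using hx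
      rw [this, map_zero, LinearMap.zero_apply]
    | succ N ih =>
      intro k l hkl x hxA y hyA hx hy
      cases k with
      | zero =>
        have : x = 0 := by simpa using hx
        rw [this, map_zero, LinearMap.zero_apply]
      | succ k =>
        cases l with
        | zero =>
          have : y = 0 := by simpa using hy
          rw [this, map_zero]
        | succ l =>
          set x1 := (S - μ • (1 : Module.End Ω C)) x with hx1
          set y1 := (S' - ν • (1 : Module.End Ω C)) y with hy1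
          have ex : S x = x1 + μ • x := by
            rw [hx1]; simp
          have ey : S' y = y1 + ν • y := by
            rw [hy1]; simp
          have hx1A : x1 ∈ A := by
            rw [hx1]
            simp only [LinearMap.sub_apply, LinearMap.smul_apply, Module.End.one_apply]
            exact A.sub_mem (hS x hxA) (A.smul_mem _ hxA)
          have hy1A : y1 ∈ A' := by
            rw [hy1]
            simp only [LinearMap.sub_apply, LinearMap.smul_apply, Module.End.one_apply]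
            exact A'.sub_mem (hS' y hyA) (A'.smul_mem _ hyA)
          have hx1' : ((S - μ • (1 : Module.End Ω C)) ^ k) x1 = 0 := by
            rw [hx1, ← Module.End.mul_apply, ← pow_succ]
            exact hx
          have hy1' : ((S' - ν • (1 : Module.End Ω C)) ^ l) y1 = 0 := by
            rw [hy1, ← Module.End.mul_apply, ← pow_succ]
            exact hy
          have e2 := ih k (l + 1) (by omega) x1 hx1A y hyA hx1' hy
          have e3 := ih (k + 1) l (by omega) x hxA y1 hy1A hx hy1'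
          have e := hψ x hxA y hyA
          rw [ex, ey] at e
          simp only [map_add, map_smul, LinearMap.add_apply, LinearMap.smul_apply, e2, e3,
            smul_eq_mul, zero_add] at e
          have e' : (μ - κ * ν) * ψ x y = 0 := by
            rw [sub_mul, e]; ring
          rcases mul_eq_zero.1 e' with h | h
          · exact absurd (sub_eq_zero.1 h) hne
          · exact h
  intro k l
  exact key (k + l) k l le_rfl

lemma orth_Wt {ψ : C →ₗ[Ω] C →ₗ[Ω] Ω} {A A' : Submodule Ω C} {T T' : Γ → Module.End Ω C}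
    {tr : Γ → Γ} {κ μ ν : Γ → Ω} (hS : ∀ g, ∀ x ∈ A, T g x ∈ A)
    (hS' : ∀ g, ∀ y ∈ A', T' g y ∈ A')
    (hψ : ∀ g, ∀ x ∈ A, ∀ y ∈ A', ψ (T g x) y = κ g * ψ x (T' (tr g) y))
    (hne : μ ≠ fun g => κ g * ν (tr g)) {x y : C} (hx : x ∈ A) (hy : y ∈ A') (hxμ : x ∈ Wt T μ)
    (hyν : y ∈ Wt T' ν) : ψ x y = 0 := by
  obtain ⟨g, hg⟩ := Function.ne_iff.1 hne
  obtain ⟨k, hk⟩ := mem_Wt.1 hxμ g
  obtain ⟨l, hl⟩ := mem_Wt.1 hyν (tr g)
  exact orth_genEigen (hS g) (hS' (tr g)) (hψ g) hg k l x hx y hy hk hl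

variable [IsAlgClosed Ω] [FiniteDimensional Ω C]

lemma perf_Wt {ψ : C →ₗ[Ω] C →ₗ[Ω] Ω} {A A' : Submodule Ω C} {T T' : Γ → Module.End Ω C}
    (hT : ∀ g h, Commute (T g) (T h)) (hT' : ∀ g h, Commute (T' g) (T' h))
    {tr : Γ → Γ} (htr : ∀ g, tr (tr g) = g)
    {κ μ ν : Γ → Ω} (hS : ∀ g, ∀ x ∈ A, T g x ∈ A) (hS' : ∀ g, ∀ y ∈ A', T' g y ∈ A')
    (hψ : ∀ g, ∀ x ∈ A, ∀ y ∈ A', ψ (T g x) y = κ g * ψ x (T' (tr g) y))
    (hμν : ∀ g, μ g = κ g * ν (tr g)) (hκ : ∀ g, κ g ≠ 0) (h : Perf ψ A A') :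
    Perf ψ (A ⊓ Wt T μ) (A' ⊓ Wt T' ν) := by
  constructor
  · intro x hx h0
    apply h.left x hx.1
    intro y hy
    suffices hh : y ∈ A' ⊓ LinearMap.ker (ψ x) from hh.2
    apply mem_of_prj_mem hT'
    intro ν'
    have hy' := prj_stable hT' (fun g y hy => hS' g y hy) ν' hy
    refine ⟨hy', ?_⟩
    by_cases he : ν' = ν
    · subst he
      exact h0 _ ⟨hy', prj_mem _ _ _⟩
    · apply orth_Wt hS hS' hψ (μ := μ) (ν := ν') _ hx.1 hy' hx.2 (prj_mem _ _ _)
      intro hc
      apply he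
      funext g
      have h1 := congrFun hc (tr g)
      rw [hμν (tr g)] at h1
      have h2 := mul_left_cancel₀ (hκ (tr g)) h1
      rw [htr] at h2
      exact h2.symm
  · intro y hy h0
    apply h.right y hy.1
    intro x hx
    suffices hh : x ∈ A ⊓ LinearMap.ker (ψ.flip y) from hh.2
    apply mem_of_prj_mem hT
    intro μ'
    have hx' := prj_stable hT (fun g y hy => hS g y hy) μ' hx
    refine ⟨hx', ?_⟩
    by_cases he : μ' = μ
    · subst he
      exact h0 _ ⟨hx', prj_mem _ _ _⟩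
    · apply orth_Wt hS hS' hψ (μ := μ') (ν := ν) _ hx' hy.1 (prj_mem _ _ _) hy.2
      intro hc
      apply he
      rw [hc]
      funext g
      exact (hμν g).symm

/-- The dual class. -/
theorem Sym.cl_dual {ψ : C →ₗ[Ω] C →ₗ[Ω] Ω} {d : ℤ → Module.End Ω C} {L : Module.End Ω C}
    {G : ℤ → ℤ → Submodule Ω C} {T : ℤ → Γ → Module.End Ω C} {c : Γ → Ω}
    (h : Sym d L G T c) (hψ : LefDual ψ d L G G) (n p : ℤ)
    {tr : Γ → Γ} (htr : ∀ g, tr (tr g) = g) (hctr : ∀ g, c (tr g) = (c g)⁻¹)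
    (hinv : ∀ i j g x y, x ∈ G i j → y ∈ G (-i) (-j) →
      ψ (T i g x) y = c g ^ n * ψ x (T (-i) (tr g) y))
    (χ : Γ → Ω) :
    LefDual ψ d L (Cl G T c χ n p) (Cl G T c (fun g => c g * χ (tr g)) n (1 - p)) where
  perf i j := by
    refine perf_Wt (κ := fun g => c g ^ n) (h.comm i) (h.comm (-i)) htr
      (fun g x hx => h.stab _ _ _ _ hx)
      (fun g x hx => h.stab _ _ _ _ hx) (fun g x hx y hy => hinv i j g x y hx hy) ?_
      (fun g => zpow_ne_zero _ (h.cne g)) (hψ.perf i j)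
    intro g
    unfold chr
    have h1 : (fun g => c g * χ (tr g)) (tr g) = (c g)⁻¹ * χ g := by
      show c (tr g) * χ (tr (tr g)) = _
      rw [hctr, htr]
    have h2 : c g ^ ex n p i j = c g ^ n * (c g ^ ex n (1 - p) (-i) (-j))⁻¹ * (c g)⁻¹ := by
      rw [← zpow_neg, ← zpow_add₀ (h.cne g), ← zpow_sub_one₀ (h.cne g)]
      congr 1
      have := ex_dual n p i j
      omega
    rw [hctr, h1, h2, inv_zpow]
    ring
  adj_d i j x y hx hy := hψ.adj_d i j x y hx.1 hy.1
  adj_L i j x y hx hy := hψ.adj_L i j x y hx.1 hy.1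

end Pool.Agent.Y143
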