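import Pool.Agent.Y143.Basic2
import Pool.Agent.Y143.SymDual

/-!
# The weight spectral sequence as a self-dual Lefschetz complex with symmetries
-/

namespace Pool.Agent.Y143

universe u v

open Module

variable {Ω : Type u} [Field Ω] [CharZero Ω] {Γ : Type} {n q : ℕ}

namespace SpecialFibre

variable (X : SpecialFibre.{u, v} Ω Γ n q)

/-- The `E_1` term in the coordinates column `i` and Lefschetz degree `j`. -/
def tot : ℤ → ℤ → Submodule Ω X.C := fun i j => X.E₁ i (n + j - i)

/-- The cyclotomic character. -/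
def cyc' : Γ → Ω := fun g => (X.cyc g : Ω)

lemma cyc'_ne (g : Γ) : X.cyc' g ≠ 0 := Units.ne_zero _

lemma mem_E₁_cast {r w r' w' : ℤ} (hr : r = r') (hw : w = w') {x : X.C} (hx : x ∈ X.E₁ r w) :
    x ∈ X.E₁ r' w' := by subst hr; subst hw; exact hx

lemma tot_bdd (i j : ℤ) (h : (n : ℤ) < |i| ∨ (n : ℤ) < |j|) : X.tot i j = ⊥ := by
  rw [eq_bot_iff]
  intro x hx
  rw [Submodule.mem_bot]
  funext a
  by_cases hc : InColumn i a
  · rcases h with h | h
    · apply X.eq_zero_of_lt
      have := hc.1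
      omega
    · have h1 := (hx a).1
      have h2 : X.gr a ((n : ℤ) + j - i + i - a) = ⊥ := by
        apply X.gr_eq_bot
        rcases lt_or_ge j 0 with hj | hj
        · rw [abs_of_neg hj] at h
          left; omega
        · rw [abs_of_nonneg hj] at h
          right; omega
      rw [h2] at h1
      exact h1
  · exact (hx a).2 hc

lemma zc_eq (i j : ℤ) : Zc X.diff X.tot i j = X.cocycles i (n + j - i) := rfl

lemma bd_eq (i j : ℤ) : Bd X.diff X.tot i j = X.coboundaries i (n + j - i) := by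
  unfold Bd StrataData.coboundaries tot
  rw [show (n : ℤ) + (j - 1) - (i - 1) = n + j - i by ring]

theorem lefDual : LefDual X.psi X.diff X.lefC X.tot X.tot where
  perf i j := by
    have := X.psi_perf i (n + j - i)
    unfold tot
    rwa [show 2 * (n : ℤ) - (n + j - i) = n + -j - -i by ring] at this
  adj_d i j x y hx hy := X.psi_diff hx hy
  adj_L i j x y _ _ := X.psi_lefC x y

theorem sym : Sym X.diff X.lefC X.tot X.actC X.cyc' where
  comm i g h := X.actC_comm i g h
  stab i j g x hx := X.actC_mem g hx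
  shift i k g x := by
    rw [X.actC_shift]
    unfold cyc'
    rw [Units.val_zpow_eq_zpow_val]
  dT i g x := X.diff_actC i g x
  LT i g x := X.lefC_actC i g x
  cne := X.cyc'_ne

lemma cyc'_tr (g : Γ) : X.cyc' (X.tr g) = (X.cyc' g)⁻¹ := by
  unfold cyc'
  rw [X.cyc_tr, Units.val_inv_eq_inv_val]

lemma psi_inv (i j : ℤ) (g : Γ) (x y : X.C) (hx : x ∈ X.tot i j) :
    X.psi (X.actC i g x) y = X.cyc' g ^ (n : ℤ) * X.psi x (X.actC (-i) (X.tr g) y) := by
  rw [X.psi_actC g x y (fun a h => (hx a).2 h), Units.val_zpow_eq_zpow_val]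
  rfl

/-- The class of `χ`. -/
def cls (χ : Γ → Ω) (p : ℤ) : ℤ → ℤ → Submodule Ω X.C := Cl X.tot X.actC X.cyc' χ n p

/-- The dual character. -/
def dualChar (χ : Γ → Ω) : Γ → Ω := fun g => X.cyc' g * χ (X.tr g)

theorem cls_dual [IsAlgClosed Ω] (p : ℤ) (χ : Γ → Ω) :
    LefDual X.psi X.diff X.lefC (X.cls χ p) (X.cls (X.dualChar χ) (1 - p)) :=
  X.sym.cl_dual X.lefDual n p X.tr_tr X.cyc'_tr (fun i j g x y hx _ => X.psi_inv i j g x y hx) χ

end SpecialFibre

namespace Degeneration

variable (X : Degeneration.{u, v} Ω Γ n q)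

theorem lefComplex : LefComplex X.diff X.lefC X.tot where
  neg i j := by
    unfold SpecialFibre.tot
    have := X.E₁_neg i (n + j - i)
    rwa [show (n : ℤ) + j - i + 2 * i = n + j - -i by ring] at this
  d_mem i j x hx := X.mem_E₁_cast rfl (by ring) (X.diff_mem hx)
  dd i j x hx := X.diff_diff hx
  L_mem i j x hx := X.mem_E₁_cast rfl (by ring) (X.lefC_mem hx)
  dL i x := X.diff_lefC i x
  bdd := ⟨n, by positivity, fun i j h => X.tot_bdd i j h⟩
  lefInj i m x hx h := X.lefC_inj m (X.mem_E₁_cast rfl (by ring) hx) h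
  lefSurj i m y hy := by
    obtain ⟨x, hx, h⟩ := X.lefC_surj (r := i) m (y := y) (X.mem_E₁_cast rfl (by ring) hy)
    exact ⟨x, X.mem_E₁_cast rfl (by ring) hx, h⟩
  out i hi j x _ h := X.diff_out (w := 0) hi h
  incl i hi j z hz := X.mem_E₁_cast rfl (by ring) (X.E₁_incl hi hz)
  dneg i := X.diff_neg i
  hlInj i m x hx h := by
    rw [X.zc_eq] at hx
    rw [X.bd_eq] at h ⊢
    rw [show (n : ℤ) + -m - i = n - m - i by ring] at hx ⊢
    exact X.lefschetz_inj i m x hx h
  hlSurj i m y hy := by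
    rw [X.zc_eq] at hy ⊢
    rw [X.bd_eq]
    rw [show (n : ℤ) + -m - i = n - m - i by ring]
    exact X.lefschetz_surj i m y hy

theorem cls_lefComplex [IsAlgClosed Ω] (χ : Γ → Ω) (p : ℤ) :
    LefComplex X.diff X.lefC (X.cls χ p) := X.sym.cl X.lefComplex χ n p

end Degeneration

end Pool.Agent.Y143
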