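import Pool.Agent.Y143.KeyOmega
import Pool.Agent.Y143.Family

/-!
# Injectivity of the monodromy in the weights at most two
-/

namespace Pool.Agent.Y143

universe u v

open Module

variable {Ω : Type u} [Field Ω] [CharZero Ω] {Γ : Type} {n q : ℕ}

lemma gr_zero_of_mem_neg (X : SpecialFibre.{u, v} Ω Γ n q) {a : ℕ} {m : ℤ} (hm : m < 0)
    {x : X.H a} (hx : x ∈ X.gr a m) : x = 0 := by
  rw [X.gr_eq_bot a m (Or.inl hm)] at hx
  exact hx

namespace SpecialFibre

variable (X : SpecialFibre.{u, v} Ω Γ n q)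

lemma diff_at (a : ℕ) (y : X.C) (b : ℕ) (hb : InColumn ((a : ℤ) + 1) (b + 1)) :
    X.diff a y (b + 1) = X.res b (y b) + X.gys (b + 1) (y (b + 2)) := by
  rw [diff_apply, X.cut_of hb]
  rfl

lemma low_gys (a : ℕ) {y : X.C} (hx : X.diff (-((a : ℤ) + 1)) (X.diff a y) = 0) :
    X.gys a (X.res a (y a)) = 0 := by
  have h := congrFun hx a
  rw [diff_apply] at h
  have hc : InColumn (-((a : ℤ) + 1) + 1) a := by
    refine ⟨?_, by omega⟩
    rw [show -((a : ℤ) + 1) + 1 = -a by ring, abs_neg, abs_of_nonneg (by positivity)]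
  rw [X.cut_of hc, Pi.add_apply, gysC_apply, Pi.zero_apply] at h
  have h1 : X.resC (X.diff a y) a = 0 := by
    cases a with
    | zero => rfl
    | succ b =>
      rw [resC_succ, diff_apply, X.cut_of_not, map_zero]
      rintro ⟨h1, -⟩
      rw [abs_of_nonneg (by positivity)] at h1
      push_cast at h1
      omega
  have hc2 : InColumn ((a : ℤ) + 1) (a + 1) := by
    refine ⟨?_, by push_cast; omega⟩
    rw [abs_of_nonneg (by positivity)]
    push_cast
    exact le_rfl
  rw [h1, zero_add, X.diff_at a y a hc2, map_add, X.gys_gys, add_zero] at h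
  exact h

lemma low_bd (a : ℕ) {w : ℤ} (hw : w ≤ 2) {y : X.C} (hy : y ∈ X.E₁ a w) {u : X.H (a + 2)}
    (hu : u ∈ X.gr (a + 2) (w - 2)) (hu1 : X.res a (y a) = X.gys (a + 1) u)
    (hu2 : X.res (a + 2) u = 0) :
    ∃ z ∈ X.E₁ (-((a : ℤ) + 1) - 1) (w + 2 * (a + 1)), X.diff (-((a : ℤ) + 1) - 1) z =
      X.diff a y := by
  classical
  refine ⟨Pi.single (a + 2) (y (a + 2) + u), ?_, ?_⟩
  · apply X.single_mem
    · refine ⟨?_, by push_cast; omega⟩
      rw [abs_of_nonpos (by omega)]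
      push_cast
      omega
    · have h1 := (hy (a + 2)).1
      have e1 : w + 2 * ((a : ℤ) + 1) + (-((a : ℤ) + 1) - 1) - ((a + 2 : ℕ) : ℤ) = w - 2 := by
        push_cast; ring
      have e2 : w + (a : ℤ) - ((a + 2 : ℕ) : ℤ) = w - 2 := by push_cast; ring
      rw [e1]
      rw [e2] at h1
      exact Submodule.add_mem _ h1 hu
  · funext b
    rw [diff_apply, diff_apply]
    have hcc : InColumn (-((a : ℤ) + 1) - 1 + 1) b ↔ InColumn ((a : ℤ) + 1) b := by
      rw [show -((a : ℤ) + 1) - 1 + 1 = -((a : ℤ) + 1) by ring]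
      exact inColumn_neg _ _
    by_cases hc : InColumn ((a : ℤ) + 1) b
    · rw [X.cut_of hc, X.cut_of (hcc.2 hc)]
      obtain ⟨hc1, hc2⟩ := hc
      rw [abs_of_nonneg (by positivity)] at hc1
      obtain ⟨b, rfl⟩ : ∃ b', b = b' + 1 := ⟨b - 1, by omega⟩
      rw [Pi.add_apply, Pi.add_apply, resC_succ, resC_succ, gysC_apply, gysC_apply]
      push_cast at hc1 hc2
      rcases Nat.lt_or_ge b (a + 1) with h1 | h1
      · -- `b = a`
        obtain rfl : b = a := by omega
        rw [Pi.single_eq_of_ne (show b ≠ b + 2 by omega), Pi.single_eq_same, map_zero, zero_add,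
          map_add, hu1]
        exact add_comm _ _
      · rcases Nat.lt_or_ge b (a + 3) with h2 | h2
        · obtain rfl : b = a + 2 := by omega
          have h4 : y (a + 2 + 1 + 1) = 0 := by
            apply gr_zero_of_mem_neg X _ (hy (a + 2 + 1 + 1)).1
            push_cast
            omega
          rw [Pi.single_eq_same, Pi.single_eq_of_ne (show a + 2 + 1 + 1 ≠ a + 2 by omega), h4,
            map_add, hu2, map_zero, add_zero, add_zero]
        · have h4 : y (b + 1 + 1) = 0 := by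
            apply gr_zero_of_mem_neg X _ (hy (b + 1 + 1)).1
            push_cast
            omega
          have h5 : y b = 0 := by
            apply gr_zero_of_mem_neg X _ (hy b).1
            omega
          rw [Pi.single_eq_of_ne (show b ≠ a + 2 by omega),
            Pi.single_eq_of_ne (show b + 1 + 1 ≠ a + 2 by omega), h4, h5]
    · rw [X.cut_of_not hc, X.cut_of_not (fun h => hc (hcc.1 h))]

/-- The form in which the injectivity of the monodromy is verified. -/
lemma nInj_low (a : ℕ) (j : ℤ) (hw : (n : ℤ) + j - (a + 1) ≤ 2) {x : X.C}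
    (hx : x ∈ Zc X.diff X.tot (-((a : ℤ) + 1)) j) {y : X.C} (hy : y ∈ X.tot a (j - 1))
    (hyx : X.diff a y = x)
    (hkey : X.gys a (X.res a (y a)) = 0 → ∃ u ∈ X.gr (a + 2) ((n : ℤ) + j - (a + 1) - 2),
      X.res a (y a) = X.gys (a + 1) u ∧ X.res (a + 2) u = 0) :
    x ∈ Bd X.diff X.tot (-((a : ℤ) + 1)) j := by
  have h1 : X.gys a (X.res a (y a)) = 0 := by
    apply X.low_gys
    rw [hyx]
    exact hx.2
  obtain ⟨u, hu, hu1, hu2⟩ := hkey h1
  have hy' : y ∈ X.E₁ a ((n : ℤ) + j - (a + 1)) := X.mem_E₁_cast rfl (by ring) hy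
  obtain ⟨z, hz, hz'⟩ := X.low_bd a hw hy' hu hu1 hu2
  exact ⟨z, X.mem_E₁_cast rfl (by ring) hz, by rw [hz', hyx]⟩

end SpecialFibre

namespace DivisorClasses

variable {X : SpecialFibre.{u, v} Ω Γ n q} (A : DivisorClasses X)

include A

/-- The weights at most one. -/
theorem nInj_one (i : ℤ) (hi : 1 ≤ i) (j : ℤ) (hw : (n : ℤ) + j - i ≤ 1) :
    NInj X.diff X.tot i j := by
  obtain ⟨a, rfl⟩ : ∃ a : ℕ, i = (a : ℤ) + 1 := ⟨(i - 1).toNat, by omega⟩
  rintro x ⟨hx1, ⟨y, hy, hyx⟩⟩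
  rw [show (a : ℤ) + 1 - 1 = a by ring] at hy hyx
  apply X.nInj_low a j (by omega) hx1 hy hyx
  intro h0
  refine ⟨0, Submodule.zero_mem _, ?_, by simp⟩
  rw [map_zero]
  have hya := (hy a).1
  rw [show (n : ℤ) + (j - 1) - a + a - a = n + j - (a + 1) by ring] at hya
  rcases lt_trichotomy ((n : ℤ) + j - (a + 1)) 0 with h | h | h
  · rw [gr_zero_of_mem_neg X h hya, map_zero]
  · rw [h] at hya
    exact A.key0 a hya h0
  · rw [show (n : ℤ) + j - (a + 1) = 1 by omega] at hya
    exact A.key1 a hya h0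

/-- The weight two: injectivity on the combinations of divisor classes. -/
theorem nInj_two (a : ℕ) (ha : a + 3 ≤ n) (j : ℤ) (hw : (n : ℤ) + j - (a + 1) = 2) {x : X.C}
    (hx : x ∈ Zc X.diff X.tot (-((a : ℤ) + 1)) j) {y : X.C} (hy : y ∈ X.tot a (j - 1))
    (hyx : X.diff a y = x) (hdiv : y a ∈ Submodule.span Ω (A.A1 a : Set (X.H a))) :
    x ∈ Bd X.diff X.tot (-((a : ℤ) + 1)) j := by
  apply X.nInj_low a j (by omega) hx hy hyx
  intro h0
  obtain ⟨u, hu, h1, h2⟩ := A.key a ha hdiv h0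
  refine ⟨u, ?_, h1, h2⟩
  rw [hw]
  simpa using hu

end DivisorClasses

end Pool.Agent.Y143
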