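import Pool.Agent.Y143.Family

/-!
# From the `E_2` term to mw purity
-/

namespace Pool.Agent.Y143

universe u v

open Module

variable {Ω : Type u} [Field Ω] [CharZero Ω] {Γ : Type} {n q : ℕ}

/-- Tate twists of Weil numbers. -/
lemma IsWeilNumber.twist {q : ℕ} (hq : q ≠ 0) {w : ℤ} {β : Ω} (h : IsWeilNumber q w β) (k : ℤ) :
    IsWeilNumber q (w + 2 * k) ((q : Ω) ^ k * β) := by
  obtain ⟨h1, h2⟩ := h
  have hqΩ : (q : Ω) ≠ 0 := Nat.cast_ne_zero.2 hq
  have hqC : (q : ℂ) ≠ 0 := Nat.cast_ne_zero.2 hq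
  have hqalg : IsAlgebraic ℚ ((q : Ω) ^ k) := by
    have : ((q : Ω) ^ k) = algebraMap ℚ Ω ((q : ℚ) ^ k) := by
      rw [map_zpow₀, map_natCast]
    rw [this]
    exact isAlgebraic_algebraMap _
  refine ⟨hqalg.mul h1, fun z hz => ?_⟩
  set P := minpoly ℚ β with hP
  set Q : Polynomial ℚ := P.comp (Polynomial.C (((q : ℚ) ^ k)⁻¹) * Polynomial.X) with hQ
  have hQ0 : Polynomial.aeval ((q : Ω) ^ k * β) Q = 0 := by
    rw [hQ, Polynomial.aeval_comp]
    simp only [map_mul, Polynomial.aeval_C, Polynomial.aeval_X, map_inv₀, map_zpow₀, map_natCast]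
    rw [inv_mul_cancel_left₀ (zpow_ne_zero _ hqΩ)]
    exact minpoly.aeval ℚ β
  have hdvd := minpoly.dvd ℚ _ hQ0
  have hQz : Polynomial.aeval z Q = 0 := by
    obtain ⟨R, hR⟩ := hdvd
    rw [hR, map_mul, hz, zero_mul]
  rw [hQ, Polynomial.aeval_comp] at hQz
  simp only [map_mul, Polynomial.aeval_C, Polynomial.aeval_X, map_inv₀, map_zpow₀, map_natCast]
    at hQz
  have h3 := h2 _ hQz
  rw [norm_mul, norm_inv, norm_zpow, Complex.norm_natCast] at h3
  have hqR : (0 : ℝ) < q := Nat.cast_pos.2 (Nat.pos_of_ne_zero hq)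
  have h4 : ‖z‖ = (q : ℝ) ^ k * (q : ℝ) ^ ((w : ℝ) / 2) := by
    rw [← h3, ← mul_assoc, mul_inv_cancel₀ (zpow_ne_zero _ hqR.ne'), one_mul]
  rw [h4, ← Real.rpow_intCast, ← Real.rpow_add hqR]
  congr 1
  push_cast
  ring

/-- An eigenvalue on a subquotient is an eigenvalue. -/
lemma exists_eigen {C : Type*} [AddCommGroup C] [Module Ω C] [FiniteDimensional Ω C]
    {S : Module.End Ω C} {α : Ω} {Z B : Submodule Ω C} (hBZ : B ≤ Z) (hB : ∀ x ∈ B, S x ∈ B)
    {x : C} (hx : x ∈ Z) (hxB : x ∉ B) (h : S x - α • x ∈ B) :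
    ∃ y ∈ Z, y ≠ 0 ∧ S y = α • y := by
  by_contra hcon
  push Not at hcon
  have hinj : ∀ y ∈ B, (S - α • (1 : Module.End Ω C)) y = 0 → y = 0 := by
    intro y hy h0
    by_contra hne
    apply hcon y (hBZ hy) hne
    simpa [sub_eq_zero] using h0
  have hmaps : ∀ y ∈ B, (S - α • (1 : Module.End Ω C)) y ∈ B := by
    intro y hy
    simp only [LinearMap.sub_apply, LinearMap.smul_apply, Module.End.one_apply]
    exact B.sub_mem (hB y hy) (B.smul_mem _ hy)
  let R := (S - α • (1 : Module.End Ω C)).restrict hmaps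
  have hRinj : Function.Injective R := by
    rw [← LinearMap.ker_eq_bot, LinearMap.ker_eq_bot']
    intro y hy
    exact Subtype.ext (hinj y y.2 (congrArg Subtype.val hy))
  obtain ⟨⟨y, hy⟩, hyx⟩ := (LinearMap.injective_iff_surjective.1 hRinj) ⟨_, h⟩
  have hyx' : (S - α • (1 : Module.End Ω C)) y = S x - α • x := congrArg Subtype.val hyx
  have hne : x - y ≠ 0 := by
    intro h0
    rw [sub_eq_zero] at h0
    rw [h0] at hxB
    exact hxB hy
  apply hcon (x - y) (Z.sub_mem hx (hBZ hy)) hne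
  simp only [LinearMap.sub_apply, LinearMap.smul_apply, Module.End.one_apply] at hyx'
  have e : S x = S y - α • y + α • x := by rw [hyx']; abel
  rw [map_sub, smul_sub, e]
  abel

namespace SpecialFibre

variable (X : SpecialFibre.{u, v} Ω Γ n q)

include X in
lemma q_ne : q ≠ 0 := by
  intro h
  have h1 := X.cyc_frob
  have h2 : (q : Ω) = 0 := by rw [h]; simp
  rw [h2] at h1
  exact Units.ne_zero _ h1

/-- The eigenvalues of the Frobenius on `E_1^(r, w)` are Weil numbers of weight `w`. -/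
lemma weil_E₁ {r w : ℤ} {α : Ω} {x : X.C} (hx : x ∈ X.E₁ r w) (hne : x ≠ 0)
    (h : X.actC r X.frob x = α • x) : IsWeilNumber q w α := by
  obtain ⟨b, hb⟩ : ∃ b, x b ≠ 0 := by
    by_contra hcon
    push Not at hcon
    exact hne (funext hcon)
  have hc : InColumn r b := by
    by_contra hc
    exact hb ((hx b).2 hc)
  have h1 := congrFun h b
  rw [actC_apply, Pi.smul_apply, Units.val_zpow_eq_zpow_val, X.cyc_frob] at h1
  set k := ((b : ℤ) - r) / 2 with hk
  have hqΩ : (q : Ω) ≠ 0 := Nat.cast_ne_zero.2 X.q_ne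
  have h2 : X.act b X.frob (x b) = (((q : Ω) ^ k)⁻¹ * α) • x b := by
    rw [mul_smul, ← h1, smul_smul, inv_mul_cancel₀ (zpow_ne_zero _ hqΩ), one_smul]
  have h3 := X.weil b _ _ _ (hx b).1 hb h2
  have h4 := h3.twist X.q_ne k
  rw [← mul_assoc, mul_inv_cancel₀ (zpow_ne_zero _ hqΩ), one_mul] at h4
  obtain ⟨-, hc2⟩ := hc
  rwa [show w + r - (b : ℤ) + 2 * k = w by omega] at h4

lemma actC_bd (r w : ℤ) (g : Γ) {x : X.C} (hx : x ∈ X.coboundaries r w) :
    X.actC r g x ∈ X.coboundaries r w := by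
  obtain ⟨y, hy, rfl⟩ := hx
  refine ⟨X.actC (r - 1) g y, X.actC_mem g hy, ?_⟩
  have := X.diff_actC (r - 1) g y
  rw [show r - 1 + 1 = r by ring] at this
  exact this.symm

lemma bd_le_zc (r w : ℤ) : X.coboundaries r w ≤ X.cocycles r w := by
  rintro _ ⟨y, hy, rfl⟩
  have h1 := X.diff_mem hy
  have h2 := X.diff_diff hy
  rw [show r - 1 + 1 = r by ring] at h1 h2
  exact ⟨h1, h2⟩

lemma cut_id {a : ℕ} {w : ℤ} {x : X.C} (hx : x ∈ X.E₁ (-a) w) {k : ℕ} (hk : k ≤ a) :
    X.cut (-a + 2 * k) x = x := by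
  funext b
  by_cases hc : InColumn (-(a : ℤ) + 2 * k) b
  · rw [X.cut_of hc]
  · rw [X.cut_of_not hc]
    symm
    apply (hx b).2
    rintro ⟨h1, h2⟩
    apply hc
    refine ⟨?_, by omega⟩
    rw [abs_neg, Nat.abs_cast] at h1
    rw [abs_le]
    constructor <;> omega

end SpecialFibre

namespace SemistableModel

variable (X : SemistableModel.{u, v} Ω Γ n q)

lemma W_cast {i : ℕ} {w w' : ℤ} (h : w = w') {v : X.V i} (hv : v ∈ X.W i w) : v ∈ X.W i w' := by
  subst h; exact hv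

lemma sp_cast {i : ℕ} {w w' : ℤ} (h : w = w') {v : X.V i} {x : X.C} (hv : (v, x) ∈ X.sp i w) :
    (v, x) ∈ X.sp i w' := by
  subst h; exact hv

lemma N_pow_sp {m a : ℕ} {v : X.V m} {x : X.C} (h : (v, x) ∈ X.sp m ((m : ℤ) + a)) (k : ℕ)
    (hk : k ≤ a) : ((X.N m ^ k) v, x) ∈ X.sp m ((m : ℤ) + a - 2 * k) := by
  have hx := (X.sp_mem m _ v x h).2.1
  rw [show (m : ℤ) - (m + a) = -a by ring] at hx
  induction k with
  | zero => simpa using h
  | succ k ih =>
    have h1 := X.sp_N m _ _ _ (ih (by omega))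
    rw [← Module.End.mul_apply, ← pow_succ',
      show (m : ℤ) - ((m : ℤ) + a - 2 * k) + 2 = -a + 2 * ((k + 1 : ℕ) : ℤ) by push_cast; ring,
      X.cut_id hx hk] at h1
    exact X.sp_cast (by push_cast; ring) h1

/-- mw purity from the bijectivity of the powers of the monodromy on the `E_2` term. -/
theorem isMWPure_of (m : ℕ)
    (hinj : ∀ a : ℕ, 1 ≤ a → NInj X.diff X.tot a ((m : ℤ) - n))
    (hsurj : ∀ a : ℕ, 1 ≤ a → NSurj X.diff X.tot a ((m : ℤ) - n)) :
    IsMWPure q m (X.actV m X.frob) (X.N m) := by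
  have hbd : ∀ (a : ℤ), Bd X.diff X.tot a ((m : ℤ) - n) = X.coboundaries a (m - a) := by
    intro a
    rw [X.bd_eq]
    congr 1
    ring
  have hzc : ∀ (a : ℤ), Zc X.diff X.tot a ((m : ℤ) - n) = X.cocycles a (m - a) := by
    intro a
    rw [X.zc_eq]
    congr 1
    ring
  refine ⟨fun a => X.W m ((m : ℤ) + a), ⟨fun a b hab => X.W_mono m (by omega), ?_, ?_, ?_, ?_, ?_⟩,
    ?_, ?_⟩
  · obtain ⟨w, hw⟩ := X.W_bot m
    refine ⟨w - m, ?_⟩
    show X.W m ((m : ℤ) + (w - m)) = ⊥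
    rw [show (m : ℤ) + (w - m) = w by ring, hw]
  · obtain ⟨w, hw⟩ := X.W_top m
    refine ⟨w - m, ?_⟩
    show X.W m ((m : ℤ) + (w - m)) = ⊤
    rw [show (m : ℤ) + (w - m) = w by ring, hw]
  · intro a v hv
    obtain ⟨x, hx⟩ := X.sp_left m _ v hv
    exact X.W_cast (by ring) (X.sp_mem m _ _ _ (X.sp_N m _ _ _ hx)).1
  · intro a v hv hN
    obtain ⟨x, hx⟩ := X.sp_left m _ v hv
    rcases Nat.eq_zero_or_pos a with rfl | ha
    · rw [pow_zero] at hN
      exact X.W_cast (by push_cast; ring) hN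
    · have h1 := X.N_pow_sp hx a le_rfl
      have h2 := (X.sp_ker m _ _ _ h1).1 (X.W_cast (by ring) hN)
      have h3 := (X.sp_mem m _ _ _ hx).2
      rw [show (m : ℤ) - ((m : ℤ) + a - 2 * a) = a by ring,
        show (m : ℤ) + a - 2 * a = m - a by ring, ← hbd] at h2
      have h4 : x ∈ Zc X.diff X.tot (-a) ((m : ℤ) - n) := by
        rw [hzc]
        rwa [show (m : ℤ) - (m + a) = -a by ring, show (m : ℤ) + a = m - -a by ring] at h3
      have h5 := hinj a ha ⟨h4, h2⟩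
      rw [hbd] at h5
      have h6 := (X.sp_ker m _ _ _ hx).2 (by
        rwa [show (m : ℤ) - (m + a) = -a by ring, show (m : ℤ) + a = m - -a by ring])
      exact X.W_cast (by ring) h6
  · intro a v hv
    obtain ⟨y, hy⟩ := X.sp_left m _ v hv
    rcases Nat.eq_zero_or_pos a with rfl | ha
    · refine ⟨v, X.W_cast (by push_cast; ring) hv, ?_⟩
      rw [pow_zero, Module.End.one_apply, sub_self]
      exact Submodule.zero_mem _
    · have h1 := (X.sp_mem m _ _ _ hy).2
      rw [show (m : ℤ) - (m + -a) = a by ring, show (m : ℤ) + -a = m - a by ring, ← hzc] at h1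
      obtain ⟨x, hx, b, hb, hxb⟩ := Submodule.mem_sup.1 (hsurj a ha h1)
      rw [hzc] at hx
      obtain ⟨v', hv'⟩ := X.sp_right m ((m : ℤ) + a) x (by
        rwa [show (m : ℤ) - (m + a) = -a by ring, show (m : ℤ) + a = m - -a by ring])
      refine ⟨v', (X.sp_mem m _ _ _ hv').1, ?_⟩
      have h2 := X.N_pow_sp hv' a le_rfl
      have h3 : (v - (X.N m ^ a) v', b) ∈ X.sp m ((m : ℤ) + -a) := by
        have h4 := Submodule.sub_mem _ hy
          (X.sp_cast (show (m : ℤ) + a - 2 * a = m + -a by ring) h2)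
        have h5 : b = y - x := by rw [← hxb]; abel
        rw [h5]
        exact h4
      have h6 := (X.sp_ker m _ _ _ h3).2 (by
        rw [show (m : ℤ) - (m + -a) = a by ring, show (m : ℤ) + -a = m - a by ring, ← hbd]
        exact hb)
      exact X.W_cast (by ring) h6
  · intro a v hv
    obtain ⟨x, hx⟩ := X.sp_left m _ v hv
    exact (X.sp_mem m _ _ _ (X.sp_act m _ v x X.frob hx)).1
  · intro a α v hv hv' hα
    obtain ⟨x, hx⟩ := X.sp_left m _ v hv
    have h1 := (X.sp_mem m _ _ _ hx).2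
    have h2 : x ∉ X.coboundaries (m - (m + a)) (m + a) := by
      intro hc
      exact hv' (X.W_cast (by ring) ((X.sp_ker m _ _ _ hx).2 hc))
    have h3 : (X.actV m X.frob v - α • v, X.actC (m - (m + a)) X.frob x - α • x) ∈
        X.sp m (m + a) := by
      have h4 := Submodule.sub_mem _ (X.sp_act m _ v x X.frob hx) (Submodule.smul_mem _ α hx)
      exact h4
    have h5 : X.actC (m - (m + a)) X.frob x - α • x ∈ X.coboundaries (m - (m + a)) (m + a) :=
      (X.sp_ker m _ _ _ h3).1 (X.W_cast (by ring) hα)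
    obtain ⟨y, hy, hy0, hyα⟩ := exists_eigen (S := X.actC (m - (m + a)) X.frob)
      (X.bd_le_zc _ _) (fun x hx => X.actC_bd _ _ _ hx) h1 h2 h5
    have h6 := X.weil_E₁ hy.1 hy0 hyα
    rwa [show (m : ℤ) + a = a + m by ring] at h6

end SemistableModel

end Pool.Agent.Y143
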