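import Pool.Agent.Y143.SimpleDefs
import Pool.Agent.Y143.LowInj
import Pool.Agent.Y143.Classes
import Pool.Agent.Y143.Pure

/-!
# mw purity for simple classes
-/

namespace Pool.Agent.Y143

universe u v

open Module

variable {Ω : Type u} [Field Ω] [CharZero Ω] {Γ : Type} {n q : ℕ}

lemma ex_low (n i j : ℤ) : ex n 0 i j + ex n 1 i j = n + j - i - 1 := by
  unfold ex; omega

lemma IsTateNumber.dual {α β : Ω} (hq : q ≠ 0) (h : IsTateNumber q α)
    (hαβ : α * β = (q : Ω) ^ 2) : IsTateNumber q β := by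
  obtain ⟨k, hk, hα⟩ := h
  refine ⟨k, hk, ?_⟩
  have h1 : α ^ k * β ^ k = (q : Ω) ^ k * (q : Ω) ^ k := by
    rw [← mul_pow, hαβ, ← pow_mul, ← mul_pow, ← pow_two, ← pow_mul]
  rw [hα] at h1
  exact mul_left_cancel₀ (pow_ne_zero _ (Nat.cast_ne_zero.2 hq)) h1

/-- The generalized eigenvalues of an operator and of its inverse. -/
lemma eigen_inv {C : Type*} [AddCommGroup C] [Module Ω C] {S S' : Module.End Ω C}
    (hSS : ∀ x, S' (S x) = x) {α β : Ω} {x : C} (hx0 : x ≠ 0)
    (hx : ∃ k : ℕ, ((S - α • (1 : Module.End Ω C)) ^ k) x = 0)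
    (hx' : ∃ k : ℕ, ((S' - β • (1 : Module.End Ω C)) ^ k) x = 0) (hc : Commute S S') :
    β * α = 1 := by
  classical
  set R := S - α • (1 : Module.End Ω C) with hR
  set R' := S' - β • (1 : Module.End Ω C) with hR'
  have hcR : Commute R' R := by
    have h1 : Commute S' S := hc.symm
    have h2 : Commute S' R := h1.sub_right ((Commute.one_right _).smul_right _)
    exact h2.sub_left ((Commute.one_left _).smul_left _)
  obtain ⟨k, hk, hmin⟩ : ∃ k : ℕ, (R ^ k) x ≠ 0 ∧ (R ^ (k + 1)) x = 0 := by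
    by_contra hcon
    push Not at hcon
    obtain ⟨k, hk⟩ := hx
    have : ∀ k, (R ^ k) x ≠ 0 := by
      intro k
      induction k with
      | zero => simpa using hx0
      | succ k ih => exact hcon k ih
    exact this k hk
  set e := (R ^ k) x with he
  have he1 : S e = α • e := by
    have h1 : R e = 0 := by
      rw [he, ← Module.End.mul_apply, ← pow_succ']
      exact hmin
    rw [hR] at h1
    simpa [sub_eq_zero] using h1
  obtain ⟨l, hl⟩ := hx'
  have he2 : (R' ^ l) e = 0 := by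
    have h1 : Commute (R' ^ l) (R ^ k) := hcR.pow_pow l k
    have h2 := LinearMap.congr_fun h1.eq x
    rw [Module.End.mul_apply, Module.End.mul_apply, hl, map_zero] at h2
    exact h2
  have he3 : α • S' e = e := by
    have := hSS e
    rwa [he1, map_smul] at this
  have hα : α ≠ 0 := by
    rintro rfl
    rw [zero_smul] at he3
    exact hk he3.symm
  have he4 : R' e = (α⁻¹ - β) • e := by
    rw [hR', LinearMap.sub_apply, LinearMap.smul_apply, Module.End.one_apply, sub_smul]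
    congr 1
    nth_rewrite 2 [← he3]
    rw [smul_smul, inv_mul_cancel₀ hα, one_smul]
  have he5 : ∀ l : ℕ, (R' ^ l) e = (α⁻¹ - β) ^ l • e := by
    intro l
    induction l with
    | zero => simp
    | succ l ih => rw [pow_succ, Module.End.mul_apply, he4, map_smul, ih, smul_smul, pow_succ']
  rw [he5, smul_eq_zero] at he2
  rcases he2 with h | h
  · have h2 : α⁻¹ - β = 0 := by
      by_contra hne
      exact pow_ne_zero l hne h
    have h3 : β = α⁻¹ := (sub_eq_zero.1 h2).symm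
    rw [h3, inv_mul_cancel₀ hα]
  · exact absurd h hk

namespace SpecialFibre

variable (X : SpecialFibre.{u, v} Ω Γ n q)

lemma actC_frob_inv (i : ℤ) (x : X.C) :
    X.actC i (X.tr X.frob) (X.actC i X.frob x) = x := by
  funext a
  rw [actC_apply, actC_apply, map_smul, X.frob_inv, smul_smul, X.cyc_tr, inv_zpow,
    ← Units.val_mul, inv_mul_cancel, Units.val_one, one_smul]

lemma chr_frob_inv (i : ℤ) {μ : Γ → Ω} {x : X.C} (hx : x ∈ Wt (X.actC i) μ) (hx0 : x ≠ 0) :
    μ (X.tr X.frob) * μ X.frob = 1 :=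
  eigen_inv (X.actC_frob_inv i) hx0 (mem_Wt.1 hx _) (mem_Wt.1 hx _) (X.actC_comm i _ _)

lemma actC_pow_at (a k : ℕ) (g : Γ) (α : Ω) (y : X.C) :
    (((X.actC a g - α • (1 : Module.End Ω X.C)) ^ k) y) a =
      ((X.act a g - α • (1 : Module.End Ω (X.H a))) ^ k) (y a) := by
  induction k with
  | zero => rfl
  | succ k ih =>
    rw [pow_succ', pow_succ', Module.End.mul_apply, Module.End.mul_apply, ← ih]
    simp only [LinearMap.sub_apply, LinearMap.smul_apply, Module.End.one_apply, Pi.sub_apply,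
      Pi.smul_apply, actC_apply, sub_self, Int.zero_ediv, zpow_zero, Units.val_one, one_smul]

lemma mem_eigen_of_wt (a : ℕ) {μ : Γ → Ω} {y : X.C} (hy : y ∈ Wt (X.actC a) μ) (g : Γ) :
    y a ∈ (X.act a g).maxGenEigenspace (μ g) := by
  obtain ⟨k, hk⟩ := mem_Wt.1 hy g
  rw [Module.End.mem_maxGenEigenspace]
  refine ⟨k, ?_⟩
  rw [← X.actC_pow_at, hk]
  rfl

lemma cyc'_frob : X.cyc' X.frob = (q : Ω) := X.cyc_frob

/-- The product of the Frobenius eigenvalues of a character and of the dual character. -/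
lemma chr_prod {χ : Γ → Ω} (hχ : χ (X.tr X.frob) * χ X.frob = 1) (i j : ℤ) :
    chr X.cyc' χ n 0 i j X.frob * chr X.cyc' (X.dualChar χ) n 1 i j X.frob =
      (q : Ω) ^ ((n : ℤ) + j - i) := by
  unfold chr dualChar
  rw [X.cyc'_frob]
  have hq : (q : Ω) ≠ 0 := Nat.cast_ne_zero.2 X.q_ne
  have h : (q : Ω) ^ ((n : ℤ) + j - i) =
      (q : Ω) ^ (ex n 0 i j + ex n 1 i j) * q * (χ (X.tr X.frob) * χ X.frob) := by
    rw [ex_low, hχ, ← zpow_add_one₀ hq, mul_one]
    congr 1
    ring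
  rw [h, zpow_add₀ hq]
  ring

end SpecialFibre

namespace DivisorClasses

variable {X : SpecialFibre.{u, v} Ω Γ n q} (A : DivisorClasses X) [IsAlgClosed Ω]

/-- The weight two: injectivity on the Tate classes. -/
theorem nInj_tate (a : ℕ) (ha : a + 3 ≤ n) (hT : A.TateConj a) (j : ℤ)
    (hw : (n : ℤ) + j - (a + 1) = 2) (χ : Γ → Ω) (p : ℤ)
    (hχ : IsTateNumber q (chr X.cyc' χ n p ((a : ℤ) + 1) j X.frob)) :
    NInj X.diff (X.cls χ p) ((a : ℤ) + 1) j := by
  rintro x ⟨hx1, hx2⟩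
  apply X.sym.bd_cl_of_bd n p _ j χ hx1.1
  obtain ⟨y, hy, hyx⟩ := hx2
  have e : chr X.cyc' χ n p ((a : ℤ) + 1) j = chr X.cyc' χ n p a (j - 1) := by
    have := chr_d (c := X.cyc') (χ := χ) n p (a : ℤ) (j - 1)
    rwa [show j - 1 + 1 = j by ring] at this
  have hy1 : y ∈ X.tot a (j - 1) := by
    have := hy.1
    rwa [show (a : ℤ) + 1 - 1 = a by ring] at this
  have hy2 : y ∈ Wt (X.actC a) (chr X.cyc' χ n p a (j - 1)) := by
    have := hy.2
    rwa [show (a : ℤ) + 1 - 1 = a by ring] at this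
  rw [show (a : ℤ) + 1 - 1 = a by ring] at hyx
  refine A.nInj_two a ha j hw (Sym.zc_cl_le (T := X.actC) (c := X.cyc') χ n p _ j hx1) hy1 hyx ?_
  rw [e] at hχ
  apply hT _ hχ
  · have := (hy1 a).1
    rwa [show (n : ℤ) + (j - 1) - a + a - a = 2 by omega] at this
  · exact X.mem_eigen_of_wt a hy2 X.frob

end DivisorClasses

namespace SpecialFibre

variable (X : SpecialFibre.{u, v} Ω Γ n q)

lemma pr_eq (χ : Γ → Ω) (p i : ℤ) (m : ℕ) :
    Pr X.lefC (X.cls χ p) i m = X.primPart i ((n : ℤ) - m - i) (chr X.cyc' χ n p i (-m)) := by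
  unfold Pr SpecialFibre.cls Cl SpecialFibre.primPart SpecialFibre.primitive kerPow SpecialFibre.tot
  rw [show ((n : ℤ) + 1 - i - ((n : ℤ) - m - i)).toNat = m + 1 by omega,
    show (n : ℤ) + -(m : ℤ) - i = (n : ℤ) - m - i by ring]
  ac_rfl

end SpecialFibre

namespace Degeneration

variable (X : Degeneration.{u, v} Ω Γ n q) [IsAlgClosed Ω]

lemma triv_of_simple (χ : Γ → Ω) (p i : ℤ) (m : ℕ)
    (h : X.SimpleAt i ((n : ℤ) - m - i) (chr X.cyc' χ n p i (-m))) :
    Triv X.diff X.lefC (X.cls χ p) i m := by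
  have hcl := X.cls_lefComplex χ p
  have hbd : Bd X.diff X.tot i (-m) = X.coboundaries i ((n : ℤ) - m - i) := by
    rw [X.bd_eq]
    congr 1
  rcases h with h | h | h
  · apply triv_of_finrank hcl
    rwa [X.pr_eq]
  · right; right
    intro x hx
    have hx' := hx
    rw [X.pr_eq] at hx'
    have hb := h hx'
    rw [← hbd] at hb
    exact X.sym.bd_cl_of_bd n p i (-m) χ hx.1 hb
  · left
    rw [eq_bot_iff]
    intro x hx
    have h1 := zp_le_pr X.diff X.lefC hcl i m hx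
    rw [X.pr_eq] at h1
    have h2 : x ∈ X.coboundaries i ((n : ℤ) - m - i) := by
      rw [← hbd]
      exact Sym.bd_cl_le (T := X.actC) (c := X.cyc') χ n p i (-m) hx.1.2
    exact (Submodule.disjoint_def.1 h) x h1 h2

/-- The hypothesis of the theorem in the degree `m`. -/
def Hyp (A : DivisorClasses X.toSpecialFibre) (m : ℕ) : Prop :=
  ∀ i w : ℕ, 1 ≤ i → 2 ≤ w → i + w ≤ m → ∀ χ : Γ → Ω,
    X.SimpleAt i w χ ∨ (w = 2 ∧ IsTateNumber q (χ X.frob) ∧ A.TateConj (i - 1))

lemma crit (A : DivisorClasses X.toSpecialFibre) (m : ℕ) (hm : m ≤ n) (H : X.Hyp A m)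
    {χ : Γ → Ω} (hχ : χ (X.tr X.frob) * χ X.frob = 1) (i : ℤ) (hi : 1 ≤ i)
    (k : ℕ) (hk : -(k : ℤ) ≤ (m : ℤ) - n) :
    Crit X.diff X.lefC (X.cls χ 0) (X.cls (X.dualChar χ) 1) i k := by
  have hprod := X.chr_prod hχ i (-(k : ℤ))
  rcases lt_or_ge ((n : ℤ) + -(k : ℤ) - i) 2 with hw | hw
  · right
    have h := A.nInj_one i hi (-(k : ℤ)) (by omega)
    exact ⟨X.sym.nInj_cl n 0 i _ χ h, X.sym.nInj_cl n 1 i _ (X.dualChar χ) h⟩
  · obtain ⟨w, hw'⟩ := Int.eq_ofNat_of_zero_le (show 0 ≤ (n : ℤ) - k - i by omega)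
    obtain ⟨i', rfl⟩ := Int.eq_ofNat_of_zero_le (show 0 ≤ i by omega)
    have key : w = 2 → A.TateConj (i' - 1) →
        IsTateNumber q (chr X.cyc' χ n 0 i' (-(k : ℤ)) X.frob) →
        IsTateNumber q (chr X.cyc' (X.dualChar χ) n 1 i' (-(k : ℤ)) X.frob) →
        Crit X.diff X.lefC (X.cls χ 0) (X.cls (X.dualChar χ) 1) i' k := by
      intro hw2 hTC hT hT'
      right
      obtain ⟨a, ha⟩ : ∃ a : ℕ, i' = a + 1 := ⟨i' - 1, by omega⟩
      subst ha
      push_cast at hT hT' hw' hi ⊢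
      exact ⟨A.nInj_tate a (by omega) hTC _ (by omega) χ 0 hT,
        A.nInj_tate a (by omega) hTC _ (by omega) (X.dualChar χ) 1 hT'⟩
    have hq2 : w = 2 → chr X.cyc' χ n 0 i' (-(k : ℤ)) X.frob *
        chr X.cyc' (X.dualChar χ) n 1 i' (-(k : ℤ)) X.frob = (q : Ω) ^ 2 := by
      intro hw2
      rw [hprod, show (n : ℤ) + -(k : ℤ) - (i' : ℤ) = ((2 : ℕ) : ℤ) by omega, zpow_natCast]
    rcases H i' w (by omega) (by omega) (by omega) (chr X.cyc' χ n 0 i' (-(k : ℤ))) with h1 | h1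
    · rcases H i' w (by omega) (by omega) (by omega)
        (chr X.cyc' (X.dualChar χ) n 1 i' (-(k : ℤ))) with h2 | h2
      · left
        constructor
        · apply X.triv_of_simple
          rw [hw']
          exact h1
        · apply X.triv_of_simple
          rw [hw']
          exact h2
      · obtain ⟨hw2, hT', hTC⟩ := h2
        exact key hw2 hTC (hT'.dual X.q_ne (by rw [mul_comm]; exact hq2 hw2)) hT'
    · obtain ⟨hw2, hT, hTC⟩ := h1
      exact key hw2 hTC hT (hT.dual X.q_ne (hq2 hw2))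

lemma nInj_tot (A : DivisorClasses X.toSpecialFibre) (m : ℕ) (hm : m ≤ n) (H : X.Hyp A m)
    (i : ℤ) (hi : 1 ≤ i) : NInj X.diff X.tot i ((m : ℤ) - n) := by
  apply X.sym.nInj_of_classes n 0 i _
  rintro χ ⟨x, hx, hx0⟩
  have hχ : χ (X.tr X.frob) * χ X.frob = 1 := by
    have h1 := X.chr_frob_inv i hx hx0
    unfold chr at h1
    rw [X.cyc'_tr, inv_zpow] at h1
    have h2 : (X.cyc' X.frob ^ ex n 0 i ((m : ℤ) - n)) ≠ 0 := zpow_ne_zero _ (X.cyc'_ne _)
    rw [← h1]
    field_simp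
  have hd := X.cls_dual 0 χ
  rw [show (1 : ℤ) - 0 = 1 by ring] at hd
  exact ((hd.main_le (X.cls_lefComplex χ 0) (X.cls_lefComplex _ 1) ((m : ℤ) - n) (by omega)
    (fun i hi k hk => X.crit A m hm H hχ i hi k hk) i _ le_rfl).good hi).inj

/-- **Theorem.** mw purity of the cohomology in the degrees `m` and `2 n - m`. -/
theorem mwPure (A : DivisorClasses X.toSpecialFibre) (m : ℕ) (hm : m ≤ n) (H : X.Hyp A m) :
    IsMWPure q m (X.actV m X.frob) (X.N m) ∧
      IsMWPure q (2 * n - m : ℕ) (X.actV (2 * n - m) X.frob) (X.N (2 * n - m)) := by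
  have hinj : ∀ a : ℕ, 1 ≤ a → NInj X.diff X.tot a ((m : ℤ) - n) := fun a ha =>
    X.nInj_tot A m hm H a (by exact_mod_cast ha)
  have hgood : ∀ a : ℕ, 1 ≤ a → Good2 X.diff X.tot X.tot a ((m : ℤ) - n) := fun a ha =>
    X.lefDual.good_of_inj X.lefComplex X.lefComplex a (by exact_mod_cast ha) _ (hinj a ha)
      (hinj a ha)
  obtain ⟨k, hk⟩ := Nat.exists_eq_add_of_le hm
  have hk' : (m : ℤ) - n = -(k : ℤ) := by omega
  constructor
  · exact X.isMWPure_of m (fun a ha => (hgood a ha).inj) (fun a ha => (hgood a ha).surj)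
  · apply X.isMWPure_of (2 * n - m)
    · intro a ha
      have h1 := (hgood a ha).inj
      rw [hk'] at h1
      have h2 := X.lefComplex.nInj_pos a (by exact_mod_cast ha) k h1
      rwa [show ((2 * n - m : ℕ) : ℤ) - n = k by omega]
    · intro a ha
      have h1 := (hgood a ha).surj
      rw [hk'] at h1
      have h2 := X.lefComplex.nSurj_pos a (by exact_mod_cast ha) k h1
      rwa [show ((2 * n - m : ℕ) : ℤ) - n = k by omega]

end Degeneration

end Pool.Agent.Y143
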