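import Pool.Agent.Y143.Range
import Pool.Agent.Y143.Simple

/-!
# Unconditional purity of the extreme graded pieces of the monodromy filtration
-/

namespace Pool.Agent.Y143

universe u v

open Module

variable {Ω : Type u} [Field Ω] [CharZero Ω] {Γ : Type} {n q : ℕ}

/-- Rigid-analytic spaces: purity of `gr^M_j H^m` for `|j| ≥ min(m, 2 n - m) - 1`. -/
theorem SemistableModel.pure_extreme (X : SemistableModel.{u, v} Ω Γ n q)
    (A : DivisorClasses X.toSpecialFibre) (m : ℕ) {M : ℤ → Submodule Ω (X.V m)}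
    (hM : IsMonodromyFiltration (X.N m) M) (j : ℤ)
    (hj : min (m : ℤ) (2 * n - m) ≤ |j| + 1) (α : Ω) (x : X.V m) (hx : x ∈ M j)
    (hx' : x ∉ M (j - 1)) (hα : X.actV m X.frob x - α • x ∈ M (j - 1)) :
    IsWeilNumber q (j + m) α := by
  have key : ∀ a : ℕ, max 1 (min (m : ℤ) (2 * n - m)).toNat ≤ a →
      NInj X.diff X.tot a ((m : ℤ) - n) ∧ NSurj X.diff X.tot a ((m : ℤ) - n) := by
    intro a ha
    have ha1 : 1 ≤ a := (le_max_left _ _).trans ha
    have ha2 : min (m : ℤ) (2 * n - m) ≤ a := by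
      have := (le_max_right _ _).trans ha
      omega
    rcases le_total ((m : ℤ) - n) 0 with h | h
    · exact ⟨A.nInj_one a (by exact_mod_cast ha1) _ (by omega),
        A.nSurj_zero a (by exact_mod_cast ha1) _ (by omega)⟩
    · exact X.baseComplex.good_flip a (by exact_mod_cast ha1) _
        (A.nInj_one a (by exact_mod_cast ha1) _ (by omega))
        (A.nSurj_zero a (by exact_mod_cast ha1) _ (by omega))
  refine X.pure_range m hM (max 1 (min (m : ℤ) (2 * n - m)).toNat) (le_max_left _ _)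
    (fun a ha => (key a ha).1) (fun a ha => (key a ha).2) j ?_ α x hx hx' hα
  have := abs_nonneg j
  omega

/-- Projective schemes: purity of `gr^M_j H^m` for `|j| ≥ min(m, 2 n - m) - 2`. -/
theorem Degeneration.pure_extreme (X : Degeneration.{u, v} Ω Γ n q)
    (A : DivisorClasses X.toSpecialFibre) (m : ℕ) {M : ℤ → Submodule Ω (X.V m)}
    (hM : IsMonodromyFiltration (X.N m) M) (j : ℤ)
    (hj : min (m : ℤ) (2 * n - m) ≤ |j| + 2) (α : Ω) (x : X.V m) (hx : x ∈ M j)
    (hx' : x ∉ M (j - 1)) (hα : X.actV m X.frob x - α • x ∈ M (j - 1)) :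
    IsWeilNumber q (j + m) α := by
  have key : ∀ a : ℕ, max 1 (min (m : ℤ) (2 * n - m) - 1).toNat ≤ a →
      NInj X.diff X.tot a ((m : ℤ) - n) ∧ NSurj X.diff X.tot a ((m : ℤ) - n) := by
    intro a ha
    have ha1 : 1 ≤ a := (le_max_left _ _).trans ha
    have ha1' : (1 : ℤ) ≤ a := by exact_mod_cast ha1
    have ha2 : min (m : ℤ) (2 * n - m) - 1 ≤ a := by
      have := (le_max_right _ _).trans ha
      omega
    rcases le_total ((m : ℤ) - n) 0 with h | h
    · have h1 := A.nInj_one a ha1' ((m : ℤ) - n) (by omega)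
      have h2 := X.lefDual.good_of_inj X.lefComplex X.lefComplex a ha1' _ h1 h1
      exact ⟨h2.inj, h2.surj⟩
    · obtain ⟨k, hk⟩ : ∃ k : ℕ, (m : ℤ) - n = k := ⟨((m : ℤ) - n).toNat, by omega⟩
      have h1 := A.nInj_one a ha1' (-(k : ℤ)) (by omega)
      have h2 := X.lefDual.good_of_inj X.lefComplex X.lefComplex a ha1' _ h1 h1
      rw [hk]
      exact ⟨X.lefComplex.nInj_pos a ha1' k h2.inj, X.lefComplex.nSurj_pos a ha1' k h2.surj⟩
  refine X.pure_range m hM (max 1 (min (m : ℤ) (2 * n - m) - 1).toNat) (le_max_left _ _)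
    (fun a ha => (key a ha).1) (fun a ha => (key a ha).2) j ?_ α x hx hx' hα
  have := abs_nonneg j
  omega

end Pool.Agent.Y143
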