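import Pool.Agent.Y143.Divisors

/-!
# Tate characters and the primitive part of the weight spectral sequence
-/

namespace Pool.Agent.Y143

universe u v

open Module

variable {Ω : Type u} [Field Ω] [CharZero Ω] {Γ : Type} {n q : ℕ}

/-- The simultaneous generalized eigenspace of the family of operators `T` for the eigenvalues
`χ`. -/
def Wt {ι : Type*} {Ω : Type*} [Field Ω] {C : Type*} [AddCommGroup C] [Module Ω C]
    (T : ι → Module.End Ω C) (χ : ι → Ω) : Submodule Ω C :=
  ⨅ g, (T g).maxGenEigenspace (χ g)

/-- `α` is the product of `q` and a root of unity. -/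
def IsTateNumber (q : ℕ) (α : Ω) : Prop := ∃ k : ℕ, 0 < k ∧ α ^ k = (q : Ω) ^ k

section

variable {C : Type v} [AddCommGroup C] [Module Ω C]

/-- The kernel of `L ^ s`. -/
def kerPow (L : Module.End Ω C) (s : ℕ) : Submodule Ω C := LinearMap.ker (L ^ s)

/-- The space `P` has dimension at most one or, more generally, it is contained in `B` or meets `B` in
zero only. -/
def IsSimpleIn (P B : Submodule Ω C) : Prop := finrank Ω P ≤ 1 ∨ P ≤ B ∨ Disjoint P B

end

/-- The `L`-primitive part of `E_1^(i, w)`. -/
noncomputable def SpecialFibre.primitive (X : SpecialFibre.{u, v} Ω Γ n q) (i w : ℤ) :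
    Submodule Ω X.C :=
  X.E₁ i w ⊓ kerPow X.lefC ((n : ℤ) + 1 - i - w).toNat

/-- The part of character `χ` (simultaneous generalized eigenspace of the operators in `Γ`) of the
`L`-primitive part of `E_1^(i, w)`. -/
noncomputable def SpecialFibre.primPart (X : SpecialFibre.{u, v} Ω Γ n q) (i w : ℤ) (χ : Γ → Ω) :
    Submodule Ω X.C :=
  X.primitive i w ⊓ Wt (X.actC i) χ

/-- The character `χ` is simple in `E_1^(i, w)`: the primitive part of `E_1^(i, w)` of character `χ`
has dimension at most one or, more generally, it is contained in the image of the differential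
`E_1^(i - 1, w) → E_1^(i, w)` or meets this image in zero only. -/
def SpecialFibre.SimpleAt (X : SpecialFibre.{u, v} Ω Γ n q) (i w : ℤ) (χ : Γ → Ω) : Prop :=
  IsSimpleIn (X.primPart i w χ) (X.coboundaries i w)

/-- The Tate conjecture for divisors on the stratum `Y^(a+1)`: the classes in `H^2(Y^(a+1))` on
which a power of the Frobenius acts as the corresponding power of `q` (generalized eigenspaces)
are combinations of divisor classes. -/
def DivisorClasses.TateConj {X : SpecialFibre.{u, v} Ω Γ n q} (A : DivisorClasses X) (a : ℕ) :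
    Prop :=
  ∀ α : Ω, IsTateNumber q α → ∀ x ∈ X.gr a 2, x ∈ (X.act a X.frob).maxGenEigenspace α →
    x ∈ Submodule.span Ω (A.A1 a : Set (X.H a))

end Pool.Agent.Y143
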