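import Pool.Agent.Y143.MonDefs

/-!
# Existence and functoriality of the monodromy filtration
-/

namespace Pool.Agent.Y143

universe u v

open Module

section

variable {Ω : Type u} [Field Ω] {V : Type*} [AddCommGroup V] [Module Ω V]
  {V' : Type*} [AddCommGroup V'] [Module Ω V']

lemma IsMonodromyFiltration.on {N : Module.End Ω V} {M : ℤ → Submodule Ω V}
    (h : IsMonodromyFiltration N M) : IsMonodromyFiltrationOn ⊤ N M where
  mono := h.mono
  bot := h.bot
  top := h.top
  le := fun _ => le_top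
  map := h.map
  inj := h.inj
  surj := h.surj

namespace IsMonodromyFiltrationOn

variable {S : Submodule Ω V} {N : Module.End Ω V} {M : ℤ → Submodule Ω V}
  (h : IsMonodromyFiltrationOn S N M)
include h

lemma pow_map (j : ℕ) (a : ℤ) (x : V) (hx : x ∈ M a) : (N ^ j) x ∈ M (a - 2 * j) := by
  induction j with
  | zero => simpa using hx
  | succ j ih =>
    rw [pow_succ', Module.End.mul_apply]
    have := h.map _ _ ih
    rwa [show a - 2 * (j : ℤ) - 2 = a - 2 * ((j + 1 : ℕ) : ℤ) by push_cast; ring] at this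

lemma surj_exact (a : ℕ) (y : V) (hy : y ∈ M (-a)) : ∃ x ∈ M a, (N ^ a) x = y := by
  have key : ∀ t : ℕ, ∃ x ∈ M a, y - (N ^ a) x ∈ M (-a - t) := by
    intro t
    induction t with
    | zero => exact ⟨0, zero_mem _, by simpa using hy⟩
    | succ t ih =>
      obtain ⟨x, hx, hx'⟩ := ih
      have e1 : (-(a : ℤ) - t) = -((a + t : ℕ) : ℤ) := by push_cast; ring
      rw [e1] at hx'
      obtain ⟨z, hz, hz'⟩ := h.surj (a + t) _ hx'
      refine ⟨x + (N ^ t) z, ?_, ?_⟩
      · apply add_mem hx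
        have := h.pow_map t _ z hz
        exact h.mono (by push_cast; omega) this
      · rw [map_add, ← Module.End.mul_apply, ← pow_add, ← sub_sub]
        exact h.mono (by push_cast; omega) hz'
  obtain ⟨b, hb⟩ := h.bot
  obtain ⟨x, hx, hx'⟩ := key (-(b : ℤ) - a).toNat
  refine ⟨x, hx, ?_⟩
  have h1 : y - (N ^ a) x ∈ M b := by
    apply h.mono _ hx'
    have := Int.self_le_toNat (-(b : ℤ) - a)
    omega
  rw [hb, Submodule.mem_bot] at h1
  exact (sub_eq_zero.1 h1).symm

lemma stable {x : V} (hx : x ∈ S) : N x ∈ S := by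
  obtain ⟨b, hb⟩ := h.top
  rw [← hb] at hx
  exact h.le _ (h.map _ _ hx)

lemma stable_pow {x : V} (hx : x ∈ S) (k : ℕ) : (N ^ k) x ∈ S := by
  induction k with
  | zero => simpa using hx
  | succ k ih =>
    rw [pow_succ', Module.End.mul_apply]
    exact h.stable ih

lemma ker_le (k : ℕ) {y : V} (hy : y ∈ S) (h0 : (N ^ (k + 1)) y = 0) : y ∈ M k := by
  obtain ⟨b, hb⟩ := h.top
  have key : ∀ t : ℕ, y ∈ M (k + t) → y ∈ M k := by
    intro t
    induction t with
    | zero => intro h1; simpa using h1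
    | succ t ih =>
      intro h1
      apply ih
      have e1 : ((k : ℤ) + ((t + 1 : ℕ) : ℤ)) = ((k + t + 1 : ℕ) : ℤ) := by push_cast; ring
      rw [e1] at h1
      have := h.inj (k + t + 1) y h1 (by
        have : (N ^ (k + t + 1)) y = 0 := by
          rw [show k + t + 1 = t + (k + 1) by ring, pow_add, Module.End.mul_apply, h0, map_zero]
        rw [this]
        exact zero_mem _)
      rwa [show ((k + t + 1 : ℕ) : ℤ) - 1 = k + t by push_cast; ring] at this
  apply key (b - k).toNat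
  rw [← hb] at hy
  apply h.mono _ hy
  have := Int.self_le_toNat (b - k)
  omega

lemma decomp (k : ℕ) {x : V} (hx : x ∈ M k) :
    ∃ z ∈ M (k + 2 : ℕ), (N ^ (k + 1)) (x - N z) = 0 := by
  have h1 := h.pow_map (k + 1) _ x hx
  rw [show (k : ℤ) - 2 * ((k + 1 : ℕ) : ℤ) = -((k + 2 : ℕ) : ℤ) by push_cast; ring] at h1
  obtain ⟨z, hz, hz'⟩ := h.surj_exact (k + 2) _ h1
  refine ⟨z, hz, ?_⟩
  rw [map_sub, ← Module.End.mul_apply, ← pow_succ, hz', sub_self]

end IsMonodromyFiltrationOn

/-- Morphisms preserve the monodromy filtrations. -/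
lemma IsMonodromyFiltrationOn.functorial {S : Submodule Ω V} {N : Module.End Ω V}
    {M : ℤ → Submodule Ω V} (h : IsMonodromyFiltrationOn S N M) {S' : Submodule Ω V'}
    {N' : Module.End Ω V'} {M' : ℤ → Submodule Ω V'} (h' : IsMonodromyFiltrationOn S' N' M')
    (A : V →ₗ[Ω] V') (hA : ∀ x ∈ S, A x ∈ S') {c : Ω} (hc : c ≠ 0)
    (hN : ∀ x ∈ S, N' (A x) = c • A (N x)) (s : ℤ) {x : V} (hx : x ∈ M s) : A x ∈ M' s := by
  have hpow : ∀ (k : ℕ) (x : V), x ∈ S → (N' ^ k) (A x) = c ^ k • A ((N ^ k) x) := by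
    intro k
    induction k with
    | zero => intro x _; simp
    | succ k ih =>
      intro x hx
      rw [pow_succ', Module.End.mul_apply, ih x hx, map_smul, hN _ (h.stable_pow hx k), smul_smul,
        pow_succ' N, Module.End.mul_apply, ← pow_succ]
  obtain ⟨b, hb⟩ := h'.top
  have pos : ∀ (t k : ℕ), b ≤ (k : ℤ) + t → ∀ x, x ∈ M k → A x ∈ M' k := by
    intro t
    induction t with
    | zero =>
      intro k hk x hx
      apply h'.mono (show b ≤ (k : ℤ) by simpa using hk)
      rw [hb]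
      exact hA _ (h.le _ hx)
    | succ t ih =>
      intro k hk x hx
      obtain ⟨z, hz, hz'⟩ := h.decomp k hx
      have h1 := ih (k + 2) (by push_cast at hk ⊢; omega) z hz
      have hzS := h.le _ hz
      have hNz : N z ∈ S := h.stable hzS
      have h2 : A (x - N z) ∈ M' k := by
        have hmem : x - N z ∈ S := sub_mem (h.le _ hx) hNz
        apply h'.ker_le k (hA _ hmem)
        rw [hpow _ _ hmem, hz', map_zero, smul_zero]
      have h3 : A (N z) ∈ M' k := by
        have h4 : A (N z) = c⁻¹ • N' (A z) := by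
          rw [hN _ hzS, smul_smul, inv_mul_cancel₀ hc, one_smul]
        rw [h4]
        apply Submodule.smul_mem
        have := h'.map _ _ h1
        rwa [show ((k + 2 : ℕ) : ℤ) - 2 = k by push_cast; ring] at this
      have h5 : A x = A (x - N z) + A (N z) := by rw [← map_add, sub_add_cancel]
      rw [h5]
      exact add_mem h2 h3
  have pos' : ∀ (k : ℕ) (x : V), x ∈ M k → A x ∈ M' k := by
    intro k x hx
    apply pos (b - k).toNat k _ x hx
    have := Int.self_le_toNat (b - k)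
    omega
  rcases le_total 0 s with hs | hs
  · obtain ⟨k, rfl⟩ := Int.eq_ofNat_of_zero_le hs
    exact pos' k x hx
  · obtain ⟨k, hk⟩ : ∃ k : ℕ, s = -(k : ℤ) := ⟨s.natAbs, by omega⟩
    subst hk
    obtain ⟨z, hz, hz'⟩ := h.surj_exact k x hx
    have h1 := h'.pow_map k _ _ (pos' k z hz)
    rw [show (k : ℤ) - 2 * k = -k by ring, hpow _ _ (h.le _ hz), hz'] at h1
    exact (Submodule.smul_mem_iff _ (pow_ne_zero _ hc)).1 h1

/-- The monodromy filtration of a nilpotent operator. -/
noncomputable def monFil (N : Module.End Ω V) (k : ℤ) : Submodule Ω V :=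
  ⨆ j : {j : ℕ // -k ≤ j}, (LinearMap.ker (N ^ (k + 1 + 2 * (j : ℕ)).toNat)).map (N ^ (j : ℕ))

lemma mem_monFil_of {N : Module.End Ω V} {k : ℤ} {j : ℕ} (hj : -k ≤ j) {y : V} {e : ℕ}
    (he : (e : ℤ) = k + 1 + 2 * j) (hy : (N ^ e) y = 0) : (N ^ j) y ∈ monFil N k := by
  have : (k + 1 + 2 * (j : ℤ)).toNat = e := by omega
  refine Submodule.mem_iSup_of_mem (⟨j, hj⟩ : {j : ℕ // -k ≤ j}) ⟨y, ?_, rfl⟩
  change (N ^ (k + 1 + 2 * (j : ℤ)).toNat) y = 0
  rw [this]
  exact hy

lemma monFil_le {N : Module.End Ω V} {k : ℤ} {P : Submodule Ω V}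
    (h : ∀ (j e : ℕ) (y : V), -k ≤ j → (e : ℤ) = k + 1 + 2 * j → (N ^ e) y = 0 → (N ^ j) y ∈ P) :
    monFil N k ≤ P := by
  apply iSup_le
  rintro ⟨j, hj⟩ _ ⟨y, hy, rfl⟩
  exact h j _ y hj (Int.toNat_of_nonneg (by omega)) hy

lemma ker_eq_zero_of_le {N : Module.End Ω V} {a b : ℕ} (hab : a ≤ b) {y : V}
    (hy : (N ^ a) y = 0) : (N ^ b) y = 0 := by
  obtain ⟨c, rfl⟩ := Nat.exists_eq_add_of_le hab
  rw [add_comm, pow_add, Module.End.mul_apply, hy, map_zero]

/-- A nilpotent operator has a monodromy filtration. -/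
lemma isMonodromyFiltration_monFil {N : Module.End Ω V} (hN : ∃ r : ℕ, N ^ r = 0) :
    IsMonodromyFiltration N (monFil N) := by
  obtain ⟨r, hr⟩ := hN
  have hmono : Monotone (monFil N) := by
    intro a b hab
    apply monFil_le
    intro j e y hj he hy
    have h1 : (0 : ℤ) ≤ b + 1 + 2 * j := by omega
    refine mem_monFil_of (e := (b + 1 + 2 * j).toNat) (by omega) (Int.toNat_of_nonneg h1)
      (ker_eq_zero_of_le ?_ hy)
    omega
  have hmap : ∀ a x, x ∈ monFil N a → N x ∈ monFil N (a - 2) := by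
    intro a x hx
    have h1 : monFil N a ≤ (monFil N (a - 2)).comap N := by
      apply monFil_le
      intro j e y hj he hy
      rw [Submodule.mem_comap, ← Module.End.mul_apply, ← pow_succ']
      by_cases hj' : -(a - 2) ≤ ((j + 1 : ℕ) : ℤ)
      · exact mem_monFil_of hj' (by push_cast; omega) hy
      · rw [ker_eq_zero_of_le (a := e) (by push_cast at hj'; omega) hy]
        exact zero_mem _
    exact h1 hx
  have hsurj : ∀ (a : ℕ), monFil N (-a) ≤ (monFil N a).map (N ^ a) := by
    intro a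
    apply monFil_le
    intro j e y hj he hy
    obtain ⟨i, rfl⟩ : ∃ i, j = a + i := ⟨j - a, by omega⟩
    refine ⟨(N ^ i) y, mem_monFil_of (by omega) (e := e) (by push_cast at he ⊢; omega) hy, ?_⟩
    rw [← Module.End.mul_apply, ← pow_add]
  refine ⟨hmono, ⟨-(r : ℤ), ?_⟩, ⟨r, ?_⟩, hmap, ?_, ?_⟩
  · rw [eq_bot_iff]
    apply monFil_le
    intro j e y hj _ _
    rw [Submodule.mem_bot]
    exact ker_eq_zero_of_le (a := r) (by omega) (by rw [hr]; rfl)
  · rw [eq_top_iff]
    intro y _
    have := mem_monFil_of (N := N) (k := r) (j := 0) (y := y) (e := r + 1) (by simp)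
      (by push_cast; ring) (ker_eq_zero_of_le (Nat.le_succ r) (by rw [hr]; rfl))
    simpa using this
  · intro a x hx h1
    rcases Nat.eq_zero_or_pos a with rfl | ha
    · simpa using h1
    · have h2 : (N ^ a) x ∈ (monFil N (a + 1 : ℕ)).map (N ^ (a + 1)) := by
        apply hsurj (a + 1)
        rwa [show -((a + 1 : ℕ) : ℤ) = -a - 1 by push_cast; ring]
      obtain ⟨z, hz, hz'⟩ := h2
      have h3 : (N ^ a) (x - N z) = 0 := by
        rw [map_sub, ← hz', ← Module.End.mul_apply, ← pow_succ, sub_self]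
      have h4 : x - N z ∈ monFil N (a - 1) := by
        have := mem_monFil_of (N := N) (k := (a : ℤ) - 1) (j := 0) (y := x - N z) (e := a)
          (by omega) (by push_cast; ring) h3
        simpa using this
      have h5 := hmap _ _ hz
      rw [show ((a + 1 : ℕ) : ℤ) - 2 = a - 1 by push_cast; ring] at h5
      have := add_mem h4 h5
      rwa [sub_add_cancel] at this
  · intro a y hy
    obtain ⟨x, hx, hx'⟩ := hsurj a hy
    exact ⟨x, hx, by rw [hx', sub_self]; exact zero_mem _⟩

/-- An operator which is nilpotent on a stable subspace has a monodromy filtration on this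
subspace. -/
lemma exists_monodromyFiltrationOn {S : Submodule Ω V} {N : Module.End Ω V}
    (hS : ∀ a ∈ S, N a ∈ S) (hN : ∃ r : ℕ, ∀ a ∈ S, (N ^ r) a = 0) :
    ∃ M, IsMonodromyFiltrationOn S N M := by
  obtain ⟨r, hr⟩ := hN
  let T : Module.End Ω S := N.restrict hS
  have hT : ∀ (k : ℕ) (x : S), (((T ^ k) x : S) : V) = (N ^ k) x := by
    intro k
    induction k with
    | zero => intro x; simp
    | succ k ih =>
      intro x
      rw [pow_succ', Module.End.mul_apply, pow_succ', Module.End.mul_apply, ← ih]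
      rfl
  have hT0 : ∃ r : ℕ, T ^ r = 0 := ⟨r, by
    ext x
    rw [hT]
    simpa using hr x x.2⟩
  have h := isMonodromyFiltration_monFil hT0
  refine ⟨fun a => (monFil T a).map S.subtype, ⟨?_, ?_, ?_, ?_, ?_, ?_, ?_⟩⟩
  · intro a b hab
    exact Submodule.map_mono (h.mono hab)
  · obtain ⟨a, ha⟩ := h.bot
    exact ⟨a, by simp [ha]⟩
  · obtain ⟨a, ha⟩ := h.top
    exact ⟨a, by simp [ha]⟩
  · rintro a _ ⟨x, -, rfl⟩
    exact x.2
  · rintro a _ ⟨x, hx, rfl⟩
    exact ⟨T x, h.map a x hx, rfl⟩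
  · rintro a _ ⟨x, hx, rfl⟩ h1
    obtain ⟨y, hy, hy'⟩ := h1
    have : y = (T ^ a) x := by
      apply Subtype.ext
      rw [hT]
      exact hy'
    exact ⟨x, h.inj a x hx (this ▸ hy), rfl⟩
  · rintro a _ ⟨y, hy, rfl⟩
    obtain ⟨x, hx, hx'⟩ := h.surj a y hy
    refine ⟨x, ⟨x, hx, rfl⟩, ?_⟩
    refine ⟨y - (T ^ a) x, hx', ?_⟩
    change ((y - (T ^ a) x : S) : V) = _
    rw [Submodule.coe_sub, hT]
    rfl

end

end Pool.Agent.Y143
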