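import Pool.Agent.Y143.Pure

/-!
# Powers and roots of Weil numbers
-/

namespace Pool.Agent.Y143

universe u

open Module Polynomial

variable {Ω : Type u} [Field Ω] [CharZero Ω]

lemma aeval_minpoly_pow {β : Ω} {z : ℂ} (hz : aeval z (minpoly ℚ β) = 0) (k : ℕ) :
    aeval (z ^ k) (minpoly ℚ (β ^ k)) = 0 := by
  have h1 : aeval β ((minpoly ℚ (β ^ k)).comp (X ^ k)) = 0 := by
    rw [aeval_comp]
    simp
  obtain ⟨R, hR⟩ := minpoly.dvd ℚ _ h1
  have h2 : aeval z ((minpoly ℚ (β ^ k)).comp (X ^ k)) = 0 := by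
    rw [hR, map_mul, hz, zero_mul]
  rw [aeval_comp] at h2
  simpa using h2

/-- The conjugates of `β ^ k` are the `k`-th powers of the conjugates of `β`. -/
lemma exists_root_of_pow {β : Ω} (hβ : IsAlgebraic ℚ β) (k : ℕ) {y : ℂ}
    (hy : aeval y (minpoly ℚ (β ^ k)) = 0) : ∃ z : ℂ, aeval z (minpoly ℚ β) = 0 ∧ z ^ k = y := by
  let E := IntermediateField.adjoin ℚ {β}
  let b : E := ⟨β, IntermediateField.mem_adjoin_simple_self ℚ β⟩
  have halgE : Algebra.IsAlgebraic ℚ E :=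
    (IntermediateField.isAlgebraic_adjoin_simple hβ.isIntegral)
  have hbmin : minpoly ℚ b = minpoly ℚ β := minpoly.algebraMap_eq (B := E) (B' := Ω)
    (algebraMap E Ω).injective b |>.symm
  have hbkmin : minpoly ℚ (b ^ k) = minpoly ℚ (β ^ k) := by
    have := minpoly.algebraMap_eq (A := ℚ) (B := E) (B' := Ω) (algebraMap E Ω).injective (b ^ k)
    rw [← this]
    rfl
  let F := IntermediateField.adjoin ℚ ({b ^ k} : Set E)
  have hint : IsIntegral ℚ (b ^ k) := (halgE.isAlgebraic (b ^ k)).isIntegral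
  have hyroot : y ∈ (minpoly ℚ (b ^ k)).aroots ℂ := by
    rw [mem_aroots]
    exact ⟨minpoly.ne_zero hint, by rw [hbkmin]; exact hy⟩
  let ψ : F →ₐ[ℚ] ℂ := (IntermediateField.algHomAdjoinIntegralEquiv ℚ hint).symm ⟨y, hyroot⟩
  have hψ : ψ (IntermediateField.AdjoinSimple.gen ℚ (b ^ k)) = y :=
    IntermediateField.algHomAdjoinIntegralEquiv_symm_apply_gen ℚ hint ⟨y, hyroot⟩
  let _ : Algebra F ℂ := ψ.toRingHom.toAlgebra
  have hst : IsScalarTower ℚ F ℂ := IsScalarTower.of_algebraMap_eq (fun x => (ψ.commutes x).symm)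
  have halgF : Algebra.IsAlgebraic F E := Algebra.IsAlgebraic.tower_top (K := ℚ) F
  let Φ : E →ₐ[F] ℂ := IsAlgClosed.lift
  refine ⟨Φ b, ?_, ?_⟩
  · rw [← hbmin]
    have h1 : aeval (Φ.restrictScalars ℚ b) (minpoly ℚ b) = 0 := by
      rw [aeval_algHom_apply, minpoly.aeval, map_zero]
    exact h1
  · rw [← map_pow]
    have h1 : (b ^ k : E) = algebraMap F E (IntermediateField.AdjoinSimple.gen ℚ (b ^ k)) :=
      (IntermediateField.AdjoinSimple.algebraMap_gen ℚ (b ^ k)).symm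
    rw [h1, AlgHom.commutes]
    exact hψ

lemma aeval_minpoly_inv {β : Ω} (hβ : IsAlgebraic ℚ β) {z : ℂ}
    (hz : aeval z (minpoly ℚ β⁻¹) = 0) : aeval z⁻¹ (minpoly ℚ β) = 0 := by
  let E := IntermediateField.adjoin ℚ {β⁻¹}
  have hint : IsIntegral ℚ β⁻¹ := hβ.inv.isIntegral
  have hzroot : z ∈ (minpoly ℚ β⁻¹).aroots ℂ := by
    rw [mem_aroots]
    exact ⟨minpoly.ne_zero hint, hz⟩
  let ψ : E →ₐ[ℚ] ℂ := (IntermediateField.algHomAdjoinIntegralEquiv ℚ hint).symm ⟨z, hzroot⟩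
  have hψ : ψ (IntermediateField.AdjoinSimple.gen ℚ β⁻¹) = z :=
    IntermediateField.algHomAdjoinIntegralEquiv_symm_apply_gen ℚ hint ⟨z, hzroot⟩
  have h1 : minpoly ℚ (IntermediateField.AdjoinSimple.gen ℚ β⁻¹)⁻¹ = minpoly ℚ β := by
    rw [← minpoly.algebraMap_eq (A := ℚ) (B := E) (B' := Ω) (algebraMap E Ω).injective, map_inv₀,
      IntermediateField.AdjoinSimple.algebraMap_gen, inv_inv]
  rw [← h1, ← hψ, ← map_inv₀, aeval_algHom_apply, minpoly.aeval, map_zero]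

namespace IsWeilNumber

variable {q : ℕ} {w : ℤ} {α β : Ω}

lemma pow (h : IsWeilNumber q w β) (k : ℕ) : IsWeilNumber q (k * w) (β ^ k) := by
  obtain ⟨h1, h2⟩ := h
  refine ⟨h1.pow k, fun y hy => ?_⟩
  obtain ⟨z, hz, rfl⟩ := exists_root_of_pow h1 k hy
  rw [norm_pow, h2 z hz, ← Real.rpow_natCast, ← Real.rpow_mul (Nat.cast_nonneg q)]
  congr 1
  push_cast
  ring

lemma of_pow {k : ℕ} (hk : 0 < k) (h : IsWeilNumber q (k * w) (α ^ k)) : IsWeilNumber q w α := by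
  obtain ⟨h1, h2⟩ := h
  refine ⟨h1.of_pow hk, fun z hz => ?_⟩
  have h3 := h2 _ (aeval_minpoly_pow hz k)
  rw [norm_pow] at h3
  have h4 : ((q : ℝ) ^ ((w : ℝ) / 2)) ^ k = (q : ℝ) ^ (((k * w : ℤ) : ℝ) / 2) := by
    rw [← Real.rpow_natCast, ← Real.rpow_mul (Nat.cast_nonneg q)]
    congr 1
    push_cast
    ring
  rw [← h4] at h3
  exact (pow_left_inj₀ (norm_nonneg z) (Real.rpow_nonneg (Nat.cast_nonneg q) _) hk.ne').1 h3

lemma one (q : ℕ) : IsWeilNumber q 0 (1 : Ω) := by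
  refine ⟨isAlgebraic_one, fun z hz => ?_⟩
  rw [minpoly.one] at hz
  simp only [map_sub, aeval_X, map_one, sub_eq_zero] at hz
  rw [hz]
  simp

/-- Change of the residue field. -/
lemma of_pow_base {e : ℕ} (h : IsWeilNumber (q ^ e) w β) : IsWeilNumber q (e * w) β := by
  obtain ⟨h1, h2⟩ := h
  refine ⟨h1, fun z hz => ?_⟩
  rw [h2 z hz]
  push_cast
  rw [← Real.rpow_natCast, ← Real.rpow_mul (Nat.cast_nonneg q)]
  congr 1
  ring

lemma inv (h : IsWeilNumber q w β) : IsWeilNumber q (-w) β⁻¹ := by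
  obtain ⟨h1, h2⟩ := h
  refine ⟨h1.inv, fun z hz => ?_⟩
  have h6 := h2 _ (aeval_minpoly_inv h1 hz)
  rw [norm_inv] at h6
  rw [← inv_inv ‖z‖, h6, ← Real.rpow_neg (Nat.cast_nonneg q)]
  congr 1
  push_cast
  ring

end IsWeilNumber

end Pool.Agent.Y143
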