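import Pool.Agent.Y143.LowInj
import Pool.Agent.Y143.BaseC
import Pool.Agent.Y143.Pure

/-!
# Harmonic representatives in weight zero, and the rigid-analytic case
-/

namespace Pool.Agent.Y143

universe u v

open Module

variable {Ω : Type u} [Field Ω] [CharZero Ω] {Γ : Type} {n q : ℕ}

namespace SpecialFibre

variable (X : SpecialFibre.{u, v} Ω Γ n q)

theorem baseComplex : BaseComplex X.psi X.diff X.tot where
  neg i j := by
    unfold SpecialFibre.tot
    have := X.E₁_neg i (n + j - i)
    rwa [show (n : ℤ) + j - i + 2 * i = n + j - -i by ring] at this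
  d_mem i j x hx := X.mem_E₁_cast rfl (by ring) (X.diff_mem hx)
  dd i j x hx := X.diff_diff hx
  out i hi j x _ h := X.diff_out (w := 0) hi h
  incl i hi j z hz := X.mem_E₁_cast rfl (by ring) (X.E₁_incl hi hz)
  dneg i := X.diff_neg i
  perf i j := X.lefDual.perf i j
  adj_d i j x y hx hy := X.lefDual.adj_d i j x y hx hy

/-- The form in which the surjectivity of the monodromy is verified in the weights at most one. -/
lemma nSurj_low (a : ℕ) (j : ℤ) (hw : (n : ℤ) + j - (a + 1) ≤ 1)
    (hkey : ∀ z ∈ X.gr (a + 1) ((n : ℤ) + j - (a + 1)), X.res (a + 1) z = 0 →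
      ∃ η ∈ X.gr a ((n : ℤ) + j - (a + 1)), X.gys a (z - X.res a η) = 0) :
    NSurj X.diff X.tot ((a : ℤ) + 1) j := by
  classical
  rintro x ⟨hx1, hx2⟩
  have hcol : InColumn ((a : ℤ) + 1 + 1) (a + 1 + 1) := by
    refine ⟨?_, by push_cast; omega⟩
    rw [abs_of_nonneg (by positivity)]
    push_cast
    exact le_rfl
  have hcol1 : InColumn ((a : ℤ) + 1) (a + 1) := by
    refine ⟨?_, by push_cast; omega⟩
    rw [abs_of_nonneg (by positivity)]
    push_cast
    exact le_rfl
  have hcola : InColumn (a : ℤ) a := by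
    refine ⟨?_, by omega⟩
    rw [abs_of_nonneg (by positivity)]
  -- the only nonzero component of `x`
  have hx0 : ∀ b, b ≠ a + 1 → x b = 0 := by
    intro b hb
    by_cases hc : InColumn ((a : ℤ) + 1) b
    · apply gr_zero_of_mem_neg X _ (hx1 b).1
      obtain ⟨h1, h2⟩ := hc
      rw [abs_of_nonneg (by positivity)] at h1
      omega
    · exact (hx1 b).2 hc
  have hxa : x (a + 1) ∈ X.gr (a + 1) ((n : ℤ) + j - (a + 1)) := by
    have h1 := (hx1 (a + 1)).1
    rwa [show (n : ℤ) + j - (a + 1) + (a + 1) - ((a + 1 : ℕ) : ℤ) = n + j - (a + 1) by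
      push_cast; ring] at h1
  have hres : X.res (a + 1) (x (a + 1)) = 0 := by
    have h1 := congrFun (show X.diff ((a : ℤ) + 1) x = 0 from hx2) (a + 1 + 1)
    have h2 := X.diff_at (a + 1) x (a + 1) (by exact_mod_cast hcol)
    rw [show (((a + 1 : ℕ) : ℤ)) = (a : ℤ) + 1 by push_cast; ring] at h2
    rw [h2, hx0 (a + 1 + 2) (by omega), map_zero, add_zero] at h1
    exact h1
  obtain ⟨η, hη, hη0⟩ := hkey _ hxa hres
  have hy : (Pi.single a η : X.C) ∈ X.E₁ a ((n : ℤ) + j - (a + 1)) := by
    apply X.single_mem hcola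
    rwa [show (n : ℤ) + j - (a + 1) + a - a = n + j - (a + 1) by ring]
  have hdy : X.diff a (Pi.single a η) = Pi.single (a + 1) (X.res a η) := by
    funext b
    by_cases hc : InColumn ((a : ℤ) + 1) b
    · obtain ⟨b, rfl⟩ : ∃ b', b = b' + 1 := by
        obtain ⟨h1, -⟩ := hc
        rw [abs_of_nonneg (by positivity)] at h1
        exact ⟨b - 1, by omega⟩
      rw [X.diff_at a _ b hc]
      obtain ⟨h1, h2⟩ := hc
      rw [abs_of_nonneg (by positivity)] at h1
      push_cast at h1 h2
      rcases Nat.lt_or_ge b (a + 1) with h3 | h3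
      · obtain rfl : b = a := by omega
        rw [Pi.single_eq_same, Pi.single_eq_of_ne (show b + 2 ≠ b by omega), map_zero, add_zero,
          Pi.single_eq_same]
      · rw [Pi.single_eq_of_ne (show b ≠ a by omega),
          Pi.single_eq_of_ne (show b + 2 ≠ a by omega),
          Pi.single_eq_of_ne (show b + 1 ≠ a + 1 by omega), map_zero, map_zero, add_zero]
    · rw [diff_apply, X.cut_of_not hc, Pi.single_eq_of_ne]
      rintro rfl
      exact hc hcol1
  have hdyb : X.diff a (Pi.single a η) ∈ Bd X.diff X.tot ((a : ℤ) + 1) j := by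
    refine ⟨Pi.single a η, X.mem_E₁_cast (by ring) (by ring) hy, ?_⟩
    rw [show (a : ℤ) + 1 - 1 = a by ring]
  have hdyG : X.diff a (Pi.single a η) ∈ X.tot ((a : ℤ) + 1) j :=
    (X.baseComplex.bd_le _ _ hdyb).1
  refine Submodule.mem_sup.2 ⟨x - X.diff a (Pi.single a η), ⟨?_, ?_⟩,
    X.diff a (Pi.single a η), hdyb, by abel⟩
  · rw [SetLike.mem_coe, X.baseComplex.neg]
    exact Submodule.sub_mem _ hx1 hdyG
  · rw [SetLike.mem_coe, LinearMap.mem_ker, hdy]
    set x' : X.C := x - Pi.single (a + 1) (X.res a η) with hx'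
    have e1 : ∀ b, b ≠ a + 1 → x' b = 0 := by
      intro b hb
      rw [hx', Pi.sub_apply, hx0 b hb, Pi.single_eq_of_ne hb, sub_zero]
    have e2 : x' (a + 1) = x (a + 1) - X.res a η := by
      rw [hx', Pi.sub_apply, Pi.single_eq_same]
    funext b
    rw [diff_apply]
    by_cases hc : InColumn (-((a : ℤ) + 1) + 1) b
    · rw [X.cut_of hc, Pi.add_apply, gysC_apply, Pi.zero_apply]
      have hg : X.gys b (x' (b + 1)) = 0 := by
        by_cases hb : b = a
        · subst hb
          rw [e2]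
          exact hη0
        · rw [e1 (b + 1) (by omega), map_zero]
      have hr : X.resC x' b = 0 := by
        cases b with
        | zero => rfl
        | succ b =>
          rw [resC_succ]
          by_cases hb : b = a + 1
          · subst hb
            rw [e2, map_sub, hres, X.res_res, sub_zero]
          · rw [e1 b hb, map_zero]
      rw [hg, hr, add_zero]
    · rw [X.cut_of_not hc]
      rfl

end SpecialFibre

namespace DivisorClasses

variable {X : SpecialFibre.{u, v} Ω Γ n q} (A : DivisorClasses X)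

lemma harmRat (a : ℕ) (ha : a + 1 ≤ n) {x : X.H (a + 1)} (hx : x ∈ RS (A.A0 (a + 1)))
    (hx0 : X.res (a + 1) x = 0) :
    ∃ η ∈ RS (A.A0 a), X.gys a (x - X.res a η) = 0 := by
  obtain ⟨η', hη', hη⟩ := A.repr0 a
    ((X.pair (a + 1) x) ∘ₗ (X.lef (a + 1) ^ (n - (a + 1))) ∘ₗ X.res a)
    (fun η hη => A.rat0 (a + 1) hx (A.RS_res0 a (le_RS _ hη)))
    (fun η _ h0 => by
      rw [LinearMap.comp_apply, LinearMap.comp_apply, h0, map_zero, map_zero])
  refine ⟨η', hη', ?_⟩
  set xh := x - X.res a η' with hxh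
  have hxh0 : xh ∈ RS (A.A0 (a + 1)) := AddSubgroup.sub_mem _ hx (A.RS_res0 a hη')
  have hres : X.res (a + 1) xh = 0 := by rw [hxh, map_sub, hx0, X.res_res, sub_self]
  have horth : ∀ η ∈ A.A0 a, X.pair (a + 1) xh
      ((X.lef (a + 1) ^ (n - (a + 1))) (X.res a η)) = 0 := by
    intro η h
    rw [hxh, map_sub, LinearMap.sub_apply, hη η h]
    simp only [LinearMap.comp_apply, sub_self]
  have hG1 : X.gys a xh ∈ RS (A.A1 a) := A.RS_gys a hxh0
  have hprim : (X.lef a ^ (n - a - 1)) (X.gys a xh) = 0 := by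
    apply A.prim_of_orth
    · have := X.lef_pow_gr a (n - a - 1) 2 _ (A.RS1_le a hG1)
      rwa [show (2 : ℤ) + 2 * ((n - a - 1 : ℕ) : ℤ) = 2 * ((n : ℤ) - a) by omega] at this
    · intro η hη1
      rw [X.lef_pair_pow, X.pair_gys, X.res_lef_pow, show n - a - 1 = n - (a + 1) by omega]
      exact horth η hη1
  have hself : X.pair a (X.gys a xh) ((X.lef a ^ (n - a - 2)) (X.gys a xh)) = 0 := by
    rw [X.pair_gys, X.res_lef_pow]
    have := X.res_gys a xh
    rw [hres, map_zero, add_zero] at this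
    rw [this, map_zero, map_zero]
  exact A.zero_of_pair1 a hG1 hprim hself

include A in
/-- Harmonic representatives in weight zero. -/
lemma harm0 (a : ℕ) {z : X.H (a + 1)} (hz : z ∈ X.gr (a + 1) 0) (hz0 : X.res (a + 1) z = 0) :
    ∃ η ∈ X.gr a 0, X.gys a (z - X.res a η) = 0 := by
  by_cases ha : a + 1 ≤ n
  · obtain ⟨m, e, y, he, hy, rfl⟩ := exists_indep_comb (A.span_A0 (a + 1) hz)
    have hyk : ∀ k, X.res (a + 1) (y k) = 0 := by
      have key : ∀ y' ∈ RS (A.A0 (a + 2)), ∀ k, X.pair (a + 2) (X.res (a + 1) (y k))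
          ((X.lef (a + 2) ^ (n - (a + 2))) y') = 0 := by
        intro y' hy'
        apply coeff_zero he (fun k => A.rat0 (a + 2) (A.RS_res0 (a + 1) (le_RS _ (hy k))) hy')
        have h1 : X.pair (a + 2) (X.res (a + 1) (∑ k, e k • y k))
            ((X.lef (a + 2) ^ (n - (a + 2))) y') = 0 := by
          rw [hz0, map_zero, LinearMap.zero_apply]
        rw [map_sum, map_sum, LinearMap.sum_apply] at h1
        rw [← h1]
        apply Finset.sum_congr rfl
        intro k _
        rw [map_smul, map_smul, LinearMap.smul_apply, smul_eq_mul]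
      intro k
      exact A.zero_of_pair0 (a + 2) (A.RS_res0 (a + 1) (le_RS _ (hy k)))
        (key _ (A.RS_res0 (a + 1) (le_RS _ (hy k))) k)
    choose η hη hη0 using fun k => A.harmRat a ha (le_RS _ (hy k)) (hyk k)
    refine ⟨∑ k, e k • η k, Submodule.sum_mem _ fun k _ => Submodule.smul_mem _ _
      (A.RS0_le _ (hη k)), ?_⟩
    rw [map_sum, ← Finset.sum_sub_distrib, map_sum]
    apply Finset.sum_eq_zero
    intro k _
    rw [map_smul, ← smul_sub, map_smul, hη0, smul_zero]
  · refine ⟨0, Submodule.zero_mem _, ?_⟩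
    rw [X.eq_zero_of_lt (by omega) z, map_zero, sub_zero, map_zero]

include A

/-- The weight zero: `N ^ i` is an isomorphism. -/
theorem nSurj_zero (i : ℤ) (hi : 1 ≤ i) (j : ℤ) (hw : (n : ℤ) + j - i ≤ 0) :
    NSurj X.diff X.tot i j := by
  obtain ⟨a, rfl⟩ : ∃ a : ℕ, i = (a : ℤ) + 1 := ⟨(i - 1).toNat, by omega⟩
  apply X.nSurj_low a j (by omega)
  intro z hz hz0
  rcases lt_or_eq_of_le hw with h | h
  · refine ⟨0, Submodule.zero_mem _, ?_⟩
    rw [gr_zero_of_mem_neg X h hz, map_zero, sub_zero, map_zero]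
  · rw [h] at hz ⊢
    exact A.harm0 a hz hz0

end DivisorClasses

end Pool.Agent.Y143
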