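import Pool.Agent.Y143.LemmaT

/-!
# The key lemma with coefficients, and the weights zero and one
-/

namespace Pool.Agent.Y143

universe u v

open Module

variable {Ω : Type u} [Field Ω] [CharZero Ω] {Γ : Type} {n q : ℕ}

/-- Independence over `ℚ`. -/
lemma coeff_zero {m : ℕ} {e : Fin m → Ω} (he : LinearIndependent ℚ e) {r : Fin m → Ω}
    (hr : ∀ k, IsRat (r k)) (h : ∑ k, e k * r k = 0) (k : Fin m) : r k = 0 := by
  choose s hs using hr
  have h1 : ∑ k, s k • e k = 0 := by
    rw [← h]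
    apply Finset.sum_congr rfl
    intro k _
    rw [← hs, Rat.smul_def, mul_comm]
  have h2 := (Fintype.linearIndependent_iff.1 he) s h1 k
  rw [← hs, h2]
  simp

namespace DivisorClasses

variable {X : SpecialFibre.{u, v} Ω Γ n q} (A : DivisorClasses X)

/-- **Key lemma.** Let `y` be a combination of divisor classes on `Y^(a+1)` with
`gys (res y) = 0`. Then `res y = gys u` for a class `u` on `Y^(a+3)` with `res u = 0`. -/
theorem key (a : ℕ) (ha : a + 3 ≤ n) {y : X.H a}
    (hy : y ∈ Submodule.span Ω (A.A1 a : Set (X.H a))) (h0 : X.gys a (X.res a y) = 0) :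
    ∃ u ∈ X.gr (a + 2) 0, X.res a y = X.gys (a + 1) u ∧ X.res (a + 2) u = 0 := by
  obtain ⟨m, e, z, he, hz, rfl⟩ := exists_indep_comb hy
  have hpair : ∀ y' ∈ A.A1 a, ∀ k, X.pair (a + 1) (X.res a (z k))
      ((X.lef (a + 1) ^ (n - (a + 1) - 2)) (X.res a y')) = 0 := by
    intro y' hy'
    apply coeff_zero he (fun k => A.rat1 (a + 1) (A.RS_res1 a (le_RS _ (hz k)))
      (A.RS_res1 a (le_RS _ hy')))
    have h1 : X.pair (a + 1) (X.res a (∑ k, e k • z k))
        ((X.lef (a + 1) ^ (n - (a + 1) - 2)) (X.res a y')) = 0 := by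
      rw [← X.res_lef_pow, ← X.pair_gys, h0, map_zero, LinearMap.zero_apply]
    rw [map_sum, map_sum, LinearMap.sum_apply] at h1
    rw [← h1]
    apply Finset.sum_congr rfl
    intro k _
    rw [map_smul, map_smul, LinearMap.smul_apply, smul_eq_mul]
  have hk : ∀ k, ∃ u ∈ RS (A.A0 (a + 2)), X.res a (z k) = X.gys (a + 1) u ∧
      X.res (a + 2) u = 0 := by
    intro k
    apply A.keyRat a ha (le_RS _ (hz k)) (hpair _ (hz k) k)
    intro η hη
    have h1 := hpair _ (A.lef_A0 a η hη) k
    rw [X.res_lef, ← Module.End.mul_apply (X.lef (a + 1) ^ (n - (a + 1) - 2)) (X.lef (a + 1)),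
      ← pow_succ, show n - (a + 1) - 2 + 1 = n - (a + 1) - 1 by omega] at h1
    exact h1
  choose u hu1 hu2 hu3 using hk
  refine ⟨∑ k, e k • u k, Submodule.sum_mem _ fun k _ => Submodule.smul_mem _ _
    (A.RS0_le _ (hu1 k)), ?_, ?_⟩
  · rw [map_sum, map_sum]
    apply Finset.sum_congr rfl
    intro k _
    rw [map_smul, map_smul, hu2]
  · rw [map_sum]
    apply Finset.sum_eq_zero
    intro k _
    rw [map_smul, hu3, smul_zero]

include A

/-- The weight zero. -/
theorem key0 (a : ℕ) {y : X.H a} (hy : y ∈ X.gr a 0)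
    (h0 : X.gys a (X.res a y) = 0) : X.res a y = 0 := by
  obtain ⟨m, e, z, he, hz, rfl⟩ := exists_indep_comb (A.span_A0 a hy)
  have hk : ∀ k, X.res a (z k) = 0 := by
    intro k
    apply A.zero_of_pair0 (a + 1) (A.RS_res0 a (le_RS _ (hz k)))
    revert k
    have : ∀ y' ∈ A.A0 a, ∀ k, X.pair (a + 1) (X.res a (z k))
        ((X.lef (a + 1) ^ (n - (a + 1))) (X.res a y')) = 0 := by
      intro y' hy'
      apply coeff_zero he (fun k => A.rat0 (a + 1) (A.RS_res0 a (le_RS _ (hz k)))
        (A.RS_res0 a (le_RS _ hy')))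
      have h1 : X.pair (a + 1) (X.res a (∑ k, e k • z k))
          ((X.lef (a + 1) ^ (n - (a + 1))) (X.res a y')) = 0 := by
        rw [← X.res_lef_pow, ← X.pair_gys, h0, map_zero, LinearMap.zero_apply]
      rw [map_sum, map_sum, LinearMap.sum_apply] at h1
      rw [← h1]
      apply Finset.sum_congr rfl
      intro k _
      rw [map_smul, map_smul, LinearMap.smul_apply, smul_eq_mul]
    exact fun k => this _ (hz k) k
  rw [map_sum]
  apply Finset.sum_eq_zero
  intro k _
  rw [map_smul, hk, smul_zero]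

/-- The weight one. -/
theorem key1 (a : ℕ) {y : X.H a} (hy : y ∈ X.gr a 1)
    (h0 : X.gys a (X.res a y) = 0) : X.res a y = 0 := by
  apply A.weil_one a y hy
  intro y' _
  rw [← X.res_lef_pow, ← X.pair_gys, h0, map_zero, LinearMap.zero_apply]

end DivisorClasses

end Pool.Agent.Y143
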