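import Pool.Agent.Y143.LowWeight

/-!
# The key lemma for divisor classes
-/

namespace Pool.Agent.Y143

universe u v

open Module

variable {Ω : Type u} [Field Ω] [CharZero Ω] {Γ : Type} {n q : ℕ}

lemma eq_on_closure {H : Type*} [AddCommGroup H] [Module Ω H] {A : AddSubgroup H} {S : Finset H}
    (hS : AddSubgroup.closure (S : Set H) = A) (φ φ' : H →ₗ[Ω] Ω) (h : ∀ x ∈ S, φ x = φ' x) :
    ∀ x ∈ A, φ x = φ' x := by
  intro x hx
  rw [← hS] at hx
  refine AddSubgroup.closure_induction (p := fun x _ => φ x = φ' x) (fun x hx => h x hx) ?_ ?_ ?_ hx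
  · simp
  · intro x y _ _ hx hy
    rw [map_add, map_add, hx, hy]
  · intro x _ hx
    rw [map_neg, map_neg, hx]

lemma eq_on_RS {H : Type*} [AddCommGroup H] [Module Ω H] {A : AddSubgroup H}
    (φ φ' : H →ₗ[Ω] Ω) (h : ∀ x ∈ A, φ x = φ' x) : ∀ x ∈ RS A, φ x = φ' x := by
  rintro x ⟨N, hN, hx⟩
  have := h _ hx
  rw [← Nat.cast_smul_eq_nsmul Ω, map_smul, map_smul, smul_eq_mul, smul_eq_mul] at this
  exact mul_left_cancel₀ (Nat.cast_ne_zero.2 hN) this

namespace DivisorClasses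

variable {X : SpecialFibre.{u, v} Ω Γ n q} (A : DivisorClasses X)

/-- The form `(res x, res y)` on `H^0(Y^(a+1))`. -/
noncomputable def form0 (X : SpecialFibre.{u, v} Ω Γ n q) (a : ℕ) : X.H a →ₗ[Ω] X.H a →ₗ[Ω] Ω :=
  (X.pair (a + 1)).compl₁₂ (X.res a) ((X.lef (a + 1) ^ (n - (a + 1))) ∘ₗ X.res a)

lemma form0_apply (a : ℕ) (x y : X.H a) : form0 X a x y =
    X.pair (a + 1) (X.res a x) ((X.lef (a + 1) ^ (n - (a + 1))) (X.res a y)) := rfl

/-- Representability of functionals by the form `(res x, res y)`. -/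
lemma repr0 (a : ℕ) (φ : X.H a →ₗ[Ω] Ω) (hφ : ∀ x ∈ A.A0 a, IsRat (φ x))
    (hker : ∀ x ∈ RS (A.A0 a), X.res a x = 0 → φ x = 0) :
    ∃ w ∈ RS (A.A0 a), ∀ x ∈ A.A0 a, X.pair (a + 1) (X.res a w)
      ((X.lef (a + 1) ^ (n - (a + 1))) (X.res a x)) = φ x := by
  classical
  obtain ⟨S, hS⟩ := A.fg0 a
  have hSA : ∀ i : S, (i : X.H a) ∈ A.A0 a := fun i => by
    rw [← hS]
    exact AddSubgroup.subset_closure i.2
  have hcomb : ∀ c : S → ℚ, (∑ i, (c i : Ω) • (i : X.H a)) ∈ RS (A.A0 a) := fun c =>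
    RS_sum Finset.univ c (fun i : S => (i : X.H a)) (fun i _ => le_RS _ (hSA i))
  obtain ⟨w, hw⟩ := riesz_fam (fun i : S => (i : X.H a)) (form0 X a) φ
    (fun i j => by
      rw [form0_apply]
      exact A.rat0 (a + 1) (A.RS_res0 a (le_RS _ (hSA i))) (A.RS_res0 a (le_RS _ (hSA j))))
    (fun i => hφ _ (hSA i))
    (fun c hc => by
      apply hker _ (hcomb c)
      apply A.zero_of_pair0 (a + 1) (A.RS_res0 a (hcomb c))
      rw [← form0_apply]
      have h1 : ∀ x ∈ RS (A.A0 a), (form0 X a).flip (∑ i, (c i : Ω) • (i : X.H a)) x =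
          (0 : X.H a →ₗ[Ω] Ω) x :=
        eq_on_RS _ _ (eq_on_closure hS _ _ (fun x hx => hc ⟨x, hx⟩))
      exact h1 _ (hcomb c))
  refine ⟨_, hcomb w, ?_⟩
  exact eq_on_closure hS (form0 X a (∑ i, (w i : Ω) • (i : X.H a))) φ (fun x hx => hw ⟨x, hx⟩)

variable (a : ℕ) (ha : a + 3 ≤ n)

include ha

/-- First step: orthogonality to the kernel of the restriction. -/
lemma stepA {y : X.H a}
    (h2 : ∀ η ∈ A.A0 a, X.pair (a + 1) (X.res a y)
      ((X.lef (a + 1) ^ (n - (a + 1) - 1)) (X.res a η)) = 0)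
    {x : X.H (a + 1)} (hx : x ∈ RS (A.A0 (a + 1))) (hx0 : X.res (a + 1) x = 0) :
    X.pair (a + 1) (X.res a y) ((X.lef (a + 1) ^ (n - (a + 1) - 1)) x) = 0 := by
  -- projection of `x` to the image of the restriction
  obtain ⟨η', hη', hη⟩ := A.repr0 a
    ((X.pair (a + 1) x) ∘ₗ (X.lef (a + 1) ^ (n - (a + 1))) ∘ₗ X.res a)
    (fun η hη => A.rat0 (a + 1) hx (A.RS_res0 a (le_RS _ hη)))
    (fun η _ h0 => by
      rw [LinearMap.comp_apply, LinearMap.comp_apply, h0, map_zero, map_zero])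
  set xh := x - X.res a η' with hxh
  have hxh0 : xh ∈ RS (A.A0 (a + 1)) := AddSubgroup.sub_mem _ hx (A.RS_res0 a hη')
  have hres : X.res (a + 1) xh = 0 := by rw [hxh, map_sub, hx0, X.res_res, sub_self]
  have horth : ∀ η ∈ A.A0 a, X.pair (a + 1) xh
      ((X.lef (a + 1) ^ (n - (a + 1))) (X.res a η)) = 0 := by
    intro η h
    rw [hxh, map_sub, LinearMap.sub_apply, hη η h]
    simp only [LinearMap.comp_apply, sub_self]
  -- the Gysin image of the harmonic part vanishes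
  have hG1 : X.gys a xh ∈ RS (A.A1 a) := A.RS_gys a hxh0
  have hprim : (X.lef a ^ (n - a - 1)) (X.gys a xh) = 0 := by
    apply A.prim_of_orth
    · have := X.lef_pow_gr a (n - a - 1) 2 _ (A.RS1_le a hG1)
      rwa [show (2 : ℤ) + 2 * ((n - a - 1 : ℕ) : ℤ) = 2 * ((n : ℤ) - a) by omega] at this
    · intro η hη1
      rw [X.lef_pair_pow, X.pair_gys, X.res_lef_pow, show n - a - 1 = n - (a + 1) by omega]
      exact horth η hη1
  have hself : X.pair a (X.gys a xh) ((X.lef a ^ (n - a - 2)) (X.gys a xh)) = 0 := by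
    rw [X.pair_gys, X.res_lef_pow]
    have := X.res_gys a xh
    rw [hres, map_zero, add_zero] at this
    rw [this, map_zero, map_zero]
  have hG0 : X.gys a xh = 0 := A.zero_of_pair1 a hG1 hprim hself
  have e1 : X.pair (a + 1) (X.res a y) ((X.lef (a + 1) ^ (n - (a + 1) - 1)) xh) = 0 := by
    rw [X.pair_res, X.gys_lef_pow, hG0, map_zero, map_zero]
  have e2 : X.pair (a + 1) (X.res a y)
      ((X.lef (a + 1) ^ (n - (a + 1) - 1)) (X.res a η')) = 0 :=
    eq_on_RS (A := A.A0 a)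
      ((X.pair (a + 1) (X.res a y)) ∘ₗ (X.lef (a + 1) ^ (n - (a + 1) - 1)) ∘ₗ X.res a) 0
      (fun η h => h2 η h) η' hη'
  have e3 : x = xh + X.res a η' := by rw [hxh]; abel
  rw [e3, map_add, map_add, e1, e2, add_zero]

/-- **Key lemma.** Let `y` be a rational combination of divisor classes on `Y^(a+1)` such that
`res y` is orthogonal to itself and to the restrictions of the classes of the components. Then
`res y` is the Gysin image of a class `u` on `Y^(a+3)` with `res u = 0`. -/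
theorem keyRat {y : X.H a} (hy : y ∈ RS (A.A1 a))
    (h1 : X.pair (a + 1) (X.res a y) ((X.lef (a + 1) ^ (n - (a + 1) - 2)) (X.res a y)) = 0)
    (h2 : ∀ η ∈ A.A0 a, X.pair (a + 1) (X.res a y)
      ((X.lef (a + 1) ^ (n - (a + 1) - 1)) (X.res a η)) = 0) :
    ∃ u ∈ RS (A.A0 (a + 2)), X.res a y = X.gys (a + 1) u ∧ X.res (a + 2) u = 0 := by
  have hexp : ∀ x : X.H (a + 1), (X.lef (a + 1) ^ (n - (a + 1) - 1)) x =
      (X.lef (a + 1) ^ (n - (a + 1) - 2)) (X.lef (a + 1) x) := by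
    intro x
    rw [← Module.End.mul_apply, ← pow_succ]
    congr 2
    omega
  obtain ⟨w, hw, hwx⟩ := A.repr0 (a + 1)
    ((X.pair (a + 1) (X.res a y)) ∘ₗ (X.lef (a + 1) ^ (n - (a + 1) - 1)))
    (fun x hx => by
      rw [LinearMap.comp_apply, hexp]
      exact A.rat1 (a + 1) (A.RS_res1 a hy) (A.RS_lef _ (le_RS _ hx)))
    (fun x hx h0 => A.stepA a ha h2 hx h0)
  set u := X.res (a + 1) w with hu
  have hu1 : u ∈ RS (A.A0 (a + 2)) := A.RS_res0 _ hw
  have hu0 : X.res (a + 2) u = 0 := X.res_res _ _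
  refine ⟨u, hu1, ?_, hu0⟩
  set t := X.res a y - X.gys (a + 1) u with ht
  have ht1 : t ∈ RS (A.A1 (a + 1)) :=
    AddSubgroup.sub_mem _ (A.RS_res1 a hy) (A.RS_gys _ hu1)
  suffices t = 0 from sub_eq_zero.1 this
  apply A.zero_of_pair1 (a + 1) ht1
  · apply A.prim_of_orth
    · have := X.lef_pow_gr (a + 1) (n - (a + 1) - 1) 2 _ (A.RS1_le _ ht1)
      rwa [show (2 : ℤ) + 2 * ((n - (a + 1) - 1 : ℕ) : ℤ) = 2 * ((n : ℤ) - (a + 1 : ℕ)) by
        push_cast; omega] at this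
    · intro x hx
      rw [X.lef_pair_pow, ht, map_sub, LinearMap.sub_apply, X.pair_gys, X.res_lef_pow]
      have := hwx x hx
      rw [LinearMap.comp_apply] at this
      rw [← this, show n - (a + 1) - 1 = n - (a + 1 + 1) by omega, sub_self]
  · have e1 : X.pair (a + 1) (X.res a y)
        ((X.lef (a + 1) ^ (n - (a + 1) - 2)) (X.gys (a + 1) u)) = 0 := by
      rw [← X.gys_lef_pow, ← X.pair_res, X.res_res, map_zero, LinearMap.zero_apply]
    have e2 : X.pair (a + 1) (X.gys (a + 1) u)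
        ((X.lef (a + 1) ^ (n - (a + 1) - 2)) (X.res a y)) = 0 := by
      rw [X.pair_gys, X.res_lef_pow, X.res_res, map_zero, map_zero]
    have e3 : X.pair (a + 1) (X.gys (a + 1) u)
        ((X.lef (a + 1) ^ (n - (a + 1) - 2)) (X.gys (a + 1) u)) = 0 := by
      rw [X.pair_gys, X.res_lef_pow]
      have := X.res_gys (a + 1) u
      rw [hu0, map_zero, add_zero] at this
      rw [this, map_zero, map_zero]
    rw [ht, map_sub, map_sub, map_sub, LinearMap.sub_apply, LinearMap.sub_apply, h1, e1, e2, e3]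
    simp

end DivisorClasses

end Pool.Agent.Y143
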