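import Pool.Agent.Y143.Rigid

/-!
# The extreme weights
-/

namespace Pool.Agent.Y143

universe u v

open Module

section Base

variable {Ω : Type*} [Field Ω] {C : Type*} [AddCommGroup C] [Module Ω C]
  {ψ : C →ₗ[Ω] C →ₗ[Ω] Ω} {d : ℤ → Module.End Ω C} {G : ℤ → ℤ → Submodule Ω C}

variable [FiniteDimensional Ω C]

/-- Injectivity in the degree `-j` implies surjectivity in the dual degree `j`. -/
lemma BaseComplex.nSurj_of_nInj (h : BaseComplex ψ d G) (i : ℤ) (hi : 1 ≤ i) (j : ℤ)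
    (hI : NInj d G i (-j)) : NSurj d G i j := by
  have hU : Zc d G (-i) j ⊔ Bd d G i j ≤ G i j :=
    sup_le ((h.zc_neg_le i hi j).trans inf_le_left) ((h.bd_le i j).trans inf_le_left)
  have h1 := (h.perf i j).annR_annR hU
  have h2 := (h.perf i j).annR_annR (show Zc d G i j ≤ G i j from inf_le_left)
  have e1 : annR ψ (Zc d G (-i) j) (G (-i) (-j)) = Bd d G i (-j) := by
    have := h.annR_zc (-i) j
    rw [neg_neg, ← h.neg i (-j)] at this
    exact this
  have e2 : annR ψ (Zc d G (-i) j ⊔ Bd d G i j) (G (-i) (-j)) ≤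
      annR ψ (Zc d G i j) (G (-i) (-j)) := by
    rw [annR_sup, e1, h.annR_bd, h.annR_zc]
    exact (le_of_eq (inf_comm _ _)).trans hI
  have e3 := annR_mono (ψ := ψ.flip) (A' := G i j) e2
  rw [h1, h2] at e3
  exact e3

end Base

variable {Ω : Type u} [Field Ω] [CharZero Ω] {Γ : Type} {n q : ℕ}

namespace SpecialFibre

variable (X : SpecialFibre.{u, v} Ω Γ n q)

lemma tot_bot (i j : ℤ) (h : (n : ℤ) < |i| + |j|) : X.tot i j = ⊥ := by
  rw [eq_bot_iff]
  intro x hx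
  rw [Submodule.mem_bot]
  funext a
  by_cases hc : InColumn i a
  · have h1 := (hx a).1
    have h2 : X.gr a ((n : ℤ) + j - i + i - a) = ⊥ := by
      apply X.gr_eq_bot
      have := hc.1
      rcases lt_or_ge j 0 with hj | hj
      · rw [abs_of_neg hj] at h
        left; omega
      · rw [abs_of_nonneg hj] at h
        right; omega
    rw [h2] at h1
    exact h1
  · exact (hx a).2 hc

end SpecialFibre

namespace SemistableModel

variable (X : SemistableModel.{u, v} Ω Γ n q)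

/-- The graded piece of weight `w` vanishes if the `E_1` term does. -/
lemma W_step (m : ℕ) (w : ℤ) (h : (n : ℤ) < |(m : ℤ) - w| + |(m : ℤ) - n|) :
    X.W m w = X.W m (w - 1) := by
  apply le_antisymm
  · intro v hv
    obtain ⟨x, hx⟩ := X.sp_left m w v hv
    have h1 := (X.sp_mem m _ _ _ hx).2
    have h2 : x ∈ X.tot ((m : ℤ) - w) ((m : ℤ) - n) :=
      X.mem_E₁_cast rfl (by ring) h1.1
    rw [X.tot_bot _ _ h, Submodule.mem_bot] at h2
    rw [X.sp_ker m _ _ _ hx, h2]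
    exact Submodule.zero_mem _
  · exact X.W_mono m (by omega)

lemma W_eq_bot (m : ℕ) (w : ℤ) (h : (n : ℤ) < (m : ℤ) - w + |(m : ℤ) - n|) (hw : w < m) :
    X.W m w = ⊥ := by
  obtain ⟨w₀, h0⟩ := X.W_bot m
  by_cases hle : w ≤ w₀
  · rw [eq_bot_iff, ← h0]
    exact X.W_mono m hle
  · have key : ∀ k : ℕ, w₀ + k ≤ w → X.W m (w₀ + k) = ⊥ := by
      intro k
      induction k with
      | zero => intro _; simpa using h0
      | succ k ih =>
        intro hk
        have := X.W_step m (w₀ + (k + 1 : ℕ)) (by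
          rw [abs_of_nonneg (a := (m : ℤ) - (w₀ + (k + 1 : ℕ))) (by omega)]
          omega)
        rw [this, show w₀ + ((k + 1 : ℕ) : ℤ) - 1 = w₀ + k by push_cast; ring]
        exact ih (by push_cast at hk; omega)
    have := key (w - w₀).toNat (by omega)
    rwa [show w₀ + ((w - w₀).toNat : ℤ) = w by omega] at this

lemma W_eq_top (m : ℕ) (w : ℤ) (h : (n : ℤ) ≤ w - (m : ℤ) + |(m : ℤ) - n|) (hw : (m : ℤ) ≤ w) :
    X.W m w = ⊤ := by
  obtain ⟨w₀, h0⟩ := X.W_top m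
  by_cases hle : w₀ ≤ w
  · rw [eq_top_iff, ← h0]
    exact X.W_mono m hle
  · have key : ∀ k : ℕ, w ≤ w₀ - k → X.W m (w₀ - k) = ⊤ := by
      intro k
      induction k with
      | zero => intro _; simpa using h0
      | succ k ih =>
        intro hk
        have := X.W_step m (w₀ - k) (by
          rw [abs_of_neg (a := (m : ℤ) - (w₀ - k)) (by push_cast at hk; omega)]
          push_cast at hk
          omega)
        rw [ih (by push_cast at hk; omega)] at this
        rw [show w₀ - ((k + 1 : ℕ) : ℤ) = w₀ - k - 1 by push_cast; ring]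
        exact this.symm
    have := key (w₀ - w).toNat (by omega)
    rwa [show w₀ - ((w₀ - w).toNat : ℤ) = w by omega] at this

lemma N_W (m : ℕ) (w : ℤ) (a : ℕ) {v : X.V m} (hv : v ∈ X.W m w) :
    (X.N m ^ a) v ∈ X.W m (w - 2 * a) := by
  induction a with
  | zero => simpa using hv
  | succ a ih =>
    obtain ⟨x, hx⟩ := X.sp_left m _ _ ih
    have := (X.sp_mem m _ _ _ (X.sp_N m _ _ _ hx)).1
    rw [← Module.End.mul_apply, ← pow_succ'] at this
    exact X.W_cast (by push_cast; ring) this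

lemma act_W (m : ℕ) (w : ℤ) (g : Γ) {v : X.V m} (hv : v ∈ X.W m w) : X.actV m g v ∈ X.W m w := by
  obtain ⟨x, hx⟩ := X.sp_left m _ _ hv
  exact (X.sp_mem m _ _ _ (X.sp_act m _ v x g hx)).1

lemma inj_level (m a : ℕ) (hI : NInj X.diff X.tot a ((m : ℤ) - n)) {v : X.V m}
    (hv : v ∈ X.W m ((m : ℤ) + a)) (hN : (X.N m ^ a) v ∈ X.W m ((m : ℤ) - a - 1)) :
    v ∈ X.W m ((m : ℤ) + a - 1) := by
  have hbd : ∀ (a : ℤ), Bd X.diff X.tot a ((m : ℤ) - n) = X.coboundaries a (m - a) := by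
    intro a
    rw [X.bd_eq]
    congr 1
    ring
  have hzc : ∀ (a : ℤ), Zc X.diff X.tot a ((m : ℤ) - n) = X.cocycles a (m - a) := by
    intro a
    rw [X.zc_eq]
    congr 1
    ring
  obtain ⟨x, hx⟩ := X.sp_left m _ v hv
  have h1 := X.N_pow_sp hx a le_rfl
  have h2 := (X.sp_ker m _ _ _ h1).1 (X.W_cast (by ring) hN)
  have h3 := (X.sp_mem m _ _ _ hx).2
  rw [show (m : ℤ) - ((m : ℤ) + a - 2 * a) = a by ring,
    show (m : ℤ) + a - 2 * a = m - a by ring, ← hbd] at h2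
  have h4 : x ∈ Zc X.diff X.tot (-a) ((m : ℤ) - n) := by
    rw [hzc]
    rwa [show (m : ℤ) - (m + a) = -a by ring, show (m : ℤ) + a = m - -a by ring] at h3
  have h5 := hI ⟨h4, h2⟩
  rw [hbd] at h5
  exact (X.sp_ker m _ _ _ hx).2 (by
    rwa [show (m : ℤ) - (m + a) = -a by ring, show (m : ℤ) + a = m - -a by ring])

lemma surj_level (m a : ℕ) (hS : NSurj X.diff X.tot a ((m : ℤ) - n)) {v : X.V m}
    (hv : v ∈ X.W m ((m : ℤ) - a)) :
    ∃ x ∈ X.W m ((m : ℤ) + a), v - (X.N m ^ a) x ∈ X.W m ((m : ℤ) - a - 1) := by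
  have hbd : ∀ (a : ℤ), Bd X.diff X.tot a ((m : ℤ) - n) = X.coboundaries a (m - a) := by
    intro a
    rw [X.bd_eq]
    congr 1
    ring
  have hzc : ∀ (a : ℤ), Zc X.diff X.tot a ((m : ℤ) - n) = X.cocycles a (m - a) := by
    intro a
    rw [X.zc_eq]
    congr 1
    ring
  obtain ⟨y, hy⟩ := X.sp_left m _ v hv
  have h1 := (X.sp_mem m _ _ _ hy).2
  rw [show (m : ℤ) - (m - a) = a by ring, ← hzc] at h1
  obtain ⟨x, hx, b, hb, hxb⟩ := Submodule.mem_sup.1 (hS h1)
  rw [hzc] at hx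
  obtain ⟨v', hv'⟩ := X.sp_right m ((m : ℤ) + a) x (by
    rwa [show (m : ℤ) - (m + a) = -a by ring, show (m : ℤ) + a = m - -a by ring])
  refine ⟨v', (X.sp_mem m _ _ _ hv').1, ?_⟩
  have h2 := X.N_pow_sp hv' a le_rfl
  have h3 : (v - (X.N m ^ a) v', b) ∈ X.sp m ((m : ℤ) - a) := by
    have h4 := Submodule.sub_mem _ hy
      (X.sp_cast (show (m : ℤ) + a - 2 * a = m - a by ring) h2)
    have h5 : b = y - x := by rw [← hxb]; abel
    rw [h5]
    exact h4
  exact (X.sp_ker m _ _ _ h3).2 (by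
    rw [show (m : ℤ) - (m - a) = a by ring, ← hbd]
    exact hb)

lemma weil_level (m : ℕ) (w : ℤ) (α : Ω) {v : X.V m} (hv : v ∈ X.W m w)
    (hv' : v ∉ X.W m (w - 1)) (hα : X.actV m X.frob v - α • v ∈ X.W m (w - 1)) :
    IsWeilNumber q w α := by
  obtain ⟨x, hx⟩ := X.sp_left m _ v hv
  have h1 := (X.sp_mem m _ _ _ hx).2
  have h2 : x ∉ X.coboundaries (m - w) w := fun hc => hv' ((X.sp_ker m _ _ _ hx).2 hc)
  have h3 : (X.actV m X.frob v - α • v, X.actC (m - w) X.frob x - α • x) ∈ X.sp m w :=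
    Submodule.sub_mem _ (X.sp_act m _ v x X.frob hx) (Submodule.smul_mem _ α hx)
  have h5 : X.actC (m - w) X.frob x - α • x ∈ X.coboundaries (m - w) w :=
    (X.sp_ker m _ _ _ h3).1 hα
  obtain ⟨y, hy, hy0, hyα⟩ := exists_eigen (S := X.actC (m - w) X.frob)
    (X.bd_le_zc _ _) (fun x hx => X.actC_bd _ _ _ hx) h1 h2 h5
  exact X.weil_E₁ hy.1 hy0 hyα

/-- The commutation of `N ^ a` with the Frobenius on the graded pieces of the weight filtration. -/
lemma comm_level (m a : ℕ) {v : X.V m} (hv : v ∈ X.W m ((m : ℤ) + a)) :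
    (X.N m ^ a) (X.actV m X.frob v) - (q : Ω) ^ a • X.actV m X.frob ((X.N m ^ a) v) ∈
      X.W m ((m : ℤ) - a - 1) := by
  obtain ⟨x, hx⟩ := X.sp_left m _ v hv
  have h1 := X.N_pow_sp hx a le_rfl
  have h2 := X.N_pow_sp (X.sp_act m _ v x X.frob hx) a le_rfl
  have h3 := X.sp_act m _ _ _ X.frob h1
  have h4 := Submodule.sub_mem _ h2 (Submodule.smul_mem _ ((q : Ω) ^ a) h3)
  have h5 : X.actC ((m : ℤ) - (m + a)) X.frob x -
      (q : Ω) ^ a • X.actC ((m : ℤ) - (m + a - 2 * a)) X.frob x = 0 := by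
    funext b
    rw [Pi.sub_apply, Pi.smul_apply, SpecialFibre.actC_apply, SpecialFibre.actC_apply, smul_smul,
      Units.val_zpow_eq_zpow_val, Units.val_zpow_eq_zpow_val, X.cyc_frob, ← zpow_natCast,
      ← zpow_add₀ (Nat.cast_ne_zero.2 X.q_ne)]
    rw [show (a : ℤ) + ((b : ℤ) - ((m : ℤ) - (m + a - 2 * a))) / 2 =
      ((b : ℤ) - ((m : ℤ) - (m + a))) / 2 by omega, sub_self]
    rfl
  have h6 : ((X.N m ^ a) (X.actV m X.frob v) - (q : Ω) ^ a • X.actV m X.frob ((X.N m ^ a) v),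
      X.actC ((m : ℤ) - (m + a)) X.frob x -
      (q : Ω) ^ a • X.actC ((m : ℤ) - (m + a - 2 * a)) X.frob x) ∈ X.sp m ((m : ℤ) + a - 2 * a) := h4
  have h7 := (X.sp_ker m _ _ _ h6).2 (by rw [h5]; exact Submodule.zero_mem _)
  exact X.W_cast (by ring) h7

end SemistableModel

end Pool.Agent.Y143
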