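import Mathlib

/-!
# Rational structures and representability of functionals
-/

namespace Pool.Agent.Y143

open Module Submodule

variable {Ω : Type*} [Field Ω] [CharZero Ω]

/-- `x` is a rational number. -/
def IsRat (x : Ω) : Prop := ∃ r : ℚ, (r : Ω) = x

lemma IsRat.zero : IsRat (0 : Ω) := ⟨0, by simp⟩

lemma IsRat.add {x y : Ω} (hx : IsRat x) (hy : IsRat y) : IsRat (x + y) := by
  obtain ⟨r, rfl⟩ := hx
  obtain ⟨s, rfl⟩ := hy
  exact ⟨r + s, by push_cast; rfl⟩

lemma IsRat.mul_rat {x : Ω} (hx : IsRat x) (s : ℚ) : IsRat ((s : Ω) * x) := by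
  obtain ⟨r, rfl⟩ := hx
  exact ⟨s * r, by push_cast; rfl⟩

lemma IsRat.of_mul {x : Ω} {N : ℕ} (hN : N ≠ 0) (h : IsRat ((N : Ω) * x)) : IsRat x := by
  have := h.mul_rat ((N : ℚ)⁻¹)
  rwa [← mul_assoc, show (((N : ℚ)⁻¹ : ℚ) : Ω) * (N : Ω) = 1 by
    push_cast; exact inv_mul_cancel₀ (Nat.cast_ne_zero.2 hN), one_mul] at this

lemma isRat_int {x : Ω} (h : ∃ k : ℤ, x = k) : IsRat x := by
  obtain ⟨k, rfl⟩ := h
  exact ⟨k, by push_cast; rfl⟩

lemma riesz {V : Type*} [AddCommGroup V] [Module ℚ V] [FiniteDimensional ℚ V]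
    (B : V →ₗ[ℚ] V →ₗ[ℚ] ℚ) (φ : V →ₗ[ℚ] ℚ) (h : ∀ x, (∀ y, B y x = 0) → φ x = 0) :
    ∃ w, ∀ x, B w x = φ x := by
  have h1 : φ ∈ LinearMap.range (B.flip).dualMap := by
    rw [LinearMap.range_dualMap_eq_dualAnnihilator_ker]
    rw [Submodule.mem_dualAnnihilator]
    intro x hx
    apply h
    intro y
    have := LinearMap.congr_fun (show B.flip x = 0 from hx) y
    exact this
  obtain ⟨F, hF⟩ := h1
  obtain ⟨w, rfl⟩ := (Module.evalEquiv ℚ V).surjective F
  refine ⟨w, fun x => ?_⟩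
  rw [← hF]
  rfl

variable {H : Type*} [AddCommGroup H] [Module Ω H]

/-- Representability of a rational functional on a finite family of vectors. -/
lemma riesz_fam {ι : Type*} [Fintype ι] [DecidableEq ι] (e : ι → H) (B : H →ₗ[Ω] H →ₗ[Ω] Ω)
    (φ : H →ₗ[Ω] Ω) (hB : ∀ i j, IsRat (B (e i) (e j))) (hφ : ∀ i, IsRat (φ (e i)))
    (h : ∀ c : ι → ℚ, (∀ j, B (e j) (∑ i, (c i : Ω) • e i) = 0) →
      φ (∑ i, (c i : Ω) • e i) = 0) :
    ∃ w : ι → ℚ, ∀ j, B (∑ i, (w i : Ω) • e i) (e j) = φ (e j) := by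
  choose M hM using hB
  choose f hf using hφ
  let B' : (ι → ℚ) →ₗ[ℚ] (ι → ℚ) →ₗ[ℚ] ℚ := Matrix.toLinearMap₂' ℚ (Matrix.of M)
  let φ' : (ι → ℚ) →ₗ[ℚ] ℚ := ∑ i, f i • LinearMap.proj i
  have hB' : ∀ c c' : ι → ℚ, ((B' c c' : ℚ) : Ω) =
      B (∑ i, (c i : Ω) • e i) (∑ i, (c' i : Ω) • e i) := by
    intro c c'
    simp only [B', Matrix.toLinearMap₂'_apply, map_sum, LinearMap.sum_apply, map_smul,
      LinearMap.smul_apply, smul_eq_mul, ← hM, Matrix.of_apply]
    push_cast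
    rw [Finset.sum_comm]
    simp only [Finset.mul_sum]
    apply Finset.sum_congr rfl
    intro i _
    apply Finset.sum_congr rfl
    intro j _
    ring
  have hφ' : ∀ c : ι → ℚ, ((φ' c : ℚ) : Ω) = φ (∑ i, (c i : Ω) • e i) := by
    intro c
    simp only [φ', LinearMap.sum_apply, LinearMap.smul_apply, LinearMap.proj_apply, smul_eq_mul,
      map_sum, map_smul, ← hf]
    push_cast
    apply Finset.sum_congr rfl
    intro i _
    ring
  have hsingle : ∀ j, (∑ i, ((Pi.single j (1 : ℚ) : ι → ℚ) i : Ω) • e i) = e j := by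
    intro j
    rw [Finset.sum_eq_single j]
    · simp
    · intro b _ hb
      rw [Pi.single_eq_of_ne hb]
      simp
    · intro h
      exact absurd (Finset.mem_univ j) h
  obtain ⟨w, hw⟩ := riesz B' φ' (by
    intro x hx
    have h1 : ((φ' x : ℚ) : Ω) = 0 := by
      rw [hφ']
      apply h
      intro j
      have := hx (Pi.single j 1)
      have h2 := hB' (Pi.single j 1) x
      rw [this, hsingle] at h2
      rw [← h2]
      simp
    exact_mod_cast h1)
  refine ⟨w, fun j => ?_⟩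
  have h1 := hB' w (Pi.single j 1)
  have h2 := hφ' (Pi.single j 1)
  rw [hsingle] at h1 h2
  rw [← h1, ← h2, hw]

/-- The vectors with a nonzero multiple in `A`. -/
def RS (A : AddSubgroup H) : AddSubgroup H where
  carrier := {x | ∃ N : ℕ, N ≠ 0 ∧ N • x ∈ A}
  add_mem' := by
    rintro x y ⟨N, hN, hx⟩ ⟨M, hM, hy⟩
    refine ⟨N * M, mul_ne_zero hN hM, ?_⟩
    rw [smul_add]
    apply A.add_mem
    · rw [mul_comm, mul_smul]
      exact A.nsmul_mem hx _
    · rw [mul_smul]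
      exact A.nsmul_mem hy _
  zero_mem' := ⟨1, one_ne_zero, by simp [A.zero_mem]⟩
  neg_mem' := by
    rintro x ⟨N, hN, hx⟩
    exact ⟨N, hN, by rw [smul_neg]; exact A.neg_mem hx⟩

omit [Module Ω H] in
lemma le_RS (A : AddSubgroup H) : A ≤ RS A := fun x hx => ⟨1, one_ne_zero, by simpa using hx⟩

lemma RS_smul {A : AddSubgroup H} (r : ℚ) {x : H} (hx : x ∈ RS A) : (r : Ω) • x ∈ RS A := by
  obtain ⟨N, hN, hx⟩ := hx
  refine ⟨N * r.den, mul_ne_zero hN r.den_nz, ?_⟩
  have e : (N * r.den) • ((r : Ω) • x) = r.num • (N • x) := by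
    rw [← Nat.cast_smul_eq_nsmul Ω (N * r.den), ← Nat.cast_smul_eq_nsmul Ω N,
      ← Int.cast_smul_eq_zsmul Ω, smul_smul, smul_smul]
    congr 1
    have h1 : ((r.num : ℚ) : Ω) = (r : Ω) * (r.den : Ω) := by
      have := Rat.mul_den_eq_num r
      rw [← this]
      push_cast
      rfl
    push_cast at h1 ⊢
    rw [h1]
    ring
  rw [e]
  exact A.zsmul_mem hx _

lemma RS_sum {A : AddSubgroup H} {ι : Type*} (s : Finset ι) (c : ι → ℚ) (e : ι → H)
    (he : ∀ i ∈ s, e i ∈ RS A) : ∑ i ∈ s, (c i : Ω) • e i ∈ RS A :=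
  AddSubgroup.sum_mem _ fun i hi => RS_smul _ (he i hi)

/-- A vector in the span of `A` is a combination of vectors of `A` with coefficients which are
linearly independent over `ℚ`. -/
lemma exists_indep_comb {A : AddSubgroup H} {y : H} (hy : y ∈ Submodule.span Ω (A : Set H)) :
    ∃ (m : ℕ) (e : Fin m → Ω) (z : Fin m → H), LinearIndependent ℚ e ∧
      (∀ k, z k ∈ A) ∧ y = ∑ k, e k • z k := by
  classical
  obtain ⟨n, f, g, hfg⟩ := Submodule.mem_span_set'.1 hy
  let b := Module.Basis.ofVectorSpace ℚ Ω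
  let S : Finset (Module.Basis.ofVectorSpaceIndex ℚ Ω) :=
    Finset.univ.biUnion (fun i => (b.repr (f i)).support)
  let z0 : Module.Basis.ofVectorSpaceIndex ℚ Ω → H :=
    fun k => ∑ i, ((b.repr (f i) k : ℚ) : Ω) • (g i : H)
  have hz0 : ∀ k, z0 k ∈ RS A := fun k => RS_sum _ _ _ (fun i _ => le_RS A (g i).2)
  have hf : ∀ i, f i = ∑ k ∈ S, ((b.repr (f i) k : ℚ) : Ω) * b k := by
    intro i
    conv_lhs => rw [← b.linearCombination_repr (f i), Finsupp.linearCombination_apply]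
    rw [Finsupp.sum_of_support_subset (s := S)]
    · apply Finset.sum_congr rfl
      intro k _
      rw [Rat.smul_def]
    · exact Finset.subset_biUnion_of_mem (fun i => (b.repr (f i)).support) (Finset.mem_univ i)
    · intro k _
      simp
  have hy0 : y = ∑ k ∈ S, b k • z0 k := by
    rw [← hfg]
    simp only [z0, Finset.smul_sum]
    rw [Finset.sum_comm]
    apply Finset.sum_congr rfl
    intro i _
    conv_lhs => rw [hf i]
    rw [Finset.sum_smul]
    apply Finset.sum_congr rfl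
    intro k _
    rw [smul_smul, mul_comm]
  choose N hN hNz using hz0
  let eq := S.equivFin
  refine ⟨S.card, fun k => ((N (eq.symm k) : ℚ)⁻¹) • b (eq.symm k),
    fun k => N (eq.symm k) • z0 (eq.symm k), ?_, fun k => hNz _, ?_⟩
  · have h1 : LinearIndependent ℚ (fun k : Fin S.card => b (eq.symm k)) :=
      b.linearIndependent.comp (fun k : Fin S.card => ((eq.symm k : S) : _)) (fun k l hkl => by
        have := Subtype.ext hkl
        exact eq.symm.injective this)
    have h2 := h1.units_smul (fun k => Units.mk0 ((N (eq.symm k) : ℚ)⁻¹)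
      (inv_ne_zero (Nat.cast_ne_zero.2 (hN _))))
    exact h2
  · rw [hy0, ← Finset.sum_coe_sort S, ← Equiv.sum_comp eq.symm]
    apply Finset.sum_congr rfl
    intro k _
    show _ = (((N (eq.symm k) : ℚ)⁻¹) • b (eq.symm k)) • (N (eq.symm k) • z0 (eq.symm k))
    have h0 : (N (eq.symm k) : Ω) ≠ 0 := Nat.cast_ne_zero.2 (hN (eq.symm k))
    rw [← Nat.cast_smul_eq_nsmul Ω, smul_smul, Rat.smul_def]
    congr 1
    push_cast
    field_simp

end Pool.Agent.Y143
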