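import Pool.Agent.Y143.Divisors
import Pool.Agent.Y143.Basic2
import Pool.Agent.Y143.RatStruct

/-!
# Positivity in the weights at most two
-/

namespace Pool.Agent.Y143

universe u v

open Module

variable {Ω : Type u} [Field Ω] [CharZero Ω] {Γ : Type} {n q : ℕ}

namespace SpecialFibre

variable (X : SpecialFibre.{u, v} Ω Γ n q)

lemma lef_pair_pow (a k : ℕ) (x y : X.H a) :
    X.pair a ((X.lef a ^ k) x) y = X.pair a x ((X.lef a ^ k) y) := by
  induction k generalizing x with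
  | zero => rfl
  | succ k ih =>
    rw [pow_succ, Module.End.mul_apply, ih, X.lef_pair, ← Module.End.mul_apply, ← pow_succ',
      pow_succ]

lemma res_lef_pow (a k : ℕ) (x : X.H a) :
    X.res a ((X.lef a ^ k) x) = (X.lef (a + 1) ^ k) (X.res a x) := by
  induction k generalizing x with
  | zero => rfl
  | succ k ih =>
    rw [pow_succ, Module.End.mul_apply, ih, X.res_lef, ← Module.End.mul_apply, ← pow_succ]

lemma gys_lef_pow (a k : ℕ) (x : X.H (a + 1)) :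
    X.gys a ((X.lef (a + 1) ^ k) x) = (X.lef a ^ k) (X.gys a x) := by
  induction k generalizing x with
  | zero => rfl
  | succ k ih =>
    rw [pow_succ, Module.End.mul_apply, ih, X.gys_lef, ← Module.End.mul_apply, ← pow_succ]

lemma lef_pow_gr (a k : ℕ) (m : ℤ) (x : X.H a) (hx : x ∈ X.gr a m) :
    (X.lef a ^ k) x ∈ X.gr a (m + 2 * k) := by
  induction k with
  | zero => simpa using hx
  | succ k ih =>
    rw [pow_succ', Module.End.mul_apply]
    have := X.lef_gr a _ _ ih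
    rwa [show m + 2 * ((k + 1 : ℕ) : ℤ) = m + 2 * k + 2 by push_cast; ring]

end SpecialFibre

namespace DivisorClasses

variable {X : SpecialFibre.{u, v} Ω Γ n q} (A : DivisorClasses X)

lemma RS0_le (a : ℕ) {x : X.H a} (hx : x ∈ RS (A.A0 a)) : x ∈ X.gr a 0 := by
  obtain ⟨N, hN, h⟩ := hx
  have h1 := A.A0_le a _ h
  rw [← Nat.cast_smul_eq_nsmul Ω] at h1
  exact (Submodule.smul_mem_iff _ (Nat.cast_ne_zero.2 hN)).1 h1

lemma RS1_le (a : ℕ) {x : X.H a} (hx : x ∈ RS (A.A1 a)) : x ∈ X.gr a 2 := by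
  obtain ⟨N, hN, h⟩ := hx
  have h1 := A.A1_le a _ h
  rw [← Nat.cast_smul_eq_nsmul Ω] at h1
  exact (Submodule.smul_mem_iff _ (Nat.cast_ne_zero.2 hN)).1 h1

lemma RS_res0 (a : ℕ) {x : X.H a} (hx : x ∈ RS (A.A0 a)) : X.res a x ∈ RS (A.A0 (a + 1)) := by
  obtain ⟨N, hN, h⟩ := hx
  exact ⟨N, hN, by rw [← map_nsmul]; exact A.res_A0 a _ h⟩

lemma RS_res1 (a : ℕ) {x : X.H a} (hx : x ∈ RS (A.A1 a)) : X.res a x ∈ RS (A.A1 (a + 1)) := by
  obtain ⟨N, hN, h⟩ := hx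
  exact ⟨N, hN, by rw [← map_nsmul]; exact A.res_A1 a _ h⟩

lemma RS_gys (a : ℕ) {x : X.H (a + 1)} (hx : x ∈ RS (A.A0 (a + 1))) :
    X.gys a x ∈ RS (A.A1 a) := by
  obtain ⟨N, hN, h⟩ := hx
  exact ⟨N, hN, by rw [← map_nsmul]; exact A.gys_A0 a _ h⟩

lemma RS_lef (a : ℕ) {x : X.H a} (hx : x ∈ RS (A.A0 a)) : X.lef a x ∈ RS (A.A1 a) := by
  obtain ⟨N, hN, h⟩ := hx
  exact ⟨N, hN, by rw [← map_nsmul]; exact A.lef_A0 a _ h⟩

lemma rat0 (a : ℕ) {x y : X.H a} (hx : x ∈ RS (A.A0 a)) (hy : y ∈ RS (A.A0 a)) :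
    IsRat (X.pair a x ((X.lef a ^ (n - a)) y)) := by
  obtain ⟨N, hN, h⟩ := hx
  obtain ⟨M, hM, h'⟩ := hy
  have h1 := isRat_int (A.int0 a _ h _ h')
  apply IsRat.of_mul (mul_ne_zero hN hM)
  rw [← Nat.cast_smul_eq_nsmul Ω, ← Nat.cast_smul_eq_nsmul Ω, map_smul, map_smul, map_smul,
    LinearMap.smul_apply, smul_eq_mul, smul_eq_mul] at h1
  push_cast
  convert h1 using 1
  ring

lemma rat1 (a : ℕ) {x y : X.H a} (hx : x ∈ RS (A.A1 a)) (hy : y ∈ RS (A.A1 a)) :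
    IsRat (X.pair a x ((X.lef a ^ (n - a - 2)) y)) := by
  obtain ⟨N, hN, h⟩ := hx
  obtain ⟨M, hM, h'⟩ := hy
  have h1 := isRat_int (A.int1 a _ h _ h')
  apply IsRat.of_mul (mul_ne_zero hN hM)
  rw [← Nat.cast_smul_eq_nsmul Ω, ← Nat.cast_smul_eq_nsmul Ω, map_smul, map_smul, map_smul,
    LinearMap.smul_apply, smul_eq_mul, smul_eq_mul] at h1
  push_cast
  convert h1 using 1
  ring

lemma zero_of_pair0 (a : ℕ) {x : X.H a} (hx : x ∈ RS (A.A0 a))
    (h0 : X.pair a x ((X.lef a ^ (n - a)) x) = 0) : x = 0 := by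
  obtain ⟨N, hN, h⟩ := hx
  by_contra hne
  have hne' : N • x ≠ 0 := by
    rw [← Nat.cast_smul_eq_nsmul Ω]
    exact smul_ne_zero (Nat.cast_ne_zero.2 hN) hne
  obtain ⟨k, hk, hk'⟩ := A.pos0 a _ h hne'
  rw [← Nat.cast_smul_eq_nsmul Ω, map_smul, map_smul, map_smul, LinearMap.smul_apply, h0,
    smul_zero, smul_zero] at hk'
  have : k = 0 := by exact_mod_cast hk'.symm
  omega

lemma zero_of_pair1 (a : ℕ) {x : X.H a} (hx : x ∈ RS (A.A1 a))
    (hp : (X.lef a ^ (n - a - 1)) x = 0)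
    (h0 : X.pair a x ((X.lef a ^ (n - a - 2)) x) = 0) : x = 0 := by
  obtain ⟨N, hN, h⟩ := hx
  by_contra hne
  have hne' : N • x ≠ 0 := by
    rw [← Nat.cast_smul_eq_nsmul Ω]
    exact smul_ne_zero (Nat.cast_ne_zero.2 hN) hne
  have hp' : (X.lef a ^ (n - a - 1)) (N • x) = 0 := by rw [map_nsmul, hp, smul_zero]
  obtain ⟨k, hk, hk'⟩ := A.hodge_index a _ h hp' hne'
  rw [← Nat.cast_smul_eq_nsmul Ω, map_smul, map_smul, map_smul, LinearMap.smul_apply, h0,
    smul_zero, smul_zero] at hk'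
  have : k = 0 := by exact_mod_cast hk'.symm
  omega

/-- A linear functional vanishing on the classes of components vanishes in degree `0`. -/
lemma zero_of_A0 (a : ℕ) (φ : X.H a →ₗ[Ω] Ω) (h : ∀ x ∈ A.A0 a, φ x = 0) {x : X.H a}
    (hx : x ∈ X.gr a 0) : φ x = 0 := by
  have h1 : Submodule.span Ω (A.A0 a : Set (X.H a)) ≤ LinearMap.ker φ :=
    Submodule.span_le.2 h
  exact h1 (A.span_A0 a hx)

/-- A class of degree two is primitive if it is orthogonal to the components. -/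
lemma prim_of_orth (a : ℕ) (k : ℕ) {x : X.H a} (hx : (X.lef a ^ k) x ∈ X.gr a (2 * (n - a)))
    (h : ∀ y ∈ A.A0 a, X.pair a ((X.lef a ^ k) x) y = 0) : (X.lef a ^ k) x = 0 := by
  apply X.pair_nondeg
  intro y
  refine X.gr_induction (P := fun y => X.pair a ((X.lef a ^ k) x) y = 0) (by simp)
    (fun x y hx hy => by rw [map_add, hx, hy, add_zero]) (fun m y hy => ?_) y
  by_cases hm : m = 0
  · subst hm
    exact A.zero_of_A0 a (X.pair a ((X.lef a ^ k) x)) h hy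
  · exact X.pair_gr a _ _ _ _ hx hy (by omega)

end DivisorClasses

end Pool.Agent.Y143
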