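import Pool.Agent.Y143.Complex

/-!
# Dimensions of the cohomology of a Lefschetz complex, duality, and the main theorem
-/

namespace Pool.Agent.Y143

open Module Submodule

variable {Ω : Type*} [Field Ω] {C : Type*} [AddCommGroup C] [Module Ω C]

/-- Dimension of the cohomology. -/
noncomputable def hh (d : ℤ → Module.End Ω C) (G : ℤ → ℤ → Submodule Ω C) (i j : ℤ) : ℤ :=
  finrank Ω (Zc d G i j) - finrank Ω (Bd d G i j)

/-- Rank of the differential. -/
noncomputable def rk (d : ℤ → Module.End Ω C) (G : ℤ → ℤ → Submodule Ω C) (i j : ℤ) : ℤ :=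
  finrank Ω ((G i j).map (d i))

variable [FiniteDimensional Ω C]

/-- A map which is an isomorphism on subquotients preserves the dimension. -/
lemma finrank_sub_of_iso {A U A' U' : Submodule Ω C} (f : Module.End Ω C) (hU : U ≤ A)
    (hU' : U' ≤ A') (hf : ∀ x ∈ A, f x ∈ A') (hfU : ∀ x ∈ U, f x ∈ U')
    (hinj : ∀ x ∈ A, f x ∈ U' → x ∈ U) (hsurj : ∀ y ∈ A', ∃ x ∈ A, y - f x ∈ U') :
    (finrank Ω A : ℤ) - finrank Ω U = finrank Ω A' - finrank Ω U' := by
  have h1 := finrank_map_add_ker (U'.mkQ ∘ₗ f) A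
  have h2 : A ⊓ LinearMap.ker (U'.mkQ ∘ₗ f) = U := by
    ext x
    simp only [Submodule.mem_inf, LinearMap.mem_ker, LinearMap.comp_apply, Submodule.mkQ_apply,
      Submodule.Quotient.mk_eq_zero]
    exact ⟨fun ⟨h1, h2⟩ => hinj x h1 h2, fun h => ⟨hU h, hfU x h⟩⟩
  have h3 := finrank_map_add_ker U'.mkQ A'
  have h4 : A' ⊓ LinearMap.ker U'.mkQ = U' := by
    rw [Submodule.ker_mkQ]
    exact inf_eq_right.2 hU'
  have h5 : A.map (U'.mkQ ∘ₗ f) = A'.map U'.mkQ := by
    apply le_antisymm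
    · rintro _ ⟨x, hx, rfl⟩
      exact ⟨f x, hf x hx, rfl⟩
    · rintro _ ⟨y, hy, rfl⟩
      obtain ⟨x, hx, hxy⟩ := hsurj y hy
      refine ⟨x, hx, ?_⟩
      rw [LinearMap.comp_apply, Submodule.mkQ_apply, Submodule.mkQ_apply]
      symm
      exact (Submodule.Quotient.eq _).2 hxy
  rw [h2, h5] at h1
  rw [h4] at h3
  omega

lemma hh_eq (d : ℤ → Module.End Ω C) (G : ℤ → ℤ → Submodule Ω C) (i j : ℤ) :
    hh d G i j = finrank Ω (G i j) - rk d G i j - rk d G (i - 1) (j - 1) := by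
  have h := finrank_map_add_ker (d i) (G i j)
  unfold hh rk Zc Bd
  omega

namespace LefComplex

variable {d : ℤ → Module.End Ω C} {L : Module.End Ω C} {G : ℤ → ℤ → Submodule Ω C}

lemma hh_HL (h : LefComplex d L G) (i : ℤ) (m : ℕ) : hh d G i (-m) = hh d G i m := by
  apply finrank_sub_of_iso (L ^ m) (h.bd_le _ _) (h.bd_le _ _)
  · intro x hx
    have := h.Lpow_zc m hx
    rwa [show (-(m : ℤ) + 2 * m) = m by ring] at this
  · intro x hx
    have := h.Lpow_bd m hx
    rwa [show (-(m : ℤ) + 2 * m) = m by ring] at this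
  · exact h.hlInj i m
  · exact h.hlSurj i m

lemma hh_abs (h : LefComplex d L G) (i j : ℤ) : hh d G i (-j) = hh d G i j := by
  rcases le_total 0 j with hj | hj
  · obtain ⟨m, rfl⟩ := Int.eq_ofNat_of_zero_le hj
    exact h.hh_HL i m
  · obtain ⟨m, hm⟩ := Int.eq_ofNat_of_zero_le (show 0 ≤ -j by omega)
    obtain rfl : j = -m := by omega
    rw [neg_neg]
    exact (h.hh_HL i m).symm

lemma kk_abs (h : LefComplex d L G) (i j : ℤ) :
    finrank Ω (G i (-j)) = finrank Ω (G i j) := by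
  have key : ∀ m : ℕ, finrank Ω (G i (-(m : ℤ))) = finrank Ω (G i m) := by
    intro m
    have h1 := finrank_map_add_ker (L ^ m) (G i (-m))
    have h2 : G i (-m) ⊓ LinearMap.ker (L ^ m) = ⊥ := by
      rw [eq_bot_iff]
      rintro x ⟨hx1, hx2⟩
      exact h.lefInj i m x hx1 hx2
    have h3 : (G i (-m)).map (L ^ m) = G i m := by
      apply le_antisymm
      · rintro _ ⟨x, hx, rfl⟩
        have := h.Lpow_mem m hx
        rwa [show (-(m : ℤ) + 2 * m) = m by ring] at this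
      · intro y hy
        obtain ⟨x, hx, rfl⟩ := h.lefSurj i m y hy
        exact ⟨x, hx, rfl⟩
    rw [h2, h3, finrank_bot] at h1
    omega
  rcases le_total 0 j with hj | hj
  · obtain ⟨m, rfl⟩ := Int.eq_ofNat_of_zero_le hj
    exact key m
  · obtain ⟨m, hm⟩ := Int.eq_ofNat_of_zero_le (show 0 ≤ -j by omega)
    obtain rfl : j = -m := by omega
    rw [neg_neg]
    exact (key m).symm

lemma hh_le_of_nInj (h : LefComplex d L G) (i : ℤ) (hi : 1 ≤ i) (j : ℤ) (hI : NInj d G i j) :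
    hh d G (-i) j ≤ hh d G i j := by
  have h1 := Submodule.finrank_sup_add_finrank_inf_eq (Zc d G (-i) j) (Bd d G i j)
  have h2 : Zc d G (-i) j ⊔ Bd d G i j ≤ Zc d G i j :=
    sup_le (h.zc_neg_le i hi j) (h.bd_le i j)
  have h3 := Submodule.finrank_mono h2
  have h4 := Submodule.finrank_mono hI
  unfold hh
  omega

lemma nSurj_of_hh (h : LefComplex d L G) (i : ℤ) (hi : 1 ≤ i) (j : ℤ) (hI : NInj d G i j)
    (he : hh d G (-i) j = hh d G i j) : NSurj d G i j := by
  have h1 := Submodule.finrank_sup_add_finrank_inf_eq (Zc d G (-i) j) (Bd d G i j)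
  have h2 : Zc d G (-i) j ⊔ Bd d G i j ≤ Zc d G i j :=
    sup_le (h.zc_neg_le i hi j) (h.bd_le i j)
  have h4 := Submodule.finrank_mono hI
  unfold hh at he
  have h5 : Zc d G (-i) j ⊔ Bd d G i j = Zc d G i j :=
    Submodule.eq_of_le_of_finrank_le h2 (by omega)
  exact h5.ge

lemma hh_eq_of_good (h : LefComplex d L G) (i : ℤ) (hi : 1 ≤ i) (j : ℤ) (hI : NInj d G i j)
    (hS : NSurj d G i j) : hh d G (-i) j = hh d G i j := by
  have h1 := Submodule.finrank_sup_add_finrank_inf_eq (Zc d G (-i) j) (Bd d G i j)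
  have h2 : Zc d G (-i) j ⊔ Bd d G i j = Zc d G i j :=
    le_antisymm (sup_le (h.zc_neg_le i hi j) (h.bd_le i j)) hS
  have h3 : Zc d G (-i) j ⊓ Bd d G i j = Bd d G (-i) j :=
    le_antisymm hI (le_inf (h.bd_le _ _) (h.bd_neg_le i hi j))
  rw [h2, h3] at h1
  unfold hh
  omega

/-- If the differential kills the primitive part, its rank is the rank one step lower. -/
lemma rk_of_prim (h : LefComplex d L G) (i : ℤ) (m : ℕ)
    (hp : ∀ p ∈ Pr L G i m, d i p = 0) :
    rk d G i (-m) = rk d G i (-m - 2) := by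
  have h1 : (G i (-m)).map (d i) = ((G i (-m - 2)).map (d i)).map L := by
    apply le_antisymm
    · rintro _ ⟨x, hx, rfl⟩
      obtain ⟨p, hpp, w, hw, rfl⟩ := h.prim_decomp i m hx
      refine ⟨d i w, ⟨w, hw, rfl⟩, ?_⟩
      rw [map_add, hp p hpp, zero_add, h.dL]
    · rintro _ ⟨_, ⟨w, hw, rfl⟩, rfl⟩
      refine ⟨L w, mem_cast _ _ _ _ rfl (by ring) (h.L_mem _ _ _ hw), h.dL _ _⟩
  unfold rk
  rw [h1]
  have h2 := finrank_map_add_ker L ((G i (-m - 2)).map (d i))
  have h3 : ((G i (-m - 2)).map (d i)) ⊓ LinearMap.ker L = ⊥ := by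
    rw [eq_bot_iff]
    rintro x ⟨⟨w, hw, rfl⟩, hx⟩
    have hm := h.d_mem _ _ _ hw
    apply h.lefInj (i + 1) (m + 1) _ (mem_cast _ _ _ _ rfl (by push_cast; ring) hm)
    rw [pow_succ, Module.End.mul_apply, show L (d i w) = 0 from hx, map_zero]
  rw [h3, finrank_bot] at h2
  exact_mod_cast h2

lemma rk_ge (h : LefComplex d L G) (i : ℤ) (m : ℕ) :
    rk d G i (-m - 2) ≤ rk d G i (-m) := by
  have h1 : ((G i (-m - 2)).map (d i)).map L ≤ (G i (-m)).map (d i) := by
    rintro _ ⟨_, ⟨w, hw, rfl⟩, rfl⟩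
    refine ⟨L w, mem_cast _ _ _ _ rfl (by ring) (h.L_mem _ _ _ hw), h.dL _ _⟩
  have h2 := finrank_map_add_ker L ((G i (-m - 2)).map (d i))
  have h3 : ((G i (-m - 2)).map (d i)) ⊓ LinearMap.ker L = ⊥ := by
    rw [eq_bot_iff]
    rintro x ⟨⟨w, hw, rfl⟩, hx⟩
    have hm := h.d_mem _ _ _ hw
    apply h.lefInj (i + 1) (m + 1) _ (mem_cast _ _ _ _ rfl (by push_cast; ring) hm)
    rw [pow_succ, Module.End.mul_apply, show L (d i w) = 0 from hx, map_zero]
  rw [h3, finrank_bot] at h2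
  have h4 := Submodule.finrank_mono h1
  unfold rk
  omega

end LefComplex

/-- Duality between two Lefschetz complexes. -/
structure LefDual (ψ : C →ₗ[Ω] C →ₗ[Ω] Ω) (d : ℤ → Module.End Ω C) (L : Module.End Ω C)
    (G G' : ℤ → ℤ → Submodule Ω C) : Prop where
  perf : ∀ i j, Perf ψ (G i j) (G' (-i) (-j))
  adj_d : ∀ i j x y, x ∈ G i j → y ∈ G' (-i - 1) (-j - 1) → ψ (d i x) y = ψ x (d (-i - 1) y)
  adj_L : ∀ i j x y, x ∈ G i j → y ∈ G' (-i) (-j - 2) → ψ (L x) y = ψ x (L y)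

variable {ψ : C →ₗ[Ω] C →ₗ[Ω] Ω} {d : ℤ → Module.End Ω C} {L : Module.End Ω C}
  {G G' : ℤ → ℤ → Submodule Ω C}

omit [FiniteDimensional Ω C] in
lemma LefDual.flip (h : LefDual ψ d L G G') : LefDual ψ.flip d L G' G where
  perf i j := by
    have := (h.perf (-i) (-j)).flip
    rwa [neg_neg, neg_neg] at this
  adj_d i j x y hx hy := by
    have hx' : x ∈ G' (-(-i - 1) - 1) (-(-j - 1) - 1) :=
      LefComplex.mem_cast _ _ _ _ (by ring) (by ring) hx
    have := h.adj_d _ _ _ _ hy hx'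
    rw [show -(-i - 1) - 1 = i by ring] at this
    exact this.symm
  adj_L i j x y hx hy := by
    have hx' : x ∈ G' (-(-i)) (-(-j - 2) - 2) :=
      LefComplex.mem_cast _ _ _ _ (by ring) (by ring) hx
    exact (h.adj_L _ _ _ _ hy hx').symm

namespace LefDual

lemma annR_zc (h : LefDual ψ d L G G') (hG : LefComplex d L G) (hG' : LefComplex d L G')
    (i j : ℤ) : annR ψ (Zc d G i j) (G' (-i) (-j)) = Bd d G' (-i) (-j) := by
  have h1 := h.perf (i + 1) (j + 1)
  have h2 : Perf ψ (G (i + 1) (j + 1)) (G' (-i - 1) (-j - 1)) := by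
    rwa [show -(i + 1) = -i - 1 by ring, show -(j + 1) = -j - 1 by ring] at h1
  exact annR_ker (h.perf i j) h2 (fun x hx => hG.d_mem _ _ _ hx)
    (fun y hy => LefComplex.mem_cast _ _ _ _ (by ring) (by ring) (hG'.d_mem _ _ _ hy))
    (fun x hx y hy => h.adj_d _ _ _ _ hx hy)

omit [FiniteDimensional Ω C] in
lemma annR_bd (h : LefDual ψ d L G G') (hG' : LefComplex d L G')
    (i j : ℤ) : annR ψ (Bd d G i j) (G' (-i) (-j)) = Zc d G' (-i) (-j) := by
  have h1 := h.perf (i - 1) (j - 1)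
  refine annR_map h1 (fun y hy => ?_) (fun x hx y hy => ?_)
  · exact LefComplex.mem_cast _ _ _ _ (by ring) (by ring) (hG'.d_mem _ _ _ hy)
  · have := h.adj_d (i - 1) (j - 1) x y hx (LefComplex.mem_cast _ _ _ _ (by ring) (by ring) hy)
    rwa [show -(i - 1) - 1 = -i by ring] at this

lemma bd_le_G' (hG : LefComplex d L G) (i j : ℤ) : Bd d G i j ≤ G i j :=
  (hG.bd_le i j).trans inf_le_left

lemma hh_dual (h : LefDual ψ d L G G') (hG : LefComplex d L G) (hG' : LefComplex d L G')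
    (i j : ℤ) : hh d G i j = hh d G' (-i) (-j) := by
  have h1 := (h.perf i j).finrank_annR (show Zc d G i j ≤ G i j from inf_le_left)
  have h2 := (h.perf i j).finrank_annR (bd_le_G' hG i j)
  rw [h.annR_zc hG hG'] at h1
  rw [h.annR_bd hG'] at h2
  unfold hh
  omega

lemma kk_eq (h : LefDual ψ d L G G') (hG' : LefComplex d L G') (i j : ℤ) :
    finrank Ω (G i j) = finrank Ω (G' i j) := by
  rw [(h.perf i j).finrank_eq, hG'.neg, hG'.kk_abs]

lemma hh_neg (h : LefDual ψ d L G G') (hG : LefComplex d L G) (hG' : LefComplex d L G')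
    (i j : ℤ) : hh d G (-i) j = hh d G' i j := by
  rw [h.hh_dual hG hG', neg_neg, hG'.hh_abs]

/-- Surjectivity for `G'` in degree `-j` gives injectivity for `G` in degree `j`. -/
lemma nInj_of_nSurj (h : LefDual ψ d L G G') (hG : LefComplex d L G) (hG' : LefComplex d L G')
    (i j : ℤ) (hS : NSurj d G' i (-j)) : NInj d G i j := by
  -- annihilators in G i j
  have hf := h.flip
  have e1 : annR ψ.flip (Zc d G' i (-j)) (G (-i) j) = Bd d G (-i) j := by
    have := hf.annR_zc hG' hG i (-j)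
    rwa [neg_neg] at this
  have e2 : annR ψ.flip (Bd d G' i (-j)) (G (-i) j) = Zc d G (-i) j := by
    have := hf.annR_bd hG i (-j)
    rwa [neg_neg] at this
  have e3 : annR ψ.flip (Zc d G' (-i) (-j)) (G i j) = Bd d G i j := by
    have := hf.annR_zc hG' hG (-i) (-j)
    rwa [neg_neg, neg_neg] at this
  intro x hx
  rw [← e1]
  refine ⟨hx.1.1, fun y hy => ?_⟩
  obtain ⟨u, hu, v, hv, rfl⟩ := Submodule.mem_sup.1 (hS hy)
  have hx1 : x ∈ annR ψ.flip (Bd d G' i (-j)) (G (-i) j) := by rw [e2]; exact hx.1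
  have hx2 : x ∈ annR ψ.flip (Zc d G' (-i) (-j)) (G i j) := by rw [e3]; exact hx.2
  rw [map_add, LinearMap.add_apply, hx1.2 v hv, hx2.2 u hu, add_zero]

omit [FiniteDimensional Ω C] in
lemma adj_Lpow (h : LefDual ψ d L G G') (hG : LefComplex d L G) (hG' : LefComplex d L G')
    (i j : ℤ) (m : ℕ) {x y : C} (hx : x ∈ G i j) (hy : y ∈ G' (-i) (-j - 2 * m)) :
    ψ ((L ^ m) x) y = ψ x ((L ^ m) y) := by
  induction m generalizing y with
  | zero => rfl
  | succ m ih =>
    have h1 : (L ^ m) x ∈ G i (j + 2 * m) := hG.Lpow_mem m hx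
    rw [pow_succ', Module.End.mul_apply,
      h.adj_L _ _ _ _ h1 (LefComplex.mem_cast _ _ _ _ rfl (by push_cast; ring) hy),
      ih (LefComplex.mem_cast _ _ _ _ rfl (by push_cast; ring) (hG'.L_mem _ _ _ hy)),
      ← Module.End.mul_apply (L ^ m) L y, ← pow_succ, pow_succ']

/-- The critical parts are orthogonal to each other. -/
lemma isotropy (h : LefDual ψ d L G G') (hG : LefComplex d L G) (hG' : LefComplex d L G')
    (i : ℤ) (m : ℕ) {x x' : C} (hx : x ∈ Zc d G (-i) (-m)) (hx' : x' ∈ Bd d G' i (-m)) :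
    ψ x ((L ^ m) x') = 0 := by
  obtain ⟨y', hy', rfl⟩ := hx'
  rw [← hG'.dLpow]
  have hy2 : (L ^ m) y' ∈ G' (-(-i) - 1) (-(-(m : ℤ)) - 1) :=
    LefComplex.mem_cast _ _ _ _ (by ring) (by ring) (hG'.Lpow_mem m hy')
  have := h.adj_d (-i) (-m) x _ hx.1 hy2
  rw [show -(-i) - 1 = i - 1 by ring] at this
  rw [← this, show d (-i) x = 0 from hx.2, map_zero, LinearMap.zero_apply]

/-- If the critical part of `G` is the whole primitive part, then the critical part of `G'` is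
zero. -/
lemma zp_eq_bot (h : LefDual ψ d L G G') (hG : LefComplex d L G) (hG' : LefComplex d L G')
    (i : ℤ) (m : ℕ) (hP : Pr L G i m ≤ Zp d L G i m) : Zp d L G' i m = ⊥ := by
  rw [eq_bot_iff]
  intro x' hx'
  have hx1 : x' ∈ G' (-i) (-m) := hx'.1.1.1
  have hx2 : (L ^ m) x' ∈ G' (-i) (-(-(m : ℤ))) :=
    LefComplex.mem_cast _ _ _ _ rfl (by ring) (hG'.Lpow_mem m hx1)
  have key : (L ^ m) x' = 0 := by
    apply (h.perf i (-m)).right _ hx2
    intro x hx
    obtain ⟨p, hp, w, hw, rfl⟩ := hG.prim_decomp i m hx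
    rw [map_add, LinearMap.add_apply]
    have e1 : ψ p ((L ^ m) x') = 0 := h.isotropy hG hG' i m (hP hp).1.1 hx'.1.2
    have e2 : ψ (L w) ((L ^ m) x') = 0 := by
      rw [h.adj_L i (-m - 2) w _ hw (LefComplex.mem_cast _ _ _ _ rfl (by ring) hx2),
        ← Module.End.mul_apply L (L ^ m) x', ← pow_succ', show (L ^ (m + 1)) x' = 0 from hx'.2,
        map_zero]
    rw [e1, e2, add_zero]
  exact hG'.lefInj (-i) m x' hx1 key

end LefDual

end Pool.Agent.Y143
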