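import Pool.Agent.Y143.SimpleDefs

/-!
# Isomorphisms between graded pieces, and Tate classes on the image of the restriction
-/

namespace Pool.Agent.Y143

universe u v

open Module

variable {Ω : Type u} [Field Ω] {V : Type v} [AddCommGroup V] [Module Ω V]

/-- `N ^ e` induces an isomorphism of `W_(m + e) / W_(m + e - 1)` with
`W_(m - e) / W_(m - e - 1)`. -/
structure IsGradedIso (W : ℤ → Submodule Ω V) (N : Module.End Ω V) (m : ℤ) (e : ℕ) : Prop where
  mem : ∀ v ∈ W (m + e), (N ^ e) v ∈ W (m - e)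
  inj : ∀ v ∈ W (m + e), (N ^ e) v ∈ W (m - e - 1) → v ∈ W (m + e - 1)
  surj : ∀ v ∈ W (m - e), ∃ x ∈ W (m + e), v - (N ^ e) x ∈ W (m - e - 1)

/-- Every eigenvalue of the Frobenius on the image of the restriction map
`H^2(Y^(a+1)) → H^2(Y^(a+2))` is the product of `q` and of a root of unity. -/
def SpecialFibre.TateImage {Γ : Type} {n q : ℕ} [CharZero Ω] (X : SpecialFibre.{u, v} Ω Γ n q)
    (a : ℕ) : Prop :=
  ∀ α : Ω, ∀ x ∈ X.gr a 2, x ∈ (X.act a X.frob).maxGenEigenspace α → X.res a x ≠ 0 →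
    IsTateNumber q α

end Pool.Agent.Y143
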