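import Pool.Agent.Y143.Extreme
import Pool.Agent.Y143.MiddleDefs

/-!
# The middle degree without the hard Lefschetz theorem for the generic fibre
-/

namespace Pool.Agent.Y143

universe u v

open Module

variable {Ω : Type u} [Field Ω] [CharZero Ω] {Γ : Type} {n q : ℕ}

namespace DivisorClasses

variable {X : SpecialFibre.{u, v} Ω Γ n q} (A : DivisorClasses X) [IsAlgClosed Ω]

/-- The weight two: injectivity if the image of the restriction consists of Tate classes. -/
theorem nInj_tateImage (a : ℕ) (ha : a + 3 ≤ n) (hT : A.TateConj a) (hI : X.TateImage a) (j : ℤ)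
    (hw : (n : ℤ) + j - (a + 1) = 2) : NInj X.diff X.tot ((a : ℤ) + 1) j := by
  apply X.sym.nInj_of_classes n 0 _ _
  rintro χ -
  by_cases hχ : IsTateNumber q (chr X.cyc' χ n 0 ((a : ℤ) + 1) j X.frob)
  · exact A.nInj_tate a ha hT j hw χ 0 hχ
  · rintro x ⟨hx1, hx2⟩
    apply X.sym.bd_cl_of_bd n 0 _ j χ hx1.1
    obtain ⟨y, hy, hyx⟩ := hx2
    have e : chr X.cyc' χ n 0 ((a : ℤ) + 1) j = chr X.cyc' χ n 0 a (j - 1) := by
      have := chr_d (c := X.cyc') (χ := χ) n 0 (a : ℤ) (j - 1)
      rwa [show j - 1 + 1 = j by ring] at this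
    have hy1 : y ∈ X.tot a (j - 1) := by
      have := hy.1
      rwa [show (a : ℤ) + 1 - 1 = a by ring] at this
    have hy2 : y ∈ Wt (X.actC a) (chr X.cyc' χ n 0 a (j - 1)) := by
      have := hy.2
      rwa [show (a : ℤ) + 1 - 1 = a by ring] at this
    rw [show (a : ℤ) + 1 - 1 = a by ring] at hyx
    refine X.nInj_low a j (by omega) (Sym.zc_cl_le (T := X.actC) (c := X.cyc') χ n 0 _ j hx1) hy1
      hyx ?_
    intro _
    refine ⟨0, Submodule.zero_mem _, ?_, by simp⟩
    rw [map_zero]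
    by_contra hne
    apply hχ
    rw [e]
    apply hI _ (y a) _ (X.mem_eigen_of_wt a hy2 X.frob) hne
    have := (hy1 a).1
    rwa [show (n : ℤ) + (j - 1) - a + a - a = 2 by omega] at this

end DivisorClasses

namespace SemistableModel

variable (X : SemistableModel.{u, v} Ω Γ n q)

/-- From the `E_2`-terms to the graded pieces of the weight filtration. -/
theorem isGradedIso_of (m a : ℕ) (hI : NInj X.diff X.tot a ((m : ℤ) - n))
    (hS : NSurj X.diff X.tot a ((m : ℤ) - n)) : IsGradedIso (X.W m) (X.N m) m a where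
  mem v hv := X.W_cast (by ring) (X.N_W m _ a hv)
  inj v hv hN := X.inj_level m a hI hv hN
  surj v hv := X.surj_level m a hS hv

/-- The pairs of a degree `m` and an exponent `a` which are settled. -/
def Settled (A : DivisorClasses X.toSpecialFibre) (m a : ℕ) : Prop :=
  min (m : ℤ) (2 * n - m) ≤ a ∨ (m = n ∧ n ≤ a + 1) ∨
    (m = n ∧ n ≤ a + 2 ∧ A.TateConj (n - 3) ∧ X.TateImage (n - 3))

theorem key_settled [IsAlgClosed Ω] (A : DivisorClasses X.toSpecialFibre) (m a : ℕ) (ha : 1 ≤ a)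
    (h : X.Settled A m a) :
    NInj X.diff X.tot a ((m : ℤ) - n) ∧ NSurj X.diff X.tot a ((m : ℤ) - n) := by
  have ha1 : (1 : ℤ) ≤ a := by exact_mod_cast ha
  have hmid : m = n → NInj X.diff X.tot a 0 →
      NInj X.diff X.tot a ((m : ℤ) - n) ∧ NSurj X.diff X.tot a ((m : ℤ) - n) := by
    rintro rfl h1
    rw [sub_self]
    exact ⟨h1, X.baseComplex.good_mid a ha1 h1⟩
  rcases h with h | ⟨hm, h⟩ | ⟨hm, h, hT, hI⟩
  · rcases le_total ((m : ℤ) - n) 0 with h1 | h1
    · exact ⟨A.nInj_one a ha1 _ (by omega), A.nSurj_zero a ha1 _ (by omega)⟩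
    · exact X.baseComplex.good_flip a ha1 _ (A.nInj_one a ha1 _ (by omega))
        (A.nSurj_zero a ha1 _ (by omega))
  · exact hmid hm (A.nInj_one a ha1 _ (by omega))
  · apply hmid hm
    rcases Nat.lt_or_ge n (a + 2) with h2 | h2
    · exact A.nInj_one a ha1 _ (by omega)
    · obtain ⟨b, hb⟩ : ∃ b : ℕ, n = b + 3 := ⟨n - 3, by omega⟩
      rw [show n - 3 = b by omega] at hT hI
      have := A.nInj_tateImage b (by omega) hT hI 0 (by omega)
      rwa [show (a : ℤ) = (b : ℤ) + 1 by omega]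

/-- `N ^ a` induces an isomorphism of the graded pieces of the weight filtration. -/
theorem isGradedIso [IsAlgClosed Ω] (A : DivisorClasses X.toSpecialFibre) (m a : ℕ) (ha : 1 ≤ a)
    (h : X.Settled A m a) : IsGradedIso (X.W m) (X.N m) m a :=
  X.isGradedIso_of m a (X.key_settled A m a ha h).1 (X.key_settled A m a ha h).2

lemma Settled.mono {A : DivisorClasses X.toSpecialFibre} {m a b : ℕ} (h : X.Settled A m a)
    (hab : a ≤ b) : X.Settled A m b := by
  rcases h with h | ⟨hm, h⟩ | ⟨hm, h, hT⟩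
  · left; omega
  · right; left; exact ⟨hm, by omega⟩
  · right; right; exact ⟨hm, by omega, hT⟩

/-- Purity of the graded pieces of the monodromy filtration. -/
theorem pure_settled [IsAlgClosed Ω] (A : DivisorClasses X.toSpecialFibre) (m : ℕ)
    {M : ℤ → Submodule Ω (X.V m)} (hM : IsMonodromyFiltration (X.N m) M) (j : ℤ)
    (hj : X.Settled A m (j.natAbs + 1)) (α : Ω) (x : X.V m) (hx : x ∈ M j)
    (hx' : x ∉ M (j - 1)) (hα : X.actV m X.frob x - α • x ∈ M (j - 1)) :
    IsWeilNumber q (j + m) α := by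
  have key : ∀ a : ℕ, j.natAbs + 1 ≤ a →
      NInj X.diff X.tot a ((m : ℤ) - n) ∧ NSurj X.diff X.tot a ((m : ℤ) - n) := fun a ha =>
    X.key_settled A m a (by omega) (Settled.mono X hj ha)
  exact X.pure_range m hM (j.natAbs + 1) (by omega) (fun a ha => (key a ha).1)
    (fun a ha => (key a ha).2) j (by rw [Int.abs_eq_natAbs]; push_cast; omega) α x hx hx' hα

end SemistableModel

end Pool.Agent.Y143
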