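import Mathlib

/-!
# Perfect pairings between two subspaces of a vector space
-/

namespace Pool.Agent.Y143

open Module Submodule

variable {Ω : Type*} [Field Ω] {C : Type*} [AddCommGroup C] [Module Ω C]

/-- The bilinear form `ψ` restricts to a perfect pairing of the subspaces `A` and `A'`. -/
structure Perf (ψ : C →ₗ[Ω] C →ₗ[Ω] Ω) (A A' : Submodule Ω C) : Prop where
  left : ∀ x ∈ A, (∀ y ∈ A', ψ x y = 0) → x = 0
  right : ∀ y ∈ A', (∀ x ∈ A, ψ x y = 0) → y = 0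

/-- The elements of `A'` orthogonal to `U`. -/
def annR (ψ : C →ₗ[Ω] C →ₗ[Ω] Ω) (U A' : Submodule Ω C) : Submodule Ω C where
  carrier := {y | y ∈ A' ∧ ∀ x ∈ U, ψ x y = 0}
  add_mem' := by
    rintro a b ⟨ha, ha'⟩ ⟨hb, hb'⟩
    exact ⟨A'.add_mem ha hb, fun x hx => by rw [map_add, ha' x hx, hb' x hx, add_zero]⟩
  zero_mem' := ⟨A'.zero_mem, fun x _ => by simp⟩
  smul_mem' := by
    rintro c a ⟨ha, ha'⟩
    exact ⟨A'.smul_mem c ha, fun x hx => by rw [map_smul, ha' x hx, smul_zero]⟩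

lemma mem_annR {ψ : C →ₗ[Ω] C →ₗ[Ω] Ω} {U A' : Submodule Ω C} {y : C} :
    y ∈ annR ψ U A' ↔ y ∈ A' ∧ ∀ x ∈ U, ψ x y = 0 := Iff.rfl

lemma Perf.flip {ψ : C →ₗ[Ω] C →ₗ[Ω] Ω} {A A' : Submodule Ω C} (h : Perf ψ A A') :
    Perf ψ.flip A' A := ⟨fun x hx hy => h.right x hx (fun y hy' => hy y hy'),
  fun x hx hy => h.left x hx (fun y hy' => hy y hy')⟩

/-- The pairing as a map from `U` to the dual of `A'`. -/
noncomputable def toDualR (ψ : C →ₗ[Ω] C →ₗ[Ω] Ω) (U A' : Submodule Ω C) :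
    U →ₗ[Ω] Dual Ω A' :=
  (A'.subtype.dualMap) ∘ₗ ψ ∘ₗ U.subtype

@[simp] lemma toDualR_apply (ψ : C →ₗ[Ω] C →ₗ[Ω] Ω) (U A' : Submodule Ω C) (x : U) (y : A') :
    toDualR ψ U A' x y = ψ x y := rfl

variable [FiniteDimensional Ω C]

lemma Perf.finrank_annR {ψ : C →ₗ[Ω] C →ₗ[Ω] Ω} {A A' : Submodule Ω C} (h : Perf ψ A A')
    {U : Submodule Ω C} (hU : U ≤ A) :
    finrank Ω (annR ψ U A') + finrank Ω U = finrank Ω A' := by
  set T := toDualR ψ U A' with hT
  have hinj : Function.Injective T := by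
    rw [← LinearMap.ker_eq_bot, LinearMap.ker_eq_bot']
    intro x hx
    have : (x : C) = 0 := h.left x (hU x.2) (fun y hy => by
      exact LinearMap.congr_fun hx ⟨y, hy⟩)
    exact Subtype.ext this
  have hsurj : Function.Surjective T.dualMap := LinearMap.dualMap_surjective_of_injective hinj
  set S : A' →ₗ[Ω] Dual Ω U := T.dualMap ∘ₗ (Module.evalEquiv Ω A').toLinearMap with hS
  have hSs : Function.Surjective S := by
    rw [hS, LinearMap.coe_comp]
    exact hsurj.comp (Module.evalEquiv Ω A').surjective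
  have hSa : ∀ (y : A') (x : U), S y x = ψ x y := by
    intro y x
    rfl
  have hk : (annR ψ U A').comap A'.subtype = LinearMap.ker S := by
    ext y
    simp only [Submodule.mem_comap, Submodule.coe_subtype, mem_annR, LinearMap.mem_ker]
    constructor
    · rintro ⟨_, h2⟩
      ext x
      rw [hSa]
      exact h2 x x.2
    · intro h2
      refine ⟨y.2, fun x hx => ?_⟩
      have := LinearMap.congr_fun h2 ⟨x, hx⟩
      rw [hSa] at this
      exact this
  have h1 : finrank Ω (LinearMap.ker S) = finrank Ω (annR ψ U A') := by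
    rw [← hk]
    have hle : annR ψ U A' ≤ A' := fun y hy => hy.1
    exact (Submodule.comapSubtypeEquivOfLe hle).finrank_eq
  have h2 := LinearMap.finrank_range_add_finrank_ker S
  rw [LinearMap.range_eq_top.2 hSs, finrank_top, h1, Subspace.dual_finrank_eq] at h2
  omega

lemma Perf.finrank_eq {ψ : C →ₗ[Ω] C →ₗ[Ω] Ω} {A A' : Submodule Ω C} (h : Perf ψ A A') :
    finrank Ω A = finrank Ω A' := by
  have h1 := h.finrank_annR (le_refl A)
  have h2 : annR ψ A A' = ⊥ := by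
    rw [eq_bot_iff]
    intro y hy
    exact h.right y hy.1 hy.2
  rw [h2, finrank_bot] at h1
  omega

/-- Double annihilator. -/
lemma Perf.annR_annR {ψ : C →ₗ[Ω] C →ₗ[Ω] Ω} {A A' : Submodule Ω C} (h : Perf ψ A A')
    {U : Submodule Ω C} (hU : U ≤ A) : annR ψ.flip (annR ψ U A') A = U := by
  have h1 : U ≤ annR ψ.flip (annR ψ U A') A := fun x hx => ⟨hU hx, fun y hy => hy.2 x hx⟩
  have h2 := h.finrank_annR hU
  have hle : annR ψ U A' ≤ A' := fun y hy => hy.1
  have h3 := h.flip.finrank_annR hle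
  have h4 := h.finrank_eq
  exact (Submodule.eq_of_le_of_finrank_eq h1 (by omega)).symm

omit [FiniteDimensional Ω C] in
lemma annR_mono {ψ : C →ₗ[Ω] C →ₗ[Ω] Ω} {U V A' : Submodule Ω C} (h : U ≤ V) :
    annR ψ V A' ≤ annR ψ U A' := fun _ hy => ⟨hy.1, fun x hx => hy.2 x (h hx)⟩

omit [FiniteDimensional Ω C] in
lemma annR_sup {ψ : C →ₗ[Ω] C →ₗ[Ω] Ω} {U V A' : Submodule Ω C} :
    annR ψ (U ⊔ V) A' = annR ψ U A' ⊓ annR ψ V A' := by
  ext y
  simp only [Submodule.mem_inf, mem_annR]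
  constructor
  · rintro ⟨h1, h2⟩
    exact ⟨⟨h1, fun x hx => h2 x (Submodule.mem_sup_left hx)⟩,
      ⟨h1, fun x hx => h2 x (Submodule.mem_sup_right hx)⟩⟩
  · rintro ⟨⟨h1, h2⟩, ⟨_, h3⟩⟩
    refine ⟨h1, fun x hx => ?_⟩
    obtain ⟨u, hu, v, hv, rfl⟩ := Submodule.mem_sup.1 hx
    rw [map_add, LinearMap.add_apply, h2 u hu, h3 v hv, add_zero]

/-- Rank and nullity on a subspace. -/
lemma finrank_map_add_ker {M : Type*} [AddCommGroup M] [Module Ω M] (f : C →ₗ[Ω] M)
    (A : Submodule Ω C) :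
    finrank Ω (A.map f) + finrank Ω (A ⊓ LinearMap.ker f : Submodule Ω C) = finrank Ω A := by
  have h := LinearMap.finrank_range_add_finrank_ker (f.domRestrict A)
  have h1 : LinearMap.range (f.domRestrict A) = A.map f := by
    rw [LinearMap.domRestrict, LinearMap.range_comp, Submodule.range_subtype]
  have h2 : finrank Ω (LinearMap.ker (f.domRestrict A)) =
      finrank Ω (A ⊓ LinearMap.ker f : Submodule Ω C) := by
    have h3 : LinearMap.ker (f.domRestrict A) = (A ⊓ LinearMap.ker f).comap A.subtype := by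
      ext x
      simp [LinearMap.domRestrict_apply]
    rw [h3]
    exact (Submodule.comapSubtypeEquivOfLe inf_le_left).finrank_eq
  rw [h1, h2] at h
  exact h

omit [FiniteDimensional Ω C] in
/-- The annihilator of an image is the kernel of the adjoint map. -/
lemma annR_map {ψ : C →ₗ[Ω] C →ₗ[Ω] Ω} {A A' B' : Submodule Ω C} {f g : Module.End Ω C}
    (hA : Perf ψ A A') (hg : ∀ y ∈ B', g y ∈ A') (hfg : ∀ x ∈ A, ∀ y ∈ B', ψ (f x) y = ψ x (g y)) :
    annR ψ (A.map f) B' = B' ⊓ LinearMap.ker g := by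
  ext y
  simp only [mem_annR, Submodule.mem_inf, LinearMap.mem_ker]
  constructor
  · rintro ⟨h1, h2⟩
    refine ⟨h1, hA.right _ (hg y h1) (fun x hx => ?_)⟩
    rw [← hfg x hx y h1]
    exact h2 _ (Submodule.mem_map_of_mem hx)
  · rintro ⟨h1, h2⟩
    refine ⟨h1, ?_⟩
    rintro _ ⟨x, hx, rfl⟩
    rw [hfg x hx y h1, h2, map_zero]

/-- The annihilator of a kernel is the image of the adjoint map. -/
lemma annR_ker {ψ : C →ₗ[Ω] C →ₗ[Ω] Ω} {A A' B B' : Submodule Ω C} {f g : Module.End Ω C}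
    (hA : Perf ψ A A') (hB : Perf ψ B B') (hf : ∀ x ∈ A, f x ∈ B) (hg : ∀ y ∈ B', g y ∈ A')
    (hfg : ∀ x ∈ A, ∀ y ∈ B', ψ (f x) y = ψ x (g y)) :
    annR ψ (A ⊓ LinearMap.ker f) A' = B'.map g := by
  have h1 : annR ψ.flip (B'.map g) A = A ⊓ LinearMap.ker f :=
    annR_map (ψ := ψ.flip) hB.flip hf (fun y hy x hx => (hfg x hx y hy).symm)
  have hle : B'.map g ≤ A' := by
    rintro _ ⟨y, hy, rfl⟩
    exact hg y hy
  have h2 := hA.flip.annR_annR hle
  rw [h1] at h2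
  exact h2

/-- Adjoint maps have the same rank. -/
lemma finrank_map_adjoint {ψ : C →ₗ[Ω] C →ₗ[Ω] Ω} {A A' B B' : Submodule Ω C}
    {f g : Module.End Ω C}
    (hA : Perf ψ A A') (hB : Perf ψ B B') (hf : ∀ x ∈ A, f x ∈ B) (hg : ∀ y ∈ B', g y ∈ A')
    (hfg : ∀ x ∈ A, ∀ y ∈ B', ψ (f x) y = ψ x (g y)) :
    finrank Ω (A.map f) = finrank Ω (B'.map g) := by
  have hle : A.map f ≤ B := by
    rintro _ ⟨y, hy, rfl⟩
    exact hf y hy
  have h1 := hB.finrank_annR hle
  rw [annR_map hA hg hfg] at h1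
  have h2 := finrank_map_add_ker g B'
  omega

end Pool.Agent.Y143
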