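import Pool.Agent.Y143.Low

/-!
# The monodromy filtration and the weight filtration in the extreme degrees
-/

namespace Pool.Agent.Y143

universe u v

open Module

section Mono

variable {Ω : Type*} [Field Ω] {V : Type*} [AddCommGroup V] [Module Ω V]
  {N : Module.End Ω V} {M : ℤ → Submodule Ω V}

lemma IsMonodromyFiltration.map_pow (h : IsMonodromyFiltration N M) (a : ℕ) (j : ℤ) {x : V}
    (hx : x ∈ M j) : (N ^ a) x ∈ M (j - 2 * a) := by
  induction a with
  | zero => simpa using hx
  | succ a ih =>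
    have := h.map _ _ ih
    rw [← Module.End.mul_apply, ← pow_succ'] at this
    rwa [show j - 2 * ((a + 1 : ℕ) : ℤ) = j - 2 * a - 2 by push_cast; ring]

lemma IsMonodromyFiltration.eq_top (h : IsMonodromyFiltration N M) {r : ℕ}
    (hN : ∀ a : ℕ, r < a → N ^ a = 0) {j : ℤ} (hj : (r : ℤ) ≤ j) : M j = ⊤ := by
  obtain ⟨j₀, h0⟩ := h.top
  by_cases hle : j₀ ≤ j
  · rw [eq_top_iff, ← h0]
    exact h.mono hle
  · have key : ∀ k : ℕ, j ≤ j₀ - k → M (j₀ - k) = ⊤ := by
      intro k
      induction k with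
      | zero => intro _; simpa using h0
      | succ k ih =>
        intro hk
        push_cast at hk
        have h1 := ih (by omega)
        rw [eq_top_iff]
        intro x _
        have h2 := h.inj (j₀ - k).toNat x (by
          rw [show (((j₀ - k).toNat : ℕ) : ℤ) = j₀ - k by omega, h1]
          exact Submodule.mem_top) (by
          rw [hN _ (by omega), LinearMap.zero_apply]
          exact Submodule.zero_mem _)
        rwa [show (((j₀ - k).toNat : ℕ) : ℤ) - 1 = j₀ - ((k + 1 : ℕ) : ℤ) by push_cast; omega]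
          at h2
    have := key (j₀ - j).toNat (by omega)
    rwa [show j₀ - ((j₀ - j).toNat : ℤ) = j by omega] at this

lemma IsMonodromyFiltration.eq_bot (h : IsMonodromyFiltration N M) {r : ℕ}
    (hN : ∀ a : ℕ, r < a → N ^ a = 0) {j : ℤ} (hj : j < -(r : ℤ)) : M j = ⊥ := by
  obtain ⟨j₀, h0⟩ := h.bot
  by_cases hle : j ≤ j₀
  · rw [eq_bot_iff, ← h0]
    exact h.mono hle
  · have key : ∀ k : ℕ, j₀ + k ≤ j → M (j₀ + k) = ⊥ := by
      intro k
      induction k with
      | zero => intro _; simpa using h0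
      | succ k ih =>
        intro hk
        push_cast at hk
        have h1 := ih (by omega)
        rw [eq_bot_iff]
        intro y hy
        obtain ⟨x, -, hx⟩ := h.surj (-(j₀ + (k + 1 : ℕ))).toNat y (by
          rwa [show -(((-(j₀ + (k + 1 : ℕ))).toNat : ℕ) : ℤ) = j₀ + (k + 1 : ℕ) by
            push_cast; omega])
        rw [hN _ (by push_cast; omega), LinearMap.zero_apply, sub_zero] at hx
        rw [show -(((-(j₀ + (k + 1 : ℕ))).toNat : ℕ) : ℤ) - 1 = j₀ + k by
            push_cast; omega, h1] at hx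
        exact hx
    have := key (j - j₀).toNat (by omega)
    rwa [show j₀ + ((j - j₀).toNat : ℤ) = j by omega] at this

end Mono

variable {Ω : Type u} [Field Ω] [CharZero Ω] {Γ : Type} {n q : ℕ}

namespace SemistableModel

variable (X : SemistableModel.{u, v} Ω Γ n q)

lemma N_pow_zero (m a : ℕ) (h : (n : ℤ) < a + |(m : ℤ) - n|) : X.N m ^ a = 0 := by
  rcases Nat.eq_zero_or_pos a with rfl | ha
  · have h1 := X.W_eq_top m m (by push_cast at h ⊢; omega) le_rfl
    have h2 := X.W_step m m (by push_cast at h; simpa using h)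
    have h3 := X.W_eq_bot m ((m : ℤ) - 1) (by push_cast at h; omega) (by omega)
    rw [h2, h3] at h1
    ext v
    have : v ∈ (⊥ : Submodule Ω (X.V m)) := by rw [h1]; exact Submodule.mem_top
    rw [Submodule.mem_bot] at this
    rw [this, map_zero, map_zero]
  · ext v
    have h1 := X.W_eq_top m ((m : ℤ) + a) (by omega) (by omega)
    have h2 := X.N_W m ((m : ℤ) + a) a (v := v) (by rw [h1]; exact Submodule.mem_top)
    rw [show (m : ℤ) + a - 2 * a = m - a by ring, X.W_eq_bot m ((m : ℤ) - a) (by omega) (by omega),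
      Submodule.mem_bot] at h2
    rw [h2, LinearMap.zero_apply]

/-- Comparison of the two filtrations. -/
lemma compare (m : ℕ) {M : ℤ → Submodule Ω (X.V m)} (hM : IsMonodromyFiltration (X.N m) M)
    (a₀ : ℕ) (ha₀ : 1 ≤ a₀)
    (hI : ∀ a : ℕ, a₀ ≤ a → NInj X.diff X.tot a ((m : ℤ) - n))
    (hS : ∀ a : ℕ, a₀ ≤ a → NSurj X.diff X.tot a ((m : ℤ) - n)) (a : ℕ) (ha : a₀ ≤ a) :
    M ((a : ℤ) - 1) = X.W m ((m : ℤ) + a - 1) ∧ M (-(a : ℤ)) = X.W m ((m : ℤ) - a) := by
  have hN : ∀ a : ℕ, n < a → X.N m ^ a = 0 := fun a ha => X.N_pow_zero m a (by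
    have := abs_nonneg ((m : ℤ) - n)
    omega)
  have key : ∀ k : ℕ, a₀ ≤ n + 1 - k → M (((n + 1 - k : ℕ) : ℤ) - 1) =
      X.W m ((m : ℤ) + (n + 1 - k : ℕ) - 1) ∧
      M (-((n + 1 - k : ℕ) : ℤ)) = X.W m ((m : ℤ) - (n + 1 - k : ℕ)) := by
    intro k
    have habs := abs_nonneg ((m : ℤ) - n)
    induction k with
    | zero =>
      intro _
      constructor
      · rw [hM.eq_top hN (by push_cast; omega), X.W_eq_top m _ (by push_cast; omega)
          (by push_cast; omega)]
      · rw [hM.eq_bot hN (by push_cast; omega), X.W_eq_bot m _ (by push_cast; omega)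
          (by push_cast; omega)]
    | succ k ih =>
      intro hk
      obtain ⟨h1, h2⟩ := ih (by omega)
      set b := n + 1 - (k + 1) with hb
      have hb1 : n + 1 - k = b + 1 := by omega
      rw [hb1] at h1 h2
      have e1 : M (b : ℤ) = X.W m ((m : ℤ) + b) := by
        rwa [show (((b + 1 : ℕ) : ℤ) - 1) = b by push_cast; ring,
          show (m : ℤ) + ((b + 1 : ℕ) : ℤ) - 1 = m + b by push_cast; ring] at h1
      have e2 : M (-(b : ℤ) - 1) = X.W m ((m : ℤ) - b - 1) := by
        rwa [show -(((b + 1 : ℕ) : ℤ)) = -(b : ℤ) - 1 by push_cast; ring,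
          show (m : ℤ) - ((b + 1 : ℕ) : ℤ) = m - b - 1 by push_cast; ring] at h2
      constructor
      · apply le_antisymm
        · intro x hx
          have h3 : x ∈ M b := hM.mono (by omega) hx
          rw [e1] at h3
          apply X.inj_level m b (hI b hk) h3
          rw [← e2]
          have := hM.map_pow b _ hx
          rwa [show (b : ℤ) - 1 - 2 * b = -b - 1 by ring] at this
        · intro x hx
          apply hM.inj b x
          · rw [e1]
            exact X.W_mono m (by omega) hx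
          · rw [e2]
            exact X.W_cast (by ring) (X.N_W m _ b hx)
      · apply le_antisymm
        · intro y hy
          obtain ⟨x, hx, hxy⟩ := hM.surj b y hy
          rw [e1] at hx
          rw [e2] at hxy
          have h3 := X.W_mono m (by omega : (m : ℤ) - b - 1 ≤ m - b) hxy
          have h4 := X.W_cast (by ring : (m : ℤ) + b - 2 * b = m - b) (X.N_W m _ b hx)
          have := Submodule.add_mem _ h3 h4
          rwa [sub_add_cancel] at this
        · intro y hy
          obtain ⟨x, hx, hxy⟩ := X.surj_level m b (hS b hk) hy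
          rw [← e1] at hx
          rw [← e2] at hxy
          have h3 := hM.mono (by omega : -(b : ℤ) - 1 ≤ -b) hxy
          have h4 := hM.map_pow b _ hx
          rw [show (b : ℤ) - 2 * b = -b by ring] at h4
          have := Submodule.add_mem _ h3 h4
          rwa [sub_add_cancel] at this
  rcases Nat.lt_or_ge n a with h | h
  · have habs := abs_nonneg ((m : ℤ) - n)
    constructor
    · rw [hM.eq_top hN (by omega), X.W_eq_top m _ (by omega) (by omega)]
    · rw [hM.eq_bot hN (by omega), X.W_eq_bot m _ (by omega) (by omega)]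
  · have := key (n + 1 - a) (by omega)
    rwa [show n + 1 - (n + 1 - a) = a by omega] at this

/-- Purity of the graded pieces of the monodromy filtration in the extreme degrees. -/
theorem pure_range (m : ℕ) {M : ℤ → Submodule Ω (X.V m)} (hM : IsMonodromyFiltration (X.N m) M)
    (a₀ : ℕ) (ha₀ : 1 ≤ a₀)
    (hI : ∀ a : ℕ, a₀ ≤ a → NInj X.diff X.tot a ((m : ℤ) - n))
    (hS : ∀ a : ℕ, a₀ ≤ a → NSurj X.diff X.tot a ((m : ℤ) - n)) (j : ℤ)
    (hj : (a₀ : ℤ) ≤ |j| + 1) (α : Ω) (x : X.V m) (hx : x ∈ M j) (hx' : x ∉ M (j - 1))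
    (hα : X.actV m X.frob x - α • x ∈ M (j - 1)) : IsWeilNumber q (j + m) α := by
  have hC := X.compare m hM a₀ ha₀ hI hS
  have big : ∀ a : ℕ, a₀ ≤ a → j = a → IsWeilNumber q (j + m) α := by
    rintro a ha rfl
    have h1 := (hC (a + 1) (by omega)).1
    have h2 := (hC a ha).1
    rw [show (((a + 1 : ℕ) : ℤ) - 1) = a by push_cast; ring,
      show (m : ℤ) + ((a + 1 : ℕ) : ℤ) - 1 = m + a by push_cast; ring] at h1
    rw [h1] at hx
    rw [h2] at hx' hα
    rw [add_comm]
    exact X.weil_level m _ α hx hx' hα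
  have small : ∀ a : ℕ, a₀ ≤ a → j = -a → IsWeilNumber q (j + m) α := by
    rintro a ha rfl
    have h1 := (hC (a + 1) (by omega)).2
    have h2 := (hC a ha).2
    rw [show -(((a + 1 : ℕ) : ℤ)) = -(a : ℤ) - 1 by push_cast; ring,
      show (m : ℤ) - ((a + 1 : ℕ) : ℤ) = m - a - 1 by push_cast; ring] at h1
    rw [h2] at hx
    rw [h1] at hx' hα
    rw [show -(a : ℤ) + m = m - a by ring]
    exact X.weil_level m _ α hx hx' hα
  obtain ⟨b, rfl⟩ : ∃ b, a₀ = b + 1 := ⟨a₀ - 1, by omega⟩
  obtain ⟨h1, h2⟩ := hC (b + 1) le_rfl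
  have e1 : M (b : ℤ) = X.W m ((m : ℤ) + b) := by
    rwa [show (((b + 1 : ℕ) : ℤ) - 1) = b by push_cast; ring,
      show (m : ℤ) + ((b + 1 : ℕ) : ℤ) - 1 = m + b by push_cast; ring] at h1
  have e2 : M (-(b : ℤ) - 1) = X.W m ((m : ℤ) - b - 1) := by
    rwa [show -(((b + 1 : ℕ) : ℤ)) = -(b : ℤ) - 1 by push_cast; ring,
      show (m : ℤ) - ((b + 1 : ℕ) : ℤ) = m - b - 1 by push_cast; ring] at h2
  push_cast at hj
  rcases le_total 0 j with h0 | h0
  · rw [abs_of_nonneg h0] at hj
    rcases lt_or_eq_of_le (show (b : ℤ) ≤ j by omega) with h3 | h3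
    · exact big j.toNat (by omega) (by omega)
    · subst h3
      -- transport to the degree `-b`
      rw [e1] at hx
      have hy : (X.N m ^ b) x ∈ X.W m ((m : ℤ) - b) :=
        X.W_cast (by ring) (X.N_W m _ b hx)
      have hy' : (X.N m ^ b) x ∉ X.W m ((m : ℤ) - b - 1) := by
        intro hc
        rw [← e2] at hc
        exact hx' (hM.inj b x (by rw [e1]; exact hx) hc)
      have hz : (X.N m ^ b) (X.actV m X.frob x - α • x) ∈ X.W m ((m : ℤ) - b - 1) := by
        rw [← e2]
        have := hM.map_pow b _ hα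
        rwa [show (b : ℤ) - 1 - 2 * b = -b - 1 by ring] at this
      have hcomm := X.comm_level m b hx
      have hq : (q : Ω) ^ b ≠ 0 := pow_ne_zero _ (Nat.cast_ne_zero.2 X.q_ne)
      have hfin : X.actV m X.frob ((X.N m ^ b) x) - (((q : Ω) ^ b)⁻¹ * α) • (X.N m ^ b) x ∈
          X.W m ((m : ℤ) - b - 1) := by
        have h4 := Submodule.smul_mem _ (((q : Ω) ^ b)⁻¹) (Submodule.sub_mem _ hz hcomm)
        rw [map_sub, map_smul, sub_sub_sub_cancel_left, smul_sub, smul_smul, smul_smul,
          inv_mul_cancel₀ hq, one_smul] at h4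
        exact h4
      have h5 := X.weil_level m _ _ hy hy' hfin
      have h6 := h5.twist X.q_ne b
      rw [zpow_natCast, ← mul_assoc, mul_inv_cancel₀ hq, one_mul] at h6
      rwa [show (m : ℤ) - b + 2 * b = b + m by ring] at h6
  · rw [abs_of_nonpos h0] at hj
    rcases lt_or_eq_of_le (show (b : ℤ) ≤ -j by omega) with h3 | h3
    · exact small (-j).toNat (by omega) (by omega)
    · obtain rfl : j = -b := by omega
      obtain ⟨y, hy, hxy⟩ := hM.surj b x hx
      rw [e1] at hy
      rw [e2] at hxy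
      have h4 := X.W_cast (by ring : (m : ℤ) + b - 2 * b = m - b) (X.N_W m _ b hy)
      have h5 := X.W_mono m (by omega : (m : ℤ) - b - 1 ≤ m - b) hxy
      have hx2 := Submodule.add_mem _ h5 h4
      rw [sub_add_cancel] at hx2
      rw [e2] at hx' hα
      rw [show -(b : ℤ) + m = m - b by ring]
      exact X.weil_level m _ α hx2 hx' hα

end SemistableModel

end Pool.Agent.Y143
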