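import Pool.Agent.Y143.Harmonic

/-!
# Rigid-analytic spaces: surfaces, and the weight zero
-/

namespace Pool.Agent.Y143

universe u v

open Module

variable {Ω : Type u} [Field Ω] [CharZero Ω] {Γ : Type} {n q : ℕ}

namespace SemistableModel

variable (X : SemistableModel.{u, v} Ω Γ n q)

/-- mw purity in the degree `m` from the case of the degree `m` or `2 n - m`. -/
theorem isMWPure_of_abs (m : ℕ)
    (h : ∀ i : ℤ, 1 ≤ i → NInj X.diff X.tot i (-|(m : ℤ) - n|) ∧
      (m ≠ n → NSurj X.diff X.tot i (-|(m : ℤ) - n|))) :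
    IsMWPure q m (X.actV m X.frob) (X.N m) := by
  have key : ∀ i : ℤ, 1 ≤ i → NInj X.diff X.tot i ((m : ℤ) - n) ∧
      NSurj X.diff X.tot i ((m : ℤ) - n) := by
    intro i hi
    obtain ⟨h1, h2⟩ := h i hi
    by_cases hmn : m = n
    · subst hmn
      rw [sub_self, abs_zero, neg_zero] at h1
      rw [sub_self]
      exact ⟨h1, X.baseComplex.good_mid i hi h1⟩
    · have h3 := h2 hmn
      rcases le_total ((m : ℤ) - n) 0 with h4 | h4
      · rw [abs_of_nonpos h4, neg_neg] at h1 h3
        exact ⟨h1, h3⟩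
      · rw [abs_of_nonneg h4] at h1 h3
        exact X.baseComplex.good_flip i hi _ h1 h3
  exact X.isMWPure_of m (fun a ha => (key a (by exact_mod_cast ha)).1)
    (fun a ha => (key a (by exact_mod_cast ha)).2)

/-- The first and the last cohomology groups. -/
theorem mwPure_one (A : DivisorClasses X.toSpecialFibre) (m : ℕ) (hm : m ≤ 1 ∨ 2 * n ≤ m + 1) :
    IsMWPure q m (X.actV m X.frob) (X.N m) := by
  have hw : (n : ℤ) + -|(m : ℤ) - n| ≤ 1 := by
    rcases hm with hm | hm
    · have := neg_abs_le ((m : ℤ) - n)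
      rcases le_total ((m : ℤ) - n) 0 with h4 | h4
      · rw [abs_of_nonpos h4]
        omega
      · rw [abs_of_nonneg h4]
        omega
    · rcases le_total ((m : ℤ) - n) 0 with h4 | h4
      · rw [abs_of_nonpos h4]
        omega
      · rw [abs_of_nonneg h4]
        omega
  apply X.isMWPure_of_abs m
  intro i hi
  exact ⟨A.nInj_one i hi _ (by omega), fun _ => A.nSurj_zero i hi _ (by omega)⟩

end SemistableModel

/-- **Surfaces.** -/
theorem SemistableModel.mwPure_surface (X : SemistableModel.{u, v} Ω Γ 2 q)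
    (A : DivisorClasses X.toSpecialFibre) (m : ℕ) :
    IsMWPure q m (X.actV m X.frob) (X.N m) := by
  apply X.isMWPure_of_abs m
  intro i hi
  have h1 := abs_nonneg ((m : ℤ) - (2 : ℕ))
  refine ⟨A.nInj_one i hi _ (by push_cast at h1 ⊢; omega), fun hm => ?_⟩
  have h2 : (1 : ℤ) ≤ |(m : ℤ) - (2 : ℕ)| := by
    apply Int.one_le_abs
    intro h
    apply hm
    have : (m : ℤ) = (2 : ℕ) := by linarith
    exact_mod_cast this
  exact A.nSurj_zero i hi _ (by push_cast at h2 ⊢; omega)

end Pool.Agent.Y143
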