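import Pool.Agent.Y143.Induct
import Pool.Agent.Y143.Wt

/-!
# Symmetries of a Lefschetz complex and the decomposition into classes
-/

namespace Pool.Agent.Y143

open Module Submodule

variable {Ω : Type*} [Field Ω] {C : Type*} [AddCommGroup C] [Module Ω C] {Γ : Type*}

/-- A commutative family of symmetries of a Lefschetz complex. -/
structure Sym (d : ℤ → Module.End Ω C) (L : Module.End Ω C) (G : ℤ → ℤ → Submodule Ω C)
    (T : ℤ → Γ → Module.End Ω C) (c : Γ → Ω) : Prop where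
  comm : ∀ i g h, Commute (T i g) (T i h)
  stab : ∀ i j g x, x ∈ G i j → T i g x ∈ G i j
  shift : ∀ i k g x, T (i - 2 * k) g x = c g ^ k • T i g x
  dT : ∀ i g x, T (i + 1) g (d i x) = d i (T i g x)
  LT : ∀ i g x, T i g (L x) = c g • L (T i g x)
  cne : ∀ g, c g ≠ 0

/-- The exponent of the cyclotomic character in bidegree `(i, j)`. -/
def ex (n p i j : ℤ) : ℤ := (n + j - i - p) / 2

/-- The character in bidegree `(i, j)`. -/
def chr (c χ : Γ → Ω) (n p i j : ℤ) : Γ → Ω := fun g => c g ^ ex n p i j * χ g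

/-- The part of class `χ`. -/
def Cl (G : ℤ → ℤ → Submodule Ω C) (T : ℤ → Γ → Module.End Ω C) (c χ : Γ → Ω) (n p : ℤ) :
    ℤ → ℤ → Submodule Ω C := fun i j => G i j ⊓ Wt (T i) (chr c χ n p i j)

lemma ex_neg (n p i j : ℤ) : ex n p (-i) j = i + ex n p i j := by
  unfold ex; omega

lemma ex_d (n p i j : ℤ) : ex n p (i + 1) (j + 1) = ex n p i j := by
  unfold ex; congr 1; omega

lemma ex_L (n p i j : ℤ) : ex n p i (j + 2) = 1 + ex n p i j := by
  unfold ex; omega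

lemma ex_dual (n p i j : ℤ) : ex n (1 - p) (-i) (-j) + ex n p i j = n - 1 := by
  unfold ex; omega

lemma chr_neg {c χ : Γ → Ω} (hc : ∀ g, c g ≠ 0) (n p i j : ℤ) :
    chr c χ n p (-i) j = fun g => c g ^ i * chr c χ n p i j g := by
  funext g
  unfold chr
  rw [ex_neg, zpow_add₀ (hc g), mul_assoc]

lemma chr_d {c χ : Γ → Ω} (n p i j : ℤ) :
    chr c χ n p (i + 1) (j + 1) = chr c χ n p i j := by
  funext g
  unfold chr
  rw [ex_d]

lemma chr_L {c χ : Γ → Ω} (hc : ∀ g, c g ≠ 0) (n p i j : ℤ) :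
    chr c χ n p i (j + 2) = fun g => c g * chr c χ n p i j g := by
  funext g
  unfold chr
  rw [ex_L, zpow_add₀ (hc g), zpow_one, mul_assoc]

lemma chr_Lpow {c χ : Γ → Ω} (hc : ∀ g, c g ≠ 0) (n p i j : ℤ) (m : ℕ) :
    chr c χ n p i (j + 2 * m) = fun g => c g ^ m * chr c χ n p i j g := by
  induction m with
  | zero => simp
  | succ m ih =>
    rw [show j + 2 * ((m + 1 : ℕ) : ℤ) = (j + 2 * m) + 2 by push_cast; ring, chr_L hc, ih]
    funext g
    rw [pow_succ']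
    ring

namespace Sym

variable {d : ℤ → Module.End Ω C} {L : Module.End Ω C} {G : ℤ → ℤ → Submodule Ω C}
  {T : ℤ → Γ → Module.End Ω C} {c : Γ → Ω}

lemma d_wt (h : Sym d L G T c) {i : ℤ} {μ : Γ → Ω} {x : C} (hx : x ∈ Wt (T i) μ) :
    d i x ∈ Wt (T (i + 1)) μ := by
  have := map_Wt (T := T i) (T' := T (i + 1)) (c := fun _ => 1) (d i)
    (fun g x => by rw [h.dT, one_smul]) hx
  simpa using this

lemma L_wt (h : Sym d L G T c) {i : ℤ} {μ : Γ → Ω} {x : C} (hx : x ∈ Wt (T i) μ) :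
    L x ∈ Wt (T i) (fun g => c g * μ g) :=
  map_Wt (T := T i) (T' := T i) (c := c) L (fun g x => h.LT i g x) hx

lemma LTpow (h : Sym d L G T c) (i : ℤ) (m : ℕ) (g : Γ) (x : C) :
    T i g ((L ^ m) x) = c g ^ m • (L ^ m) (T i g x) := by
  induction m with
  | zero => simp
  | succ m ih =>
    rw [pow_succ', Module.End.mul_apply, h.LT, ih, map_smul, smul_smul, ← pow_succ',
      ← Module.End.mul_apply]

lemma shift_wt (h : Sym d L G T c) {i : ℤ} (k : ℤ) {μ : Γ → Ω} {x : C} (hx : x ∈ Wt (T i) μ) :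
    x ∈ Wt (T (i - 2 * k)) (fun g => c g ^ k * μ g) := by
  have := map_Wt (T := T i) (T' := T (i - 2 * k)) (c := fun g => c g ^ k) (1 : Module.End Ω C)
    (fun g x => by simpa using h.shift i k g x) hx
  simpa using this

lemma neg_wt (h : Sym d L G T c) {i : ℤ} {μ : Γ → Ω} {x : C} (hx : x ∈ Wt (T i) μ) :
    x ∈ Wt (T (-i)) (fun g => c g ^ i * μ g) := by
  have := h.shift_wt i hx
  rwa [show i - 2 * i = -i by ring] at this

lemma cl_neg_le (h : Sym d L G T c) (hG : LefComplex d L G) (χ : Γ → Ω) (n p : ℤ) (i j : ℤ) :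
    Cl G T c χ n p i j ≤ Cl G T c χ n p (-i) j := by
  rintro x ⟨h1, h2⟩
  refine ⟨by rw [hG.neg]; exact h1, ?_⟩
  rw [SetLike.mem_coe, chr_neg h.cne]
  exact h.neg_wt h2

variable [IsAlgClosed Ω] [FiniteDimensional Ω C]

/-- The projection commutes with the differential. -/
lemma prj_d (h : Sym d L G T c) (i : ℤ) (μ : Γ → Ω) (x : C) :
    prj (T (i + 1)) (h.comm (i + 1)) μ (d i x) = d i (prj (T i) (h.comm i) μ x) := by
  have := prj_equiv (h.comm i) (h.comm (i + 1)) (c := fun _ => 1) (fun _ => one_ne_zero) (d i)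
    (fun g x => by rw [h.dT, one_smul]) μ x
  simpa using this

lemma prj_Lpow (h : Sym d L G T c) (i : ℤ) (m : ℕ) (μ : Γ → Ω) (x : C) :
    prj (T i) (h.comm i) (fun g => c g ^ m * μ g) ((L ^ m) x) =
      (L ^ m) (prj (T i) (h.comm i) μ x) :=
  prj_equiv (h.comm i) (h.comm i) (c := fun g => c g ^ m) (fun g => pow_ne_zero _ (h.cne g))
    (L ^ m) (fun g x => h.LTpow i m g x) μ x

lemma prj_mem_G (h : Sym d L G T c) {i j : ℤ} (μ : Γ → Ω) {x : C} (hx : x ∈ G i j) :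
    prj (T i) (h.comm i) μ x ∈ G i j :=
  prj_stable (h.comm i) (fun g x hx => h.stab i j g x hx) μ hx

lemma prj_bd (h : Sym d L G T c) {i j : ℤ} (χ : Γ → Ω) (n p : ℤ) {x : C}
    (hx : x ∈ Bd d G i j) :
    prj (T i) (h.comm i) (chr c χ n p i j) x ∈ Bd d (Cl G T c χ n p) i j := by
  obtain ⟨y, hy, rfl⟩ := hx
  have e : chr c χ n p i j = chr c χ n p (i - 1) (j - 1) := by
    have := chr_d (c := c) (χ := χ) n p (i - 1) (j - 1)
    rwa [show i - 1 + 1 = i by ring, show j - 1 + 1 = j by ring] at this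
  refine ⟨prj (T (i - 1)) (h.comm (i - 1)) (chr c χ n p (i - 1) (j - 1)) y,
    ⟨h.prj_mem_G _ hy, prj_mem _ _ _⟩, ?_⟩
  rw [← h.prj_d (i - 1), e]
  congr 1
  have : ∀ k : ℤ, k = i → ∀ hk, prj (T k) hk (chr c χ n p (i - 1) (j - 1)) =
      prj (T i) (h.comm i) (chr c χ n p (i - 1) (j - 1)) := by
    intro k hk
    subst hk
    intro _
    rfl
  exact this _ (by ring) _

lemma prj_zc (h : Sym d L G T c) {i j : ℤ} (χ : Γ → Ω) (n p : ℤ) {x : C}
    (hx : x ∈ Zc d G i j) :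
    prj (T i) (h.comm i) (chr c χ n p i j) x ∈ Zc d (Cl G T c χ n p) i j := by
  refine ⟨⟨h.prj_mem_G _ hx.1, prj_mem _ _ _⟩, ?_⟩
  rw [SetLike.mem_coe, LinearMap.mem_ker, ← h.prj_d, show d i x = 0 from hx.2, map_zero]

lemma bd_cl_le (χ : Γ → Ω) (n p i j : ℤ) :
    Bd d (Cl G T c χ n p) i j ≤ Bd d G i j := Submodule.map_mono inf_le_left

lemma zc_cl_le (χ : Γ → Ω) (n p i j : ℤ) :
    Zc d (Cl G T c χ n p) i j ≤ Zc d G i j := inf_le_inf_right _ inf_le_left

/-- The class of `χ` is a Lefschetz complex. -/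
theorem cl (h : Sym d L G T c) (hG : LefComplex d L G) (χ : Γ → Ω) (n p : ℤ) :
    LefComplex d L (Cl G T c χ n p) where
  neg i j := by
    apply le_antisymm
    · have := h.cl_neg_le hG χ n p (-i) j
      rwa [neg_neg] at this
    · exact h.cl_neg_le hG χ n p i j
  d_mem i j x hx := by
    refine ⟨hG.d_mem _ _ _ hx.1, ?_⟩
    rw [SetLike.mem_coe, chr_d]
    exact h.d_wt hx.2
  dd i j x hx := hG.dd i j x hx.1
  L_mem i j x hx := by
    refine ⟨hG.L_mem _ _ _ hx.1, ?_⟩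
    rw [SetLike.mem_coe, chr_L h.cne]
    exact h.L_wt hx.2
  dL := hG.dL
  bdd := by
    obtain ⟨B, hB0, hB⟩ := hG.bdd
    refine ⟨B, hB0, fun i j hij => ?_⟩
    unfold Cl
    rw [hB i j hij, bot_inf_eq]
  lefInj i m x hx h0 := hG.lefInj i m x hx.1 h0
  lefSurj i m y hy := by
    obtain ⟨x, hx, hxy⟩ := hG.lefSurj i m y hy.1
    refine ⟨prj (T i) (h.comm i) (chr c χ n p i (-m)) x, ⟨h.prj_mem_G _ hx, prj_mem _ _ _⟩, ?_⟩
    rw [← h.prj_Lpow, hxy]
    apply prj_of_mem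
    have := chr_Lpow (χ := χ) h.cne n p i (-m) m
    rw [show (-(m : ℤ) + 2 * m) = m by ring] at this
    rw [← this]
    exact hy.2
  out i hi j x hx h0 := hG.out i hi j x hx.1 h0
  incl i hi j z hz := by
    refine ⟨hG.incl i hi j z hz.1, ?_⟩
    have h1 := h.shift_wt 1 hz.2
    rw [show i + 1 - 2 * 1 = i - 1 by ring] at h1
    have h2 : chr c χ n p (i - 1) j = fun g => c g ^ (1 : ℤ) * chr c χ n p (i + 1) j g := by
      funext g
      unfold chr
      rw [← mul_assoc, ← zpow_add₀ (h.cne g)]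
      congr 2
      unfold ex
      omega
    rw [SetLike.mem_coe, h2]
    exact h1
  dneg := hG.dneg
  hlInj i m x hx h0 := by
    have h1 := hG.hlInj i m x (zc_cl_le _ _ _ _ _ hx) (bd_cl_le _ _ _ _ _ h0)
    have h2 := h.prj_bd χ n p h1
    rwa [prj_of_mem (h.comm i) hx.1.2] at h2
  hlSurj i m y hy := by
    obtain ⟨x, hx, hxy⟩ := hG.hlSurj i m y (zc_cl_le _ _ _ _ _ hy)
    refine ⟨_, h.prj_zc χ n p hx, ?_⟩
    have h1 := h.prj_bd χ n p hxy
    have h2 := chr_Lpow (χ := χ) h.cne n p i (-m) m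
    rw [show (-(m : ℤ) + 2 * m) = m by ring] at h2
    rw [map_sub, prj_of_mem (h.comm i) hy.1.2, h2, h.prj_Lpow] at h1
    exact h1

end Sym

end Pool.Agent.Y143
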